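import Pool.Agent.TH892.OW.B3

/-!
Two shifted integers free of small primes.
-/

set_option autoImplicit false

namespace Pool.Agent.TH892.OP

open Finset
open Pool.Agent.W41 (JJ JJ_lt JJ_le JJ_small)
open Pool.Agent.H373R2.T7 (pz Vz lamz mem_pz Vz_ge Vz_inv_le Vz_le_one)
open Pool.Agent.TH892.SW (fl_set)
open Pool.Agent.TH892.OW

/-- the excluded residues -/
def RR (a b : ℕ) (h : ℤ) (p r : ℕ) : Prop := (p ≤ a ∧ (p : ℤ) ∣ (r : ℤ)) ∨ (p ≤ b ∧ (p : ℤ) ∣ (r : ℤ) + h)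

/-- the number of excluded residues -/
def nu (a b : ℕ) (h : ℤ) (p : ℕ) : ℕ :=
  #((range p).filter (fun r : ℕ => (p ≤ a ∧ (p : ℤ) ∣ (r : ℤ)) ∨ (p ≤ b ∧ (p : ℤ) ∣ (r : ℤ) + h)))

open Classical in
/-- the number of `v` in `[1,N]` such that `v`, `v + h` are free of primes up to `a`, `b` -/
noncomputable def NN (a b N : ℕ) (h : ℤ) : ℕ :=
  #((Icc 1 N).filter (fun v : ℕ => (∀ p ∈ pz a, ¬ (p : ℤ) ∣ (v : ℤ)) ∧ (∀ p ∈ pz b, ¬ (p : ℤ) ∣ (v : ℤ) + h)))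

lemma card0 (p : ℕ) (hp : p.Prime) : #((range p).filter (fun r : ℕ => (p : ℤ) ∣ (r : ℤ))) = 1 := by
  have h := root_lin p hp 0 1 (by
    rintro ⟨_, h⟩
    have h2 : p ∣ 1 := by exact_mod_cast h
    exact hp.one_lt.ne' (Nat.dvd_one.1 h2))
  rw [if_neg (by
    intro h
    have h2 : p ∣ 1 := by exact_mod_cast h
    exact hp.one_lt.ne' (Nat.dvd_one.1 h2))] at h
  simpa using h

lemma card1 (p : ℕ) (hp : p.Prime) (c : ℤ) : #((range p).filter (fun r : ℕ => (p : ℤ) ∣ (r : ℤ) + c)) = 1 := by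
  have h := root_lin p hp c 1 (by
    rintro ⟨_, h⟩
    have h2 : p ∣ 1 := by exact_mod_cast h
    exact hp.one_lt.ne' (Nat.dvd_one.1 h2))
  rw [if_neg (by
    intro h
    have h2 : p ∣ 1 := by exact_mod_cast h
    exact hp.one_lt.ne' (Nat.dvd_one.1 h2))] at h
  rw [← h]
  congr 1
  apply filter_congr
  intro r _
  rw [one_mul, add_comm]

lemma nu_both (a b : ℕ) (h : ℤ) (p : ℕ) (hp : p.Prime) (ha : p ≤ a) (hb : p ≤ b) :
    nu a b h p = if (p : ℤ) ∣ h then 1 else 2 := by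
  unfold nu
  split_ifs with hd
  · rw [← card0 p hp]
    congr 1
    ext r
    rw [mem_filter, mem_filter]
    apply and_congr_right
    intro _
    constructor
    · rintro (⟨_, h1⟩ | ⟨_, h1⟩)
      · exact h1
      · exact (dvd_add_left hd).1 h1
    · intro h1
      exact Or.inl ⟨ha, h1⟩
  · have e : (range p).filter (fun r : ℕ => (p ≤ a ∧ (p : ℤ) ∣ (r : ℤ)) ∨ (p ≤ b ∧ (p : ℤ) ∣ (r : ℤ) + h)) =
        (range p).filter (fun r : ℕ => (p : ℤ) ∣ (r : ℤ)) ∪ (range p).filter (fun r : ℕ => (p : ℤ) ∣ (r : ℤ) + h) := by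
      ext r
      simp only [mem_union, mem_filter, ha, hb, true_and]
      tauto
    have hdis : Disjoint ((range p).filter (fun r : ℕ => (p : ℤ) ∣ (r : ℤ))) ((range p).filter (fun r : ℕ => (p : ℤ) ∣ (r : ℤ) + h)) := by
      rw [disjoint_left]
      intro r h1 h2
      rw [mem_filter] at h1 h2
      exact hd ((dvd_add_right h1.2).1 h2.2)
    have h1 : #((range p).filter (fun r : ℕ => (p ≤ a ∧ (p : ℤ) ∣ (r : ℤ)) ∨ (p ≤ b ∧ (p : ℤ) ∣ (r : ℤ) + h))) = 2 := by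
      rw [e, card_union_of_disjoint hdis, card0 p hp, card1 p hp]
    convert h1

lemma nu_left (a b : ℕ) (h : ℤ) (p : ℕ) (hp : p.Prime) (ha : p ≤ a) (hb : ¬ p ≤ b) : nu a b h p = 1 := by
  unfold nu
  rw [← card0 p hp]
  congr 1
  ext r
  rw [mem_filter, mem_filter]
  simp only [ha, hb, true_and, false_and, or_false]

lemma nu_right (a b : ℕ) (h : ℤ) (p : ℕ) (hp : p.Prime) (ha : ¬ p ≤ a) (hb : p ≤ b) : nu a b h p = 1 := by
  unfold nu
  rw [← card1 p hp h]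
  congr 1
  ext r
  rw [mem_filter, mem_filter]
  simp only [ha, hb, true_and, false_and, false_or]

lemma nu_none (a b : ℕ) (h : ℤ) (p : ℕ) (ha : ¬ p ≤ a) (hb : ¬ p ≤ b) : nu a b h p = 0 := by
  unfold nu
  rw [card_eq_zero]
  ext r
  rw [mem_filter]
  simp only [ha, hb, false_and, or_self, and_false, notMem_empty]

lemma nu_le (a b : ℕ) (h : ℤ) (p : ℕ) (hp : p.Prime) : nu a b h p ≤ 2 := by
  by_cases ha : p ≤ a
  · by_cases hb : p ≤ b
    · rw [nu_both a b h p hp ha hb]; split_ifs <;> norm_num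
    · rw [nu_left a b h p hp ha hb]; norm_num
  · by_cases hb : p ≤ b
    · rw [nu_right a b h p hp ha hb]; norm_num
    · rw [nu_none a b h p ha hb]; norm_num

open Classical in
theorem pair_fl : ∃ C1 y0 : ℕ, 1 ≤ C1 ∧ 2 ≤ y0 ∧ ∀ b : ℕ, C1 ≤ b → ∀ z : ℕ, y0 ≤ z → ∀ a' b' : ℕ, a' ≤ z → b' ≤ z →
    ∀ (N : ℕ) (h : ℤ), |(NN a' b' N h : ℝ) - N * ∏ p ∈ pz z, (1 - (nu a' b' h p : ℝ) / p)| ≤
      (1 / 2 : ℝ) ^ b * (N * ∏ p ∈ pz z, (1 - (nu a' b' h p : ℝ) / p)) + (z : ℝ) ^ (C1 * b) := by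
  obtain ⟨C0, K0, hC0, hK0, hfl⟩ := fl_set 2
  refine ⟨4 * C0 + 7, K0 + 3, by omega, by omega, fun b hb z hz a' b' ha' hb' N h => ?_⟩
  have hz1 : (1 : ℝ) ≤ z := by exact_mod_cast (by omega : 1 ≤ z)
  have h1 := hfl b (by omega) z (by omega) N (pz z) (fun p r => RR a' b' h p r) (by
    intro p hp
    have hp' := mem_pz.1 hp
    refine ⟨hp'.2, hp'.1, ?_⟩
    have := nu_le a' b' h p hp'.2
    unfold nu at this
    unfold RR
    convert this)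
  have hmod : ∀ (n p : ℕ) (c : ℤ), ((p : ℤ) ∣ ((n % p : ℕ) : ℤ) + c) ↔ ((p : ℤ) ∣ (n : ℤ) + c) := by
    intro n p c
    have h3 : ((n % p : ℕ) : ℤ) + c ≡ (n : ℤ) + c [ZMOD p] := by
      apply Int.ModEq.add_right
      rw [Int.natCast_mod]
      exact Int.mod_modEq _ _
    rw [Int.dvd_iff_emod_eq_zero, Int.dvd_iff_emod_eq_zero, h3]
  have hmod0 : ∀ (n p : ℕ), ((p : ℤ) ∣ ((n % p : ℕ) : ℤ)) ↔ ((p : ℤ) ∣ (n : ℤ)) := by
    intro n p
    have := hmod n p 0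
    simpa using this
  have hset : ((Icc 1 N).filter (fun v : ℕ => (∀ p ∈ pz a', ¬ (p : ℤ) ∣ (v : ℤ)) ∧ (∀ p ∈ pz b', ¬ (p : ℤ) ∣ (v : ℤ) + h))) =
      ((Icc 1 N).filter (fun n : ℕ => ∀ p ∈ pz z, ¬ RR a' b' h p (n % p))) := by
    apply filter_congr
    intro n _
    unfold RR
    constructor
    · rintro ⟨h2, h3⟩ p hp (⟨h4, h5⟩ | ⟨h4, h5⟩)
      · exact h2 p (mem_pz.2 ⟨h4, (mem_pz.1 hp).2⟩) ((hmod0 n p).1 h5)
      · exact h3 p (mem_pz.2 ⟨h4, (mem_pz.1 hp).2⟩) ((hmod n p h).1 h5)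
    · intro h2
      constructor
      · intro p hp h3
        have hp' := mem_pz.1 hp
        exact h2 p (mem_pz.2 ⟨by omega, hp'.2⟩) (Or.inl ⟨hp'.1, (hmod0 n p).2 h3⟩)
      · intro p hp h3
        have hp' := mem_pz.1 hp
        exact h2 p (mem_pz.2 ⟨by omega, hp'.2⟩) (Or.inr ⟨hp'.1, (hmod n p h).2 h3⟩)
  have hN : NN a' b' N h = #((Icc 1 N).filter (fun n : ℕ => ∀ p ∈ pz z, ¬ RR a' b' h p (n % p))) := by
    unfold NN
    rw [← hset]
  rw [hN]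
  have h2 : |(((Icc 1 N).filter (fun n : ℕ => ∀ p ∈ pz z, ¬ RR a' b' h p (n % p))).card : ℝ) -
        N * ∏ p ∈ pz z, (1 - (nu a' b' h p : ℝ) / p)| ≤
      (1 / 2 : ℝ) ^ b * (N * ∏ p ∈ pz z, (1 - (nu a' b' h p : ℝ) / p)) +
        ((JJ z : ℝ) + 2) * ((z : ℝ) ^ (2 * (C0 * b)) * (K0 * (z : ℝ) ^ (2 * (C0 * b)))) := by
    unfold nu
    unfold RR at h1 ⊢
    convert h1 using 6 <;> congr!
  refine h2.trans ?_
  have hJ : ((JJ z : ℝ) + 2) ≤ z * z := by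
    have h3 : ((JJ z : ℝ) + 2) ≤ 2 * z := by exact_mod_cast JJ_small z (by omega)
    have hy2 : (2 : ℝ) ≤ z := by exact_mod_cast (by omega : 2 ≤ z)
    nlinarith
  have hK0 : (K0 : ℝ) ≤ z := by exact_mod_cast (by omega : K0 ≤ z)
  have h3 : ((JJ z : ℝ) + 2) * ((z : ℝ) ^ (2 * (C0 * b)) * (K0 * (z : ℝ) ^ (2 * (C0 * b)))) ≤
      (z : ℝ) ^ ((4 * C0 + 7) * b) := by
    calc ((JJ z : ℝ) + 2) * ((z : ℝ) ^ (2 * (C0 * b)) * (K0 * (z : ℝ) ^ (2 * (C0 * b))))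
        ≤ (z * z) * ((z : ℝ) ^ (2 * (C0 * b)) * (z * (z : ℝ) ^ (2 * (C0 * b)))) := by gcongr
      _ = (z : ℝ) ^ (4 * (C0 * b) + 3) := by
          rw [show 4 * (C0 * b) + 3 = 2 * (C0 * b) + 2 * (C0 * b) + 1 + 1 + 1 by ring]
          simp only [pow_succ, pow_add]
          ring
      _ ≤ _ := by
          apply pow_le_pow_right₀ hz1
          have : 1 ≤ b := by omega
          nlinarith
  linarith

/-! ### the local factors -/

lemma fac_ne {p : ℕ} (hp : p.Prime) : (1 : ℝ) - 1 / (p : ℝ) ≠ 0 := (fac_pos hp).ne'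

/-- the local factor of a pair -/
noncomputable def ell (h : ℤ) (p : ℕ) : ℝ := (1 - (if (p : ℤ) ∣ h then (1 : ℝ) else 2) / p) * ((1 - 1 / (p : ℝ))⁻¹) ^ 2

lemma ell_nonneg (h : ℤ) {p : ℕ} (hp : p.Prime) : 0 ≤ ell h p := by
  unfold ell
  have h2 : (2 : ℝ) ≤ p := by exact_mod_cast hp.two_le
  apply mul_nonneg _ (sq_nonneg _)
  rw [sub_nonneg, div_le_one (by linarith)]
  split_ifs <;> linarith

lemma ell_le (h : ℤ) {p : ℕ} (hp : p.Prime) : ell h p ≤ if (p : ℤ) ∣ h then (1 - 1 / (p : ℝ))⁻¹ else 1 := by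
  have h2 : (2 : ℝ) ≤ p := by exact_mod_cast hp.two_le
  have hf := fac_pos hp
  unfold ell
  split_ifs with hd
  · rw [sq, ← mul_assoc, mul_inv_cancel₀ hf.ne', one_mul]
  · rw [inv_pow, ← div_eq_mul_inv, div_le_one (by positivity)]
    have : (1 - 1 / (p : ℝ)) ^ 2 = 1 - 2 / p + (1 / p) ^ 2 := by ring
    rw [this]
    have : 0 ≤ (1 / (p : ℝ)) ^ 2 := by positivity
    linarith

lemma Vz_part (a z : ℕ) (haz : a ≤ z) : (Vz a)⁻¹ = ∏ p ∈ pz z, (if p ≤ a then (1 - 1 / (p : ℝ))⁻¹ else 1) := by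
  unfold Vz
  rw [← prod_inv_distrib, ← prod_filter]
  apply prod_congr _ fun _ _ => rfl
  ext p
  rw [mem_filter, mem_pz, mem_pz]
  constructor
  · rintro ⟨h1, h2⟩; exact ⟨⟨by omega, h2⟩, h1⟩
  · rintro ⟨⟨_, h2⟩, h1⟩; exact ⟨h1, h2⟩

/-- the normalised density -/
lemma dens (a b z : ℕ) (ha : a ≤ z) (hb : b ≤ z) (h : ℤ) :
    (Vz a)⁻¹ * (Vz b)⁻¹ * ∏ p ∈ pz z, (1 - (nu a b h p : ℝ) / p) =
      ∏ p ∈ pz z, (if p ≤ a ∧ p ≤ b then ell h p else 1) := by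
  rw [Vz_part a z ha, Vz_part b z hb, ← prod_mul_distrib, ← prod_mul_distrib]
  apply prod_congr rfl
  intro p hp
  have hpp := (mem_pz.1 hp).2
  have hf := fac_ne hpp
  by_cases h1 : p ≤ a
  · by_cases h2 : p ≤ b
    · rw [if_pos h1, if_pos h2, if_pos ⟨h1, h2⟩, nu_both a b h p hpp h1 h2]
      unfold ell
      split_ifs <;> push_cast <;> ring
    · rw [if_pos h1, if_neg h2, if_neg (fun h => h2 h.2), nu_left a b h p hpp h1 h2]
      push_cast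
      rw [mul_one, inv_mul_cancel₀ hf]
  · by_cases h2 : p ≤ b
    · rw [if_neg h1, if_pos h2, if_neg (fun h => h1 h.1), nu_right a b h p hpp h1 h2]
      push_cast
      rw [one_mul, inv_mul_cancel₀ hf]
    · rw [if_neg h1, if_neg h2, if_neg (fun h => h1 h.1), nu_none a b h p h1 h2]
      simp

/-- the factor of the small primes -/
noncomputable def g0 (w z : ℕ) (h : ℤ) : ℝ := ∏ p ∈ (pz z).filter (fun p => p ≤ w), ell h p

/-- the factor of the large primes -/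
noncomputable def g1 (w z : ℕ) (h : ℤ) : ℝ := ∏ p ∈ (pz z).filter (fun p => ¬ p ≤ w), ell h p

lemma dens_zz (w z : ℕ) (h : ℤ) :
    (Vz z)⁻¹ * (Vz z)⁻¹ * ∏ p ∈ pz z, (1 - (nu z z h p : ℝ) / p) = g0 w z h * g1 w z h := by
  rw [dens z z z le_rfl le_rfl]
  unfold g0 g1
  rw [prod_filter_mul_prod_filter_not]
  apply prod_congr rfl
  intro p hp
  rw [if_pos ⟨(mem_pz.1 hp).1, (mem_pz.1 hp).1⟩]

lemma dens_w (a b w z : ℕ) (ha : a ≤ z) (hb : b ≤ z) (h : ℤ) (hab : ∀ p, p ≤ z → ((p ≤ a ∧ p ≤ b) ↔ p ≤ w)) :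
    (Vz a)⁻¹ * (Vz b)⁻¹ * ∏ p ∈ pz z, (1 - (nu a b h p : ℝ) / p) = g0 w z h := by
  rw [dens a b z ha hb]
  unfold g0
  rw [prod_filter]
  apply prod_congr rfl
  intro p hp
  have := hab p (mem_pz.1 hp).1
  by_cases hc : p ≤ w
  · rw [if_pos (this.2 hc), if_pos hc]
  · rw [if_neg (fun h => hc (this.1 h)), if_neg hc]

lemma g0_nonneg (w z : ℕ) (h : ℤ) : 0 ≤ g0 w z h :=
  prod_nonneg fun p hp => ell_nonneg h (mem_pz.1 (mem_filter.1 hp).1).2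

lemma g1_nonneg (w z : ℕ) (h : ℤ) : 0 ≤ g1 w z h :=
  prod_nonneg fun p hp => ell_nonneg h (mem_pz.1 (mem_filter.1 hp).1).2

lemma prod_ell_le (T : Finset ℕ) (hT : ∀ p ∈ T, p.Prime) (h : ℤ) :
    ∏ p ∈ T, ell h p ≤ ∏ p ∈ T.filter (fun p : ℕ => (p : ℤ) ∣ h), (1 - 1 / (p : ℝ))⁻¹ := by
  rw [prod_filter]
  exact Finset.prod_le_prod (fun p hp => ell_nonneg h (hT p hp)) fun p hp => ell_le h (hT p hp)

lemma g0_le (w z : ℕ) (h : ℤ) : g0 w z h ≤ (Vz z)⁻¹ := by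
  refine (prod_ell_le _ (fun p hp => (mem_pz.1 (mem_filter.1 hp).1).2) h).trans ?_
  apply prod_fac_le
  intro p hp
  exact (mem_filter.1 (mem_filter.1 hp).1).1

lemma g01_le (w z : ℕ) (h : ℤ) : g0 w z h * g1 w z h ≤ (Vz z)⁻¹ := by
  unfold g0 g1
  rw [prod_filter_mul_prod_filter_not]
  refine (prod_ell_le _ (fun p hp => (mem_pz.1 hp).2) h).trans ?_
  apply prod_fac_le
  intro p hp
  exact (mem_filter.1 hp).1

/-- a product minus one -/
lemma prod_sub_one (T : Finset ℕ) (a : ℕ → ℝ) (ha : ∀ p ∈ T, 1 ≤ a p) :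
    ∏ p ∈ T, a p - 1 ≤ (∏ p ∈ T, a p) * ∑ p ∈ T, (a p - 1) := by
  classical
  induction T using Finset.induction_on with
  | empty => simp
  | insert p T hp ih =>
    rw [prod_insert hp, sum_insert hp]
    have h1 := ih fun q hq => ha q (mem_insert_of_mem hq)
    have h2 := ha p (mem_insert_self _ _)
    have h3 : 1 ≤ ∏ q ∈ T, a q := by
      calc (1 : ℝ) = ∏ _q ∈ T, (1 : ℝ) := by simp
        _ ≤ ∏ q ∈ T, a q := Finset.prod_le_prod (fun _ _ => by norm_num) fun q hq => ha q (mem_insert_of_mem hq)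
    have h4 : 0 ≤ ∑ q ∈ T, (a q - 1) := sum_nonneg fun q hq => by
      have := ha q (mem_insert_of_mem hq)
      linarith
    generalize ∏ q ∈ T, a q = P at *
    generalize ∑ q ∈ T, (a q - 1) = W at *
    generalize a p = x at *
    have h5 : x * P - 1 = (P - 1) + (x - 1) * P := by ring
    have h6 : x * P * ((x - 1) + W) = x * (P * W) + (x * ((x - 1) * P)) := by ring
    rw [h5, h6]
    have h7 : 0 ≤ P * W := by positivity
    have h8 : P * W ≤ x * (P * W) := le_mul_of_one_le_left h7 h2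
    have h9 : (x - 1) * P ≤ x * ((x - 1) * P) := le_mul_of_one_le_left (by
      apply mul_nonneg <;> linarith) h2
    linarith

/-- the sum over the large primes dividing `h` -/
noncomputable def sig (w z : ℕ) (h : ℤ) : ℝ := ∑ p ∈ (pz z).filter (fun p : ℕ => w < p ∧ (p : ℤ) ∣ h), 1 / (p : ℝ)

lemma sig_nonneg (w z : ℕ) (h : ℤ) : 0 ≤ sig w z h := sum_nonneg fun _ _ => by positivity

lemma g1_sub (w z : ℕ) (h : ℤ) : g1 w z h - 1 ≤ (Vz z)⁻¹ * (2 * sig w z h) := by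
  have h1 := prod_ell_le ((pz z).filter (fun p => ¬ p ≤ w)) (fun p hp => (mem_pz.1 (mem_filter.1 hp).1).2) h
  have e : ((pz z).filter (fun p => ¬ p ≤ w)).filter (fun p : ℕ => (p : ℤ) ∣ h) =
      (pz z).filter (fun p : ℕ => w < p ∧ (p : ℤ) ∣ h) := by
    rw [filter_filter]
    apply filter_congr
    intro p _
    rw [not_le]
  rw [e] at h1
  have h2 := prod_sub_one ((pz z).filter (fun p : ℕ => w < p ∧ (p : ℤ) ∣ h)) (fun p => (1 - 1 / (p : ℝ))⁻¹)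
    (fun p hp => fac_inv (mem_pz.1 (mem_filter.1 hp).1).2)
  have h3 : ∏ p ∈ (pz z).filter (fun p : ℕ => w < p ∧ (p : ℤ) ∣ h), (1 - 1 / (p : ℝ))⁻¹ ≤ (Vz z)⁻¹ :=
    prod_fac_le z _ (filter_subset _ _)
  have h4 : ∑ p ∈ (pz z).filter (fun p : ℕ => w < p ∧ (p : ℤ) ∣ h), ((1 - 1 / (p : ℝ))⁻¹ - 1) ≤ 2 * sig w z h := by
    unfold sig
    rw [mul_sum]
    refine sum_le_sum fun p hp => ?_
    have hp2 : (2 : ℝ) ≤ p := by exact_mod_cast (mem_pz.1 (mem_filter.1 hp).1).2.two_le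
    have h5 : (1 - 1 / (p : ℝ))⁻¹ ≤ 2 * (1 / p) + 1 := by
      rw [inv_le_iff_one_le_mul₀ (by rw [sub_pos, div_lt_one (by linarith)]; linarith)]
      have h7 : 0 < 1 / (p : ℝ) := by positivity
      have h8 : 1 / (p : ℝ) ≤ 1 / 2 := one_div_le_one_div_of_le (by norm_num) hp2
      nlinarith
    linarith
  have h5 : 0 ≤ ∑ p ∈ (pz z).filter (fun p : ℕ => w < p ∧ (p : ℤ) ∣ h), ((1 - 1 / (p : ℝ))⁻¹ - 1) :=
    sum_nonneg fun p hp => by
      have := fac_inv (mem_pz.1 (mem_filter.1 hp).1).2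
      linarith
  have hV : 0 ≤ (Vz z)⁻¹ := (inv_pos.2 (Vz_pos z)).le
  have h6 := mul_le_mul h3 h4 h5 hV
  unfold g1
  linarith

end Pool.Agent.TH892.OP
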