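import Pool.Agent.TH892.OP.C9

/-!
One shift.
-/

set_option autoImplicit false

namespace Pool.Agent.TH892.OP

open Finset Filter Polynomial
open Pool.Agent.H373R2.T7 (pz Vz lamz mem_pz Vz_ge Vz_inv_le Vz_le_one)
open Pool.Agent.TH892.SW (ff wt wt_nonneg wt_anti wt_le)
open Pool.Agent.TH204.WR (TT TT_zero TT_diff TT_diff_le Gap gap_card gap_mono window_TT vN ff_eq rho hh)
open Pool.Agent.TH892.OW (fz lz)

lemma one_t (P : ℤ[X]) (t : ℤ) (w z N0 M g : ℕ) (σ : ℤ) (hσ : σ = 1 ∨ σ = -1) (hg : 1 ≤ g)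
    (hG : Gap (fun n => P.eval (n : ℤ)) σ N0 g) (hN0 : 1 ≤ N0) (l R H δ0 ε lam e T0 κ : ℝ) (B1 b C1 : ℕ)
    (hl : 10000 ≤ l) (hR : 1 ≤ R) (hε : 0 < ε) (hε1 : ε ≤ 1 / 8) (hδ0 : 0 < δ0) (hδH : δ0 ≤ H) (hlam : 1 / l ≤ lam)
    (he : 1 ≤ e) (hgR : R ≤ e * g) (hT0 : 1 ≤ T0) (hκ : 0 < κ) (hlε : 6 / ε ≤ √l) (hlT : T0 ≤ l) (hlκ : 2 * κ ≤ l)
    (hB1 : 1 ≤ B1) (hb : 2 * (1 / 2 : ℝ) ^ b ≤ ε) (hwb : (w : ℝ) ^ (C1 * b) ≤ √l)
    (hmod : ∀ a n : ℕ, a ≤ n → |∑ i ∈ Ioc a n, (lamz w (vN P t i) - H)| ≤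
      2 * (1 / 2 : ℝ) ^ b * H * ((n : ℝ) - a) + 3 * (w : ℝ) ^ (C1 * b) * H)
    (hval : ∀ n ∈ Icc N0 M, 0 < P.eval (n : ℤ) + t → ((P.eval (n : ℤ) + t : ℤ) : ℝ) ≤ R * l ^ (B1 + 1) →
      2 ≤ P.eval (n : ℤ) + t ∧ |wt (vN P t n) - lam| ≤ ε * lam)
    (hgrid : ∀ j : ℕ, (gh R T0 l ε j : ℝ) ≤ R * l ^ (B1 + 1) →
      |TT (fun n => P.eval (n : ℤ)) N0 M (gh R T0 l ε j) (ff z) t| ≤ (ε * δ0) * ((gh R T0 l ε j : ℝ) / R / l) ∧
      |TT (fun n => P.eval (n : ℤ)) N0 M (gh R T0 l ε j) (fz w z) t| ≤ (ε * δ0) * ((gh R T0 l ε j : ℝ) / R))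
    (n1 n2 : ℕ) (h01 : N0 ≤ n1) (h12 : n1 ≤ n2) (h2M : n2 ≤ M) (Hn : ℝ) (hHn : Hn = (n2 : ℝ) - n1 + 1)
    (hH1 : Hn ≤ l ^ B1) (hTH : T0 / ε * l ≤ Hn)
    (hv : ∀ i ∈ Icc n1 n2, 2 ≤ P.eval (i : ℤ) + t ∧ ((P.eval (i : ℤ) + t : ℤ) : ℝ) ≤ κ * (Hn * R)) :
    |(#((Icc n1 n2).filter (fun i => (vN P t i).Prime)) : ℝ) - H * ∑ i ∈ Icc n1 n2, wt (vN P t i)| ≤
      (80 * e * (κ + 1) * ε) * (H * ∑ i ∈ Icc n1 n2, wt (vN P t i)) := by
  have hl0 : 0 < l := by linarith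
  have hl1 : 1 ≤ l := by linarith
  have hR0 : 0 < R := by linarith
  have hH : 0 < H := by linarith
  have hlam0 : 0 < lam := lt_of_lt_of_le (by positivity) hlam
  have he0 : 0 < e := by linarith
  obtain ⟨q, hq⟩ : ∃ q, q = lam * H := ⟨_, rfl⟩
  have hq0 : 0 < q := by rw [hq]; positivity
  have hsl : √l * √l = l := Real.mul_self_sqrt hl0.le
  have hsl0 : 0 < √l := Real.sqrt_pos.2 hl0
  have hεs : 6 * √l ≤ ε * l := by
    rw [div_le_iff₀ hε] at hlε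
    calc 6 * √l ≤ (√l * ε) * √l := mul_le_mul_of_nonneg_right hlε hsl0.le
      _ = ε * (√l * √l) := by ring
      _ = ε * l := by rw [hsl]
  have hεl : 1 ≤ ε * l := by
    have h1 : 1 ≤ √l := by
      apply Real.le_sqrt_of_sq_le
      linarith
    linarith
  -- heights
  have hbig : ∀ j : ℕ, l / 2 ≤ (gh R T0 l ε j : ℝ) / R := by
    intro j
    have hp1 : 1 ≤ (1 + ε) ^ j := one_le_pow₀ (by linarith)
    have h3 : R * (T0 * l * (1 + ε) ^ j) < gh R T0 l ε j + 1 := Nat.lt_floor_add_one _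
    have h4 : 1 * l * 1 ≤ T0 * l * (1 + ε) ^ j := by gcongr
    have h5 : R * l ≤ R * (T0 * l * (1 + ε) ^ j) := mul_le_mul_of_nonneg_left (by linarith) hR0.le
    rw [le_div_iff₀ hR0]
    have h6 : R * 2 ≤ R * l := mul_le_mul_of_nonneg_left (by linarith) hR0.le
    linarith
  have hs : ∀ j : ℕ, (gh R T0 l ε j : ℝ) ≤ R * l ^ (B1 + 1) →
      |TT (fun n => P.eval (n : ℤ)) N0 M (gh R T0 l ε j) ip t - q * TT (fun n => P.eval (n : ℤ)) N0 M (gh R T0 l ε j) (fun _ => 1) t| ≤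
        8 * e * ε * (q * ((gh R T0 l ε j : ℝ) / R)) := by
    intro j hj
    obtain ⟨g1, g2⟩ := hgrid j hj
    have h1 := hbig j
    rw [hq]
    refine one_height P t w z N0 M (gh R T0 l ε j) g σ hσ hg hG hN0 l R H δ0 ε lam e b C1 hl0 hR0 hε (by linarith) hδ0.le hδH hH
      hlam he hgR (by linarith) ?_ hb hmod ?_ g1 g2
    · have h2 := mul_le_mul_of_nonneg_left h1 hε.le
      linarith
    · intro n hn hv0 hvY
      apply hval n hn hv0
      refine le_trans ?_ hj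
      exact_mod_cast hvY
  have hM : T0 * l ≤ l ^ (B1 + 1) := by
    calc T0 * l ≤ l * l := mul_le_mul_of_nonneg_right hlT hl0.le
      _ = l ^ 2 := by ring
      _ ≤ l ^ (B1 + 1) := pow_le_pow_right₀ hl1 (by omega)
  have hD : ∀ Y : ℕ, 2 * ((Y : ℝ) / R) ≤ l ^ (B1 + 1) →
      |TT (fun n => P.eval (n : ℤ)) N0 M Y (fun v => ip v - q) t| ≤ q * (e * (19 * ε * (Y / R) + 10 * (T0 * l))) := by
    intro Y hY
    have h1 := interpP (fun n => P.eval (n : ℤ)) σ hσ N0 M g hg hG t R T0 l q ε e (l ^ (B1 + 1)) hR hT0 (by linarith) hε hε1 hεl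
      hq0 he hgR hs hM Y hY
    have e1 : TT (fun n => P.eval (n : ℤ)) N0 M Y (fun v => ip v - q) t =
        TT (fun n => P.eval (n : ℤ)) N0 M Y ip t - q * TT (fun n => P.eval (n : ℤ)) N0 M Y (fun _ => 1) t := by
      rw [TT_eq, TT_eq, TT_eq, mul_sum, ← sum_sub_distrib]
      exact sum_congr rfl fun i _ => by ring
    rw [e1]
    exact h1
  -- the window
  have hHn0 : 0 < Hn := lt_of_lt_of_le (by positivity) hTH
  have hκl : 2 * (κ * Hn) ≤ l ^ (B1 + 1) := by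
    calc 2 * (κ * Hn) = (2 * κ) * Hn := by ring
      _ ≤ l * l ^ B1 := mul_le_mul hlκ hH1 hHn0.le hl0.le
      _ = _ := by ring
  have hvn1 := hv n1 (mem_Icc.2 ⟨le_rfl, h12⟩)
  have hvn2 := hv n2 (mem_Icc.2 ⟨h12, le_rfl⟩)
  obtain ⟨Ya, Yb, hab, hYb, hsum⟩ := window_TT (fun n => P.eval (n : ℤ)) σ hσ N0 g hg hG M (fun v => ip v - q) t n1 n2 h01 h12 h2M
    (by linarith [hvn1.1]) (by linarith [hvn2.1])
  have hYbV : (Yb : ℝ) / R ≤ κ * Hn := by
    rw [div_le_iff₀ hR0]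
    have h0 : κ * (Hn * R) = κ * Hn * R := by ring
    rcases hYb with h | h
    · have : (Yb : ℝ) = ((P.eval (n1 : ℤ) + t : ℤ) : ℝ) := by rw [← h]; simp
      rw [this]; linarith [hvn1.2]
    · have : (Yb : ℝ) = ((P.eval (n2 : ℤ) + t : ℤ) : ℝ) := by rw [← h]; simp
      rw [this]; linarith [hvn2.2]
  have hYaV : (Ya : ℝ) / R ≤ κ * Hn := by
    refine le_trans ?_ hYbV
    apply div_le_div_of_nonneg_right _ hR0.le
    exact_mod_cast hab
  have hone : ∀ Y : ℕ, (Y : ℝ) / R ≤ κ * Hn →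
      |TT (fun n => P.eval (n : ℤ)) N0 M Y (fun v => ip v - q) t| ≤ q * (e * (19 * ε * (κ * Hn) + 10 * (T0 * l))) := by
    intro Y hY
    refine (hD Y (by linarith)).trans ?_
    gcongr
  have hw1 : |∑ i ∈ Icc n1 n2, (ip (P.eval (i : ℤ) + t) - q)| ≤ 2 * (q * (e * (19 * ε * (κ * Hn) + 10 * (T0 * l)))) := by
    rw [hsum]
    refine (abs_sub _ _).trans ?_
    have h1 := hone Yb hYbV
    have h2 := hone Ya hYaV
    linarith
  have hcard : ((#(Icc n1 n2) : ℕ) : ℝ) = Hn := by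
    rw [Nat.card_Icc, Nat.cast_sub (by omega), hHn]
    push_cast; ring
  have hprime : ∑ i ∈ Icc n1 n2, ip (P.eval (i : ℤ) + t) = (#((Icc n1 n2).filter (fun i => (vN P t i).Prime)) : ℝ) := by
    rw [← sum_boole]
    refine sum_congr rfl fun i hi => ?_
    have h1 : (P.eval (i : ℤ) + t).toNat = vN P t i := by
      have := (hv i hi).1
      unfold vN
      omega
    unfold ip
    rw [h1]
  rw [sum_sub_distrib, sum_const, nsmul_eq_mul, hcard, hprime] at hw1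
  have hTl : T0 * l ≤ ε * Hn := by
    have h1 : T0 / ε * l = (T0 * l) / ε := by ring
    rw [h1, div_le_iff₀ hε] at hTH
    linarith
  have hw2 : |(#((Icc n1 n2).filter (fun i => (vN P t i).Prime)) : ℝ) - Hn * q| ≤ (e * ε * (38 * κ + 20)) * (q * Hn) := by
    refine hw1.trans ?_
    calc 2 * (q * (e * (19 * ε * (κ * Hn) + 10 * (T0 * l)))) ≤ 2 * (q * (e * (19 * ε * (κ * Hn) + 10 * (ε * Hn)))) := by gcongr
      _ = _ := by ring
  -- the weights
  have hS : |∑ i ∈ Icc n1 n2, wt (vN P t i) - lam * Hn| ≤ ε * (lam * Hn) := by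
    have e1 : ∑ i ∈ Icc n1 n2, wt (vN P t i) - lam * Hn = ∑ i ∈ Icc n1 n2, (wt (vN P t i) - lam) := by
      rw [sum_sub_distrib, sum_const, nsmul_eq_mul, hcard]; ring
    rw [e1]
    refine (abs_sum_le_sum_abs _ _).trans ?_
    calc ∑ i ∈ Icc n1 n2, |wt (vN P t i) - lam| ≤ ∑ _i ∈ Icc n1 n2, ε * lam := by
          refine sum_le_sum fun i hi => ?_
          have h1 := hv i hi
          rw [mem_Icc] at hi
          apply (hval i (mem_Icc.2 ⟨by omega, by omega⟩) (by linarith [h1.1]) _).2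
          refine h1.2.trans ?_
          calc κ * (Hn * R) = R * (κ * Hn) := by ring
            _ ≤ R * l ^ (B1 + 1) := mul_le_mul_of_nonneg_left (by
                have : 0 < κ * Hn := by positivity
                linarith) hR0.le
      _ = ε * (lam * Hn) := by rw [sum_const, nsmul_eq_mul, hcard]; ring
  generalize ∑ i ∈ Icc n1 n2, wt (vN P t i) = W at *
  generalize (#((Icc n1 n2).filter (fun i => (vN P t i).Prime)) : ℝ) = Cn at *
  clear hw1 hone hD hs hbig hgrid hval hmod hv hsum hprime hcard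
  have hqH : 0 < q * Hn := by positivity
  have hWH : |H * W - q * Hn| ≤ ε * (q * Hn) := by
    have e1 : H * W - q * Hn = H * (W - lam * Hn) := by rw [hq]; ring
    rw [e1, abs_mul, abs_of_pos hH]
    calc H * |W - lam * Hn| ≤ H * (ε * (lam * Hn)) := mul_le_mul_of_nonneg_left hS hH.le
      _ = _ := by rw [hq]; ring
  have h1 := abs_le.1 hWH
  have h2 : q * Hn ≤ 2 * (H * W) := by
    have : ε * (q * Hn) ≤ 1 / 2 * (q * Hn) := mul_le_mul_of_nonneg_right (by linarith) hqH.le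
    linarith [h1.1]
  have h3 : |Cn - H * W| ≤ |Cn - Hn * q| + |q * Hn - H * W| := by
    have := abs_sub_le Cn (Hn * q) (H * W)
    rwa [mul_comm q Hn]
  rw [abs_sub_comm (q * Hn)] at h3
  have h4 : ε * (q * Hn) ≤ e * ε * (q * Hn) := by
    have : 1 * (ε * (q * Hn)) ≤ e * (ε * (q * Hn)) := mul_le_mul_of_nonneg_right he (by positivity)
    linarith
  calc |Cn - H * W| ≤ (e * ε * (38 * κ + 20)) * (q * Hn) + e * ε * (q * Hn) := by linarith
    _ = (e * ε * (38 * κ + 21)) * (q * Hn) := by ring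
    _ ≤ (e * ε * (38 * κ + 21)) * (2 * (H * W)) := mul_le_mul_of_nonneg_left h2 (by positivity)
    _ = (e * ε * (76 * κ + 42)) * (H * W) := by ring
    _ ≤ (80 * e * (κ + 1) * ε) * (H * W) := by
        apply mul_le_mul_of_nonneg_right _ (by linarith)
        have : 0 < e * ε * κ := by positivity
        have : 0 < e * ε := by positivity
        nlinarith

/-- the weight of a number of size about `R` -/
lemma wt_arP (l m ε R lR v : ℝ) (B n : ℕ) (hn : (n : ℝ) = v) (hl : 10000 ≤ l) (hm : m = Real.log l) (hm1 : 1 ≤ m)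
    (hml : 4 * (B + 2) * m ≤ ε * l) (hml2 : 8 * m ≤ l) (hR : 0 < R) (hlR : Real.log R = lR) (hlR1 : l / 2 ≤ lR)
    (h1 : R / l ≤ v) (h2 : v ≤ R * l ^ (B + 1)) :
    |wt n - 1 / lR| ≤ ε * (1 / lR) := by
  have hl0 : 0 < l := by linarith
  have hv0 : 0 < v := lt_of_lt_of_le (by positivity) h1
  have a1 : lR - m ≤ Real.log v := by
    have := Real.log_le_log (by positivity) h1
    rw [Real.log_div hR.ne' hl0.ne', hlR, ← hm] at this
    exact this
  have a2 : Real.log v ≤ lR + (B + 1) * m := by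
    have := Real.log_le_log hv0 h2
    rw [Real.log_mul hR.ne' (by positivity), Real.log_pow, hlR, ← hm] at this
    push_cast at this
    exact this
  have hq : 0 < Real.log v := by linarith
  have hlR0 : 0 < lR := by linarith
  unfold wt
  rw [hn]
  have e1 : 1 / Real.log v - 1 / lR = (lR - Real.log v) / (lR * Real.log v) := by
    field_simp
  rw [e1, abs_div, abs_of_pos (mul_pos hlR0 hq), div_le_iff₀ (mul_pos hlR0 hq)]
  have e2 : ε * (1 / lR) * (lR * Real.log v) = ε * Real.log v := by field_simp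
  rw [e2]
  have hB0 : (0 : ℝ) ≤ B := Nat.cast_nonneg _
  have hBm : 0 ≤ (B : ℝ) * m := by positivity
  have hε : 0 < ε := by
    have h3 : 0 < ε * l := lt_of_lt_of_le (by positivity) hml
    exact pos_of_mul_pos_left h3 hl0.le
  have h3 : |lR - Real.log v| ≤ (B + 1) * m := by
    rw [abs_le]
    constructor
    · linarith
    · nlinarith
  have h4 : l / 4 ≤ Real.log v := by linarith
  have h5 : ε * (l / 4) ≤ ε * Real.log v := mul_le_mul_of_nonneg_left h4 hε.le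
  nlinarith

/-- reflection -/
lemma hh_negX (F : ℤ[X]) (t : ℤ) (z : ℕ) : hh (F.comp (-X)) t z = hh F t z := by
  unfold hh
  congr 1
  refine prod_congr rfl fun p hp => ?_
  rw [Pool.Agent.TH204.WR.rho_neg F t p (mem_pz.1 hp).2]

/-- few shifts have a tiny value -/
lemma tiny (G : ℕ → ℤ) (N0 M x : ℕ) (r : ℝ) (hr : 0 ≤ r) :
    (#((Icc (-(x : ℤ)) x).filter (fun t : ℤ => ∃ n ∈ Icc N0 M, 0 < G n + t ∧ ((G n + t : ℤ) : ℝ) ≤ r)) : ℝ) ≤ (M + 1) * r := by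
  classical
  have hsub : (Icc (-(x : ℤ)) x).filter (fun t : ℤ => ∃ n ∈ Icc N0 M, 0 < G n + t ∧ ((G n + t : ℤ) : ℝ) ≤ r) ⊆
      (Icc N0 M).biUnion (fun n => (Icc (1 : ℤ) ⌊r⌋₊).image (fun v => v - G n)) := by
    intro t ht
    rw [mem_filter] at ht
    obtain ⟨-, n, hn, h1, h2⟩ := ht
    rw [mem_biUnion]
    refine ⟨n, hn, ?_⟩
    rw [mem_image]
    refine ⟨G n + t, ?_, by ring⟩
    rw [mem_Icc]
    refine ⟨by omega, ?_⟩
    obtain ⟨v, hv⟩ := Int.eq_ofNat_of_zero_le h1.le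
    rw [hv] at h2 ⊢
    exact_mod_cast Nat.le_floor (by exact_mod_cast h2)
  have h1 := (card_le_card hsub).trans card_biUnion_le
  have h2 : ∑ n ∈ Icc N0 M, #((Icc (1 : ℤ) ⌊r⌋₊).image (fun v => v - G n)) ≤ (M + 1) * ⌊r⌋₊ := by
    calc ∑ n ∈ Icc N0 M, #((Icc (1 : ℤ) ⌊r⌋₊).image (fun v => v - G n)) ≤ ∑ _n ∈ Icc N0 M, ⌊r⌋₊ := by
          refine sum_le_sum fun n _ => card_image_le.trans ?_
          rw [Int.card_Icc]
          omega
      _ = #(Icc N0 M) * ⌊r⌋₊ := by rw [sum_const, smul_eq_mul]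
      _ ≤ _ := by
          apply Nat.mul_le_mul_right
          rw [Nat.card_Icc]
          omega
  calc (#((Icc (-(x : ℤ)) x).filter (fun t : ℤ => ∃ n ∈ Icc N0 M, 0 < G n + t ∧ ((G n + t : ℤ) : ℝ) ≤ r)) : ℝ) ≤
        (((M + 1) * ⌊r⌋₊ : ℕ) : ℝ) := by exact_mod_cast h1.trans h2
    _ = ((M : ℝ) + 1) * (⌊r⌋₊ : ℝ) := by push_cast; rfl
    _ ≤ (M + 1) * r := mul_le_mul_of_nonneg_left (Nat.floor_le hr) (by positivity)

end Pool.Agent.TH892.OP
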