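import Pool.Agent.TH892.OP.C8
import Pool.Agent.TH892.OP.C10
import Pool.Agent.TH204.WR.W14

/-!
All windows of length between a large constant times `log x` and a power of `log x`, for almost all shifts.
-/

set_option autoImplicit false

namespace Pool.Agent.TH892.OP

open Finset Filter Polynomial
open Pool.Agent.H373R2.T7 (pz Vz lamz mem_pz Vz_ge Vz_inv_le Vz_le_one)
open Pool.Agent.TH892.SW (ff wt wt_nonneg wt_anti wt_le)
open Pool.Agent.TH204.WR (TT Gap vN rho rho_neg hh hh_nonneg growthZ part_pos part_neg small_shifts swap_const model rt rt_pow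
  evt_log_pow evt_log_ge)
open Pool.Agent.TH892.OW (fz lz evt_ll evt_ll_ge)

lemma hval_P (P : ℤ[X]) (t : ℤ) (N0 M B1 : ℕ) (R l m ε lR : ℝ) (hl : 10000 ≤ l) (hm : m = Real.log l) (hm1 : 1 ≤ m)
    (hml : 4 * (B1 + 2) * m ≤ ε * l) (hml2 : 8 * m ≤ l) (hR : 0 < R) (hlR : Real.log R = lR) (hlR1 : l / 2 ≤ lR)
    (hRl : 2 ≤ R / l)
    (htiny : ¬ ∃ n ∈ Icc N0 M, 0 < P.eval (n : ℤ) + t ∧ ((P.eval (n : ℤ) + t : ℤ) : ℝ) ≤ R / l) :
    ∀ n ∈ Icc N0 M, 0 < P.eval (n : ℤ) + t → ((P.eval (n : ℤ) + t : ℤ) : ℝ) ≤ R * l ^ (B1 + 1) →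
      2 ≤ P.eval (n : ℤ) + t ∧ |wt (vN P t n) - 1 / lR| ≤ ε * (1 / lR) := by
  intro n hn h0 hv
  have h1 : R / l < ((P.eval (n : ℤ) + t : ℤ) : ℝ) := by
    by_contra hc
    push Not at hc
    exact htiny ⟨n, hn, h0, hc⟩
  have h2 : (2 : ℝ) ≤ ((P.eval (n : ℤ) + t : ℤ) : ℝ) := by linarith
  have h3 : ((vN P t n : ℕ) : ℝ) = ((P.eval (n : ℤ) + t : ℤ) : ℝ) := by
    have h4 : ((vN P t n : ℕ) : ℤ) = P.eval (n : ℤ) + t := by unfold vN; omega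
    rw [← h4]; simp
  exact ⟨by exact_mod_cast h2, wt_arP l m ε R lR _ B1 _ h3 hl hm hm1 hml hml2 hR hlR hlR1 h1.le hv⟩

lemma size_m (k nP A : ℕ) (F : ℤ[X]) (hA : 1 ≤ A)
    (hgr1 : ∀ m : ℤ, (nP : ℤ) ≤ |m| → |m| ^ (k + 1) ≤ 2 * |F.eval m|)
    (hgr2 : ∀ m : ℤ, |F.eval m| ≤ A * (|m| ^ (k + 1) + 1)) (S X η1 η0 V : ℝ) (hS : S ^ (k + 1) = X) (hS1 : 1 ≤ S)
    (hη0 : η0 = η1 / (4 * A)) (hη1 : 0 < η1) (hη11 : η1 ≤ 1) (t : ℤ) (ht : |(t : ℝ)| ≤ X) (ht2 : η1 * X ≤ |(t : ℝ)|)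
    (hV : V ≤ η1 / 2 * X) (hX : 4 * A / η1 ≤ X) (hnS : (nP : ℝ) ≤ 4 * S) (m : ℤ) (h2 : 2 ≤ F.eval m + t)
    (hv : ((F.eval m + t : ℤ) : ℝ) ≤ V) : η0 * S ≤ ((|m| : ℤ) : ℝ) ∧ ((|m| : ℤ) : ℝ) ≤ 4 * S := by
  have hAr : (1 : ℝ) ≤ A := by exact_mod_cast hA
  have hA0 : (0 : ℝ) < A := by linarith
  have hX0 : 0 < X := by rw [← hS]; positivity
  have hη00 : 0 < η0 := by rw [hη0]; positivity
  have hη01 : η0 ≤ 1 := by
    rw [hη0, div_le_one (by positivity)]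
    linarith
  have h2r : (2 : ℝ) ≤ ((F.eval m + t : ℤ) : ℝ) := by exact_mod_cast h2
  have hFr : ((|F.eval m| : ℤ) : ℝ) = |((F.eval m : ℤ) : ℝ)| := Int.cast_abs
  have hFlo : η1 / 2 * X ≤ ((|F.eval m| : ℤ) : ℝ) := by
    rw [hFr]
    have h3 : |(t : ℝ)| ≤ |((F.eval m : ℤ) : ℝ)| + |((F.eval m + t : ℤ) : ℝ)| := by
      have e : (t : ℝ) = -((F.eval m : ℤ) : ℝ) + ((F.eval m + t : ℤ) : ℝ) := by push_cast; ring
      calc |(t : ℝ)| = |-((F.eval m : ℤ) : ℝ) + ((F.eval m + t : ℤ) : ℝ)| := by rw [← e]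
        _ ≤ |-((F.eval m : ℤ) : ℝ)| + |((F.eval m + t : ℤ) : ℝ)| := abs_add_le _ _
        _ = _ := by rw [abs_neg]
    rw [abs_of_pos (show (0 : ℝ) < ((F.eval m + t : ℤ) : ℝ) by linarith)] at h3
    linarith
  have hFhi : ((|F.eval m| : ℤ) : ℝ) ≤ X + V := by
    rw [hFr]
    have e : ((F.eval m : ℤ) : ℝ) = ((F.eval m + t : ℤ) : ℝ) - (t : ℝ) := by push_cast; ring
    rw [e]
    refine (abs_sub _ _).trans ?_
    rw [abs_of_pos (show (0 : ℝ) < ((F.eval m + t : ℤ) : ℝ) by linarith)]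
    linarith
  have hm0 : (0 : ℝ) ≤ ((|m| : ℤ) : ℝ) := by exact_mod_cast abs_nonneg m
  constructor
  · have h3 : ((|F.eval m| : ℤ) : ℝ) ≤ A * (((|m| : ℤ) : ℝ) ^ (k + 1) + 1) := by
      have := hgr2 m
      exact_mod_cast this
    have h4 : η0 * X ≤ ((|m| : ℤ) : ℝ) ^ (k + 1) := by
      have h5 : η1 / 2 * X ≤ A * (((|m| : ℤ) : ℝ) ^ (k + 1) + 1) := hFlo.trans h3
      have h6 : 1 ≤ η0 * X := by
        rw [hη0]
        rw [div_le_iff₀ hη1] at hX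
        rw [div_mul_eq_mul_div, le_div_iff₀ (by positivity)]
        linarith
      have h7 : η1 / 2 * X = A * (2 * (η0 * X)) := by rw [hη0]; field_simp; norm_num
      rw [h7] at h5
      have h8 := le_of_mul_le_mul_left h5 hA0
      linarith
    have h5 : (η0 * S) ^ (k + 1) ≤ ((|m| : ℤ) : ℝ) ^ (k + 1) := by
      refine le_trans ?_ h4
      rw [mul_pow, hS]
      apply mul_le_mul_of_nonneg_right _ hX0.le
      rw [pow_succ]
      exact mul_le_of_le_one_left hη00.le (pow_le_one₀ hη00.le hη01)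
    exact (pow_le_pow_iff_left₀ (by positivity) hm0 (by omega)).1 h5
  · by_cases hnm : (nP : ℤ) ≤ |m|
    · have h3 : ((|m| : ℤ) : ℝ) ^ (k + 1) ≤ 2 * ((|F.eval m| : ℤ) : ℝ) := by
        have := hgr1 m hnm
        exact_mod_cast this
      have h4 : ((|m| : ℤ) : ℝ) ^ (k + 1) ≤ (4 * S) ^ (k + 1) := by
        rw [mul_pow, hS]
        have h5 : (4 : ℝ) ≤ 4 ^ (k + 1) := le_self_pow₀ (by norm_num) (by omega)
        have h6 : V ≤ 1 / 2 * X := hV.trans (mul_le_mul_of_nonneg_right (by linarith) hX0.le)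
        nlinarith
      exact (pow_le_pow_iff_left₀ hm0 (by positivity) (by omega)).1 h4
    · push Not at hnm
      have : ((|m| : ℤ) : ℝ) ≤ nP := by exact_mod_cast hnm.le
      linarith

lemma win_pos (F : ℤ[X]) (φ : ℤ → ℝ) (a b : ℤ) (ha : 0 ≤ a) :
    ∑ m ∈ Ioc a b, φ (F.eval m) = ∑ n ∈ Icc (a + 1).toNat b.toNat, φ (F.eval (n : ℤ)) := by
  have h := part_pos F φ a b 1 le_rfl
  rw [filter_true_of_mem (by intro m hm; rw [mem_Ioc] at hm; push_cast; omega)] at h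
  rw [h]
  have e : max (a + 1) ((1 : ℕ) : ℤ) = a + 1 := by push_cast; omega
  rw [e]

lemma win_neg (F : ℤ[X]) (φ : ℤ → ℝ) (a b : ℤ) (hb : b ≤ -1) :
    ∑ m ∈ Ioc a b, φ (F.eval m) = ∑ n ∈ Icc (-b).toNat (-a - 1).toNat, φ ((F.comp (-X)).eval (n : ℤ)) := by
  have h := part_neg F φ a b 1 le_rfl
  rw [filter_true_of_mem (by intro m hm; rw [mem_Ioc] at hm; push_cast; omega)] at h
  rw [h]
  have e : max (-b) ((1 : ℕ) : ℤ) = -b := by push_cast; omega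
  rw [e]

theorem core3 (k : ℕ) (hk : 1 ≤ k) (F : ℤ[X]) (hF : F.natDegree = k + 1) (κ ε : ℝ) (hκ : 0 < κ) (hε : 0 < ε)
    (B1 : ℕ) (hB1 : 1 ≤ B1) :
    ∃ T : ℝ, 0 < T ∧ ∃ B X0 : ℕ, ∀ x : ℕ, X0 ≤ x → ∃ Bad : Finset ℤ, Bad ⊆ Icc (-(x : ℤ)) x ∧
    (#Bad : ℝ) ≤ ε * x ∧ ∀ t ∈ Icc (-(x : ℤ)) x, t ∉ Bad →
    (∀ p : ℕ, p.Prime → rho F t p < p) →
    ∀ z : ℕ, Real.log x ^ B ≤ z → z ^ 3 ≤ x → ∀ a₁ b₁ : ℤ, T * Real.log x ≤ (b₁ : ℝ) - a₁ →
      (b₁ : ℝ) - a₁ ≤ Real.log x ^ B1 →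
      (∀ m ∈ Ioc a₁ b₁, 2 ≤ F.eval m + t ∧ ((F.eval m + t : ℤ) : ℝ) ≤ κ * (((b₁ : ℝ) - a₁) * rt k x ^ k)) →
      |(#((Ioc a₁ b₁).filter (fun m => (F.eval m + t).natAbs.Prime)) : ℝ) -
        hh F t z * ∑ m ∈ Ioc a₁ b₁, wt (F.eval m + t).natAbs| ≤
        ε * (hh F t z * ∑ m ∈ Ioc a₁ b₁, wt (F.eval m + t).natAbs) := by
  classical
  have hF' : (F.comp (-X)).natDegree = k + 1 := by
    rw [natDegree_comp, natDegree_neg, natDegree_X, mul_one, hF]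
  obtain ⟨nP, A, hnP, hA, hgr1, hgr2, σ₁, σ₂, hσ₁, hσ₂, hgap⟩ := growthZ k hk F hF
  have hAr : (1 : ℝ) ≤ A := by exact_mod_cast hA
  have hA0 : (0 : ℝ) < A := by linarith
  obtain ⟨η1, hη1d⟩ : ∃ η1, η1 = min ε 1 / 24 := ⟨_, rfl⟩
  have hmin : 0 < min ε 1 := lt_min hε one_pos
  have hη1 : 0 < η1 := by rw [hη1d]; positivity
  have hη1ε : 24 * η1 ≤ ε := by rw [hη1d]; have := min_le_left ε 1; linarith
  have hη11 : η1 ≤ 1 := by rw [hη1d]; have := min_le_right ε 1; linarith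
  obtain ⟨η0, hη0d⟩ : ∃ η0, η0 = η1 / (4 * A) := ⟨_, rfl⟩
  have hη0 : 0 < η0 := by rw [hη0d]; positivity
  have hη01 : η0 ≤ 1 := by
    rw [hη0d, div_le_one (by positivity)]
    linarith
  obtain ⟨e, he⟩ : ∃ e : ℝ, e = (1 / η0) ^ k := ⟨_, rfl⟩
  have he1 : 1 ≤ e := by
    rw [he]
    apply one_le_pow₀
    rw [one_le_div hη0]; exact hη01
  obtain ⟨ε1, hε1d⟩ : ∃ ε1, ε1 = min (1 / 8) (ε / (200 * e * (κ + 1))) := ⟨_, rfl⟩
  have hε10 : 0 < ε1 := by rw [hε1d]; positivity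
  have hε11 : ε1 ≤ 1 / 8 := by rw [hε1d]; exact min_le_left _ _
  have hε12 : 200 * e * (κ + 1) * ε1 ≤ ε := by
    have h1 : ε1 ≤ ε / (200 * e * (κ + 1)) := by rw [hε1d]; exact min_le_right _ _
    rw [le_div_iff₀ (by positivity)] at h1
    linarith
  obtain ⟨δ0, hδ0, hgood⟩ := h_goodP F (by omega) (ε / 16) (by positivity)
  obtain ⟨Ea, hEa⟩ := hgood ε1 hε10
  obtain ⟨Ta, hTa, Eb, hEb⟩ := grid_badP k hk F hF η0 hη0 hη01 (B1 + 1) (ε1 * δ0) ε1 (ε / 16) (by positivity) hε10 (by positivity)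
  obtain ⟨Tb, hTb, Ec, hEc⟩ := grid_badP k hk (F.comp (-X)) hF' η0 hη0 hη01 (B1 + 1) (ε1 * δ0) ε1 (ε / 16) (by positivity) hε10
    (by positivity)
  obtain ⟨C1, y0, hC1, hy0, hmodel⟩ := model (k + 1) (by omega)
  obtain ⟨b0, hb0⟩ := exists_pow_lt_of_lt_one (show (0 : ℝ) < ε1 / 2 by positivity) (show (1 / 2 : ℝ) < 1 by norm_num)
  obtain ⟨b, hb⟩ : ∃ b, b = max b0 C1 := ⟨_, rfl⟩
  have hbε : 2 * (1 / 2 : ℝ) ^ b ≤ ε1 := by
    have h1 := (pow_le_pow_of_le_one (show (0 : ℝ) ≤ 1 / 2 by norm_num) (by norm_num) (show b0 ≤ b by omega)).trans hb0.le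
    linarith
  obtain ⟨u, hu⟩ : ∃ u, u = 2 * (C1 * b) := ⟨_, rfl⟩
  have hCb : 1 ≤ C1 * b := Nat.mul_pos (by omega) (by omega)
  have hu1 : 1 ≤ u := by omega
  have hur : (0 : ℝ) < u := by exact_mod_cast hu1
  obtain ⟨E, hE⟩ : ∃ E, E = max Ea (max Eb Ec) := ⟨_, rfl⟩
  obtain ⟨Xa, hXa⟩ := hEa E (by omega) u hu1
  obtain ⟨Xb, hXb⟩ := hEb E (by omega) u hu1
  obtain ⟨Xc, hXc⟩ := hEc E (by omega) u hu1
  obtain ⟨Cc, hCc⟩ : ∃ Cc : ℝ, Cc = 10000 + (6 / ε1) ^ 2 + Ta + Tb + 2 * κ + 2 * κ / η1 + nP / η0 + 4 * A / η1 + 96 / ε := ⟨_, rfl⟩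
  have hev : ∀ᶠ X : ℕ in atTop, Cc ≤ Real.log X ∧ (1 : ℝ) ≤ Real.log (Real.log X) ∧
      ((y0 + 1 : ℕ) : ℝ) * Real.log (Real.log X) ^ 0 ≤ Real.log X ^ (1 / (u : ℝ)) ∧
      (4 * (B1 + 2) / ε1 + 8) * Real.log (Real.log X) ^ 1 ≤ Real.log X ^ (1 : ℝ) ∧
      Real.log X ^ (B1 + 3) ≤ (X : ℝ) ^ ((1 : ℝ) / (k + 1)) := by
    filter_upwards [evt_log_ge Cc, evt_ll_ge 1,
      evt_ll 0 (1 / (u : ℝ)) ((y0 + 1 : ℕ) : ℝ) (by positivity), evt_ll 1 1 (4 * (B1 + 2) / ε1 + 8) one_pos,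
      evt_log_pow (B1 + 3) ((1 : ℝ) / (k + 1)) (by positivity)] with X a1 a2 a3 a4 a5
    exact ⟨a1, a2, a3, a4, a5⟩
  obtain ⟨Xd, hXd⟩ := eventually_atTop.1 hev
  refine ⟨max Ta Tb / ε1, by positivity, E, max (max Xa Xb) (max Xc (max Xd 1)), fun x hx => ?_⟩
  obtain ⟨Ba, hBa0, hBa1, hBa2⟩ := hXa x (le_trans (le_trans (le_max_left _ _) (le_max_left _ _)) hx)
  obtain ⟨Bb, hBb0, hBb1, hBb2⟩ := hXb x (le_trans (le_trans (le_max_right _ _) (le_max_left _ _)) hx)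
  obtain ⟨Bc, hBc0, hBc1, hBc2⟩ := hXc x (le_trans (le_trans (le_max_left _ _) (le_max_right _ _)) hx)
  obtain ⟨hlC, hm1, hlu, hml, hLS⟩ := hXd x (le_trans (le_trans (le_trans (le_max_left _ _) (le_max_right _ _)) (le_max_right _ _)) hx)
  have hx1 : 1 ≤ x := le_trans (le_trans (le_trans (le_max_right _ _) (le_max_right _ _)) (le_max_right _ _)) hx
  clear hXa hXb hXc hXd hev hx hEa hEb hEc hgood
  rw [pow_zero, mul_one] at hlu
  rw [Real.rpow_one, pow_one] at hml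
  have hSp := rt_pow k x
  have hSr : rt k x = (x : ℝ) ^ ((1 : ℝ) / (k + 1)) := rfl
  rw [← hSr] at hLS
  have hxr : (1 : ℝ) ≤ x := by exact_mod_cast hx1
  have hx0 : (0 : ℝ) < x := by linarith
  have hlogx : Real.log x = (k + 1) * Real.log (rt k x) := by
    rw [← hSp, Real.log_pow]
    push_cast; ring
  have hS1 : 1 ≤ rt k x := by
    rw [hSr]
    exact Real.one_le_rpow hxr (by positivity)
  clear hSr
  have hwb : ((⌊Real.log x ^ (1 / (u : ℝ))⌋₊ : ℕ) : ℝ) ^ (C1 * b) ≤ √(Real.log x) := by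
    have hl0 : 0 < Real.log x := by
      have : 0 ≤ (6 / ε1) ^ 2 + Ta + Tb + 2 * κ + 2 * κ / η1 + nP / η0 + 4 * A / η1 + 96 / ε := by positivity
      linarith
    have hwle : ((⌊Real.log x ^ (1 / (u : ℝ))⌋₊ : ℕ) : ℝ) ≤ Real.log x ^ (1 / (u : ℝ)) := Nat.floor_le (by positivity)
    calc ((⌊Real.log x ^ (1 / (u : ℝ))⌋₊ : ℕ) : ℝ) ^ (C1 * b) ≤ (Real.log x ^ (1 / (u : ℝ))) ^ (C1 * b) :=
          pow_le_pow_left₀ (Nat.cast_nonneg _) hwle _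
      _ = √(Real.log x) := by
          rw [← Real.rpow_natCast, ← Real.rpow_mul hl0.le, Real.sqrt_eq_rpow]
          congr 1
          rw [hu]
          push_cast
          have h1 : (C1 : ℝ) ≠ 0 := by exact_mod_cast (by omega : C1 ≠ 0)
          have h2 : (b : ℝ) ≠ 0 := by
            have : b ≠ 0 := by omega
            exact_mod_cast this
          field_simp
  obtain ⟨w, hw⟩ : ∃ w, w = ⌊Real.log x ^ (1 / (u : ℝ))⌋₊ := ⟨_, rfl⟩
  have hwy : y0 ≤ w := by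
    rw [hw]
    apply Nat.le_floor
    refine le_trans ?_ hlu
    exact_mod_cast Nat.le_succ y0
  rw [← hw] at hwb hBa2 hBb2 hBc2
  obtain ⟨y, hy⟩ : ∃ y, y = ⌊Real.log x ^ E⌋₊ := ⟨_, rfl⟩
  have hyz : ∀ z : ℕ, Real.log x ^ E ≤ z → y ≤ z := by
    intro z hz
    rw [hy]
    exact Nat.floor_le_of_le hz
  rw [← hy] at hBa2 hBb2 hBc2
  obtain ⟨N0, hN0⟩ : ∃ N0, N0 = ⌈η0 * rt k x⌉₊ := ⟨_, rfl⟩
  obtain ⟨M, hM⟩ : ∃ M, M = ⌈4 * rt k x⌉₊ := ⟨_, rfl⟩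
  rw [← hN0, ← hM] at hBb2 hBc2
  clear hlu hw hy
  generalize rt k x = S at *
  obtain ⟨l, hl⟩ : ∃ l, l = Real.log x := ⟨_, rfl⟩
  rw [← hl] at hlC hm1 hml hLS hlogx hBb2 hBc2 hwb hyz ⊢
  obtain ⟨m, hm⟩ : ∃ m, m = Real.log l := ⟨_, rfl⟩
  rw [← hm] at hm1 hml
  obtain ⟨R, hR⟩ : ∃ R, R = S ^ k := ⟨_, rfl⟩
  rw [← hR] at hBb2 hBc2 ⊢
  -- sizes
  have p1 : 0 ≤ (6 / ε1) ^ 2 := by positivity
  have p2 : 0 ≤ 2 * κ / η1 := by positivity
  have p3 : 0 ≤ (nP : ℝ) / η0 := by positivity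
  have p4 : 0 ≤ 4 * (A : ℝ) / η1 := by positivity
  have p5 : 0 ≤ 96 / ε := by positivity
  have q1 : 10000 ≤ l := by linarith
  have q2 : (6 / ε1) ^ 2 ≤ l := by linarith
  have q3 : Ta ≤ l := by linarith
  have q4 : Tb ≤ l := by linarith
  have q5 : 2 * κ ≤ l := by linarith
  have q6 : 2 * κ / η1 ≤ l := by linarith
  have q7 : (nP : ℝ) / η0 ≤ l := by linarith
  have q8 : 4 * (A : ℝ) / η1 ≤ l := by linarith
  have q9 : 96 / ε ≤ l := by linarith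
  clear hlC hCc p1 p2 p3 p4 p5
  have hl0 : 0 < l := by linarith
  have hl1 : 1 ≤ l := by linarith
  have hlp0 : ∀ n : ℕ, 0 < l ^ n := fun n => by positivity
  have hlp : ∀ n : ℕ, 1 ≤ l ^ n := fun n => one_le_pow₀ hl1
  have hLL : ∀ {i j : ℕ}, i ≤ j → l ^ i ≤ l ^ j := fun h => pow_le_pow_right₀ hl1 h
  have hS0 : 0 < S := by linarith
  have hlS : l ≤ S := by
    have := hLL (show 1 ≤ B1 + 3 by omega)
    rw [pow_one] at this
    linarith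
  have hR1 : 1 ≤ R := by rw [hR]; exact one_le_pow₀ hS1
  have hR0 : 0 < R := by linarith
  have hSR : S * R = x := by rw [← hSp, hR]; ring
  have hSleR : S ≤ R := by rw [hR]; exact le_self_pow₀ hS1 (by omega)
  have hSx : S ≤ x := by rw [← hSR]; exact le_mul_of_one_le_right hS0.le hR1
  have hkr : (1 : ℝ) ≤ k := by exact_mod_cast hk
  have hlS0 : 0 ≤ Real.log S := Real.log_nonneg hS1
  obtain ⟨lR, hlR⟩ : ∃ lR, lR = Real.log R := ⟨_, rfl⟩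
  have hlRk : lR = k * Real.log S := by rw [hlR, hR, Real.log_pow]
  have hlR1 : l / 2 ≤ lR := by
    rw [hlRk, hlogx]
    have h1 : 0 ≤ ((k : ℝ) - 1) * Real.log S := mul_nonneg (by linarith only [hkr]) hlS0
    linarith only [h1]
  have hlR2 : lR ≤ l := by
    rw [hlRk, hlogx]
    linarith only [hlS0]
  have hlR0 : 0 < lR := by linarith
  have hlam : 1 / l ≤ 1 / lR := one_div_le_one_div_of_le hlR0 hlR2
  have hml1 : 4 * (B1 + 2) * m ≤ ε1 * l := by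
    have h1 : 4 * ((B1 : ℝ) + 2) / ε1 * m ≤ l := by
      have : 0 ≤ 8 * m := by positivity
      linarith
    rw [div_mul_eq_mul_div, div_le_iff₀ hε10] at h1
    linarith
  have hml2 : 8 * m ≤ l := by
    have : 0 ≤ 4 * ((B1 : ℝ) + 2) / ε1 * m := by positivity
    linarith
  have hRl : 2 ≤ R / l := by
    rw [le_div_iff₀ hl0]
    have h1 : l ^ 2 ≤ S := (hLL (by omega)).trans hLS
    have h2 : 2 * l ≤ l ^ 2 := by
      rw [sq]
      exact mul_le_mul_of_nonneg_right (by linarith only [q1]) hl0.le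
    linarith only [h1, h2, hSleR]
  have hη0S : 0 < η0 * S := by positivity
  have hN0r : η0 * S ≤ N0 := by rw [hN0]; exact Nat.le_ceil _
  have hN01 : 1 ≤ N0 := by
    rw [hN0]
    exact Nat.ceil_pos.2 hη0S
  have hN0P : nP ≤ N0 := by
    have h1 : (nP : ℝ) / η0 ≤ S := q7.trans hlS
    rw [div_le_iff₀ hη0] at h1
    have : (nP : ℝ) ≤ N0 := by linarith
    exact_mod_cast this
  have hnS : (nP : ℝ) ≤ 4 * S := by
    have h1 : (nP : ℝ) / η0 ≤ S := q7.trans hlS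
    rw [div_le_iff₀ hη0] at h1
    have h2 : S * η0 ≤ S * 1 := mul_le_mul_of_nonneg_left hη01 hS0.le
    linarith
  have hMr : 4 * S ≤ M := by rw [hM]; exact Nat.le_ceil _
  have hM2 : (M : ℝ) + 1 ≤ 6 * S := by
    have := Nat.ceil_lt_add_one (show 0 ≤ 4 * S by positivity)
    rw [← hM] at this
    linarith
  obtain ⟨hG1, hG2⟩ := hgap N0 hN0P
  have hg1 : 1 ≤ N0 ^ k := Nat.one_le_pow _ _ hN01
  have hgR : R ≤ e * ((N0 ^ k : ℕ) : ℝ) := by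
    rw [he, hR]
    push_cast
    rw [← mul_pow]
    apply pow_le_pow_left₀ hS0.le
    rw [one_div_mul_eq_div, le_div_iff₀ hη0]
    linarith
  -- the exceptional sets
  obtain ⟨Bs, hBs⟩ : ∃ Bs, Bs = (Icc (-(x : ℤ)) x).filter (fun t : ℤ => |(t : ℝ)| ≤ η1 * x) := ⟨_, rfl⟩
  have hη1x : 1 ≤ η1 * x := by
    have h1 : 4 * (A : ℝ) / η1 ≤ x := q8.trans (hlS.trans hSx)
    rw [div_le_iff₀ hη1] at h1
    linarith
  have hBsc : (#Bs : ℝ) ≤ 3 * (η1 * x) := by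
    rw [hBs]
    exact small_shifts x _ hη1x
  obtain ⟨Bt, hBt⟩ : ∃ Bt, Bt = (Icc (-(x : ℤ)) x).filter (fun t : ℤ => ∃ n ∈ Icc N0 M, 0 < F.eval (n : ℤ) + t ∧
    ((F.eval (n : ℤ) + t : ℤ) : ℝ) ≤ R / l) := ⟨_, rfl⟩
  obtain ⟨Bt', hBt'⟩ : ∃ Bt', Bt' = (Icc (-(x : ℤ)) x).filter (fun t : ℤ => ∃ n ∈ Icc N0 M, 0 < (F.comp (-X)).eval (n : ℤ) + t ∧
    (((F.comp (-X)).eval (n : ℤ) + t : ℤ) : ℝ) ≤ R / l) := ⟨_, rfl⟩
  have htc : ((M : ℝ) + 1) * (R / l) ≤ ε * x / 16 := by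
    calc ((M : ℝ) + 1) * (R / l) ≤ (6 * S) * (R / l) := mul_le_mul_of_nonneg_right hM2 (by positivity)
      _ = 6 * (S * R) / l := by ring
      _ = 6 * x / l := by rw [hSR]
      _ ≤ ε * x / 16 := by
          rw [div_le_div_iff₀ hl0 (by norm_num)]
          rw [div_le_iff₀ hε] at q9
          have h1 := mul_le_mul_of_nonneg_right q9 hx0.le
          linarith only [h1]
  have hBtc : (#Bt : ℝ) ≤ ε * x / 16 := by
    rw [hBt]
    exact (tiny (fun n => F.eval (n : ℤ)) N0 M x (R / l) (by positivity)).trans htc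
  have hBtc' : (#Bt' : ℝ) ≤ ε * x / 16 := by
    rw [hBt']
    exact (tiny (fun n => (F.comp (-X)).eval (n : ℤ)) N0 M x (R / l) (by positivity)).trans htc
  refine ⟨(Ba ∪ (Bb ∪ Bc)) ∪ (Bs ∪ (Bt ∪ Bt')), ?_, ?_, ?_⟩
  · refine union_subset (union_subset hBa0 (union_subset hBb0 hBc0)) (union_subset ?_ (union_subset ?_ ?_))
    · rw [hBs]; exact filter_subset _ _
    · rw [hBt]; exact filter_subset _ _
    · rw [hBt']; exact filter_subset _ _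
  · have u1 := card_union_le (Ba ∪ (Bb ∪ Bc)) (Bs ∪ (Bt ∪ Bt'))
    have u2 := card_union_le Ba (Bb ∪ Bc)
    have u3 := card_union_le Bb Bc
    have u4 := card_union_le Bs (Bt ∪ Bt')
    have u5 := card_union_le Bt Bt'
    have u6 : (#((Ba ∪ (Bb ∪ Bc)) ∪ (Bs ∪ (Bt ∪ Bt'))) : ℝ) ≤ #Ba + #Bb + #Bc + #Bs + #Bt + #Bt' := by
      exact_mod_cast (by omega : #((Ba ∪ (Bb ∪ Bc)) ∪ (Bs ∪ (Bt ∪ Bt'))) ≤ #Ba + #Bb + #Bc + #Bs + #Bt + #Bt')
    have u7 : 0 < ε * x := by positivity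
    have u8 : 24 * η1 * x ≤ ε * x := mul_le_mul_of_nonneg_right hη1ε hx0.le
    have e1 : ε / 16 * (x : ℝ) = ε * x / 16 := by ring
    rw [e1] at hBa1 hBb1 hBc1
    linarith
  · intro t ht htB hrho z hz hz3 a₁ b₁ hTH hHB hv
    rw [mem_union, mem_union, mem_union, mem_union, mem_union, not_or, not_or, not_or, not_or, not_or] at htB
    obtain ⟨⟨k1, k2, k3⟩, k4, k5, k6⟩ := htB
    obtain ⟨hδH, hclose⟩ := hBa2 t ht k1 hrho
    have hgF := hBb2 t ht k2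
    have hgF' := hBc2 t ht k3
    have ht2 : η1 * x ≤ |(t : ℝ)| := by
      by_contra hc
      push Not at hc
      exact k4 (by rw [hBs, mem_filter]; exact ⟨ht, hc.le⟩)
    have htF : ¬ ∃ n ∈ Icc N0 M, 0 < F.eval (n : ℤ) + t ∧ ((F.eval (n : ℤ) + t : ℤ) : ℝ) ≤ R / l := by
      intro hc
      exact k5 (by rw [hBt, mem_filter]; exact ⟨ht, hc⟩)
    have htF' : ¬ ∃ n ∈ Icc N0 M, 0 < (F.comp (-X)).eval (n : ℤ) + t ∧ (((F.comp (-X)).eval (n : ℤ) + t : ℤ) : ℝ) ≤ R / l := by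
      intro hc
      exact k6 (by rw [hBt', mem_filter]; exact ⟨ht, hc⟩)
    clear hBa2 hBb2 hBc2 hBs hBt hBt' k1 k2 k3 k4 k5 k6 hBtc hBtc' hBsc htc
    have htx : |(t : ℝ)| ≤ x := by
      have := abs_le.2 (mem_Icc.1 ht)
      exact_mod_cast this
    obtain ⟨Hn, hHn⟩ : ∃ Hn : ℝ, Hn = (b₁ : ℝ) - a₁ := ⟨_, rfl⟩
    rw [← hHn] at hTH hHB hv
    obtain ⟨H, hHd⟩ : ∃ H, H = hh F t w := ⟨_, rfl⟩
    rw [← hHd] at hδH hclose
    have hH0 : 0 < H := by linarith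
    have hHn0 : 0 < Hn := lt_of_lt_of_le (by positivity) hTH
    have hab : a₁ < b₁ := by
      have : (a₁ : ℝ) < b₁ := by linarith
      exact_mod_cast this
    have hT1 : ∀ T0 : ℝ, T0 ≤ max Ta Tb → T0 / ε1 * l ≤ Hn := by
      intro T0 hT0
      refine le_trans ?_ hTH
      gcongr
    -- one polynomial
    have key : ∀ (P : ℤ[X]) (σ : ℤ) (T0 : ℝ), P.natDegree = k + 1 → (σ = 1 ∨ σ = -1) → 1 ≤ T0 → T0 ≤ l → T0 / ε1 * l ≤ Hn →
        Gap (fun n => P.eval (n : ℤ)) σ N0 (N0 ^ k) → hh P t w = H → (∀ p : ℕ, p.Prime → rho P t p < p) →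
        (¬ ∃ n ∈ Icc N0 M, 0 < P.eval (n : ℤ) + t ∧ ((P.eval (n : ℤ) + t : ℤ) : ℝ) ≤ R / l) →
        (∀ j : ℕ, (gh R T0 l ε1 j : ℝ) ≤ R * l ^ (B1 + 1) →
          |TT (fun n => P.eval (n : ℤ)) N0 M (gh R T0 l ε1 j) (ff y) t| ≤ (ε1 * δ0) * ((gh R T0 l ε1 j : ℝ) / R / l) ∧
          |TT (fun n => P.eval (n : ℤ)) N0 M (gh R T0 l ε1 j) (fz w y) t| ≤ (ε1 * δ0) * ((gh R T0 l ε1 j : ℝ) / R)) →
        ∀ n1 n2 : ℕ, N0 ≤ n1 → n1 ≤ n2 → n2 ≤ M → Hn = (n2 : ℝ) - n1 + 1 →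
        (∀ i ∈ Icc n1 n2, 2 ≤ P.eval (i : ℤ) + t ∧ ((P.eval (i : ℤ) + t : ℤ) : ℝ) ≤ κ * (Hn * R)) →
        |(#((Icc n1 n2).filter (fun i => (vN P t i).Prime)) : ℝ) - H * ∑ i ∈ Icc n1 n2, wt (vN P t i)| ≤
          (80 * e * (κ + 1) * ε1) * (H * ∑ i ∈ Icc n1 n2, wt (vN P t i)) := by
      intro P σ T0 hP hσ hT0 hT0l hT0H hG hhP hrhoP htP hgrP n1 n2 h01 h12 h2M hHn' hvP
      refine one_t P t w y N0 M (N0 ^ k) σ hσ hg1 hG hN01 l R H δ0 ε1 (1 / lR) e T0 κ B1 b C1 q1 hR1 hε10 hε11 hδ0 hδH hlam he1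
        hgR hT0 hκ (Real.le_sqrt_of_sq_le q2) hT0l q5 hB1 hbε hwb ?_
        (hval_P P t N0 M B1 R l m ε1 lR q1 hm hm1 hml1 hml2 hR0 hlR.symm hlR1 hRl htP) hgrP n1 n2 h01 h12 h2M Hn hHn' hHB hT0H hvP
      intro a n han
      have h1 := hmodel P t hP.le b (by omega) w hwy (fun p hp => hrhoP p (mem_pz.1 hp).2) a n han
      rw [hhP] at h1
      exact h1
    -- the sizes of the arguments
    have hVx : κ * (Hn * R) ≤ η1 / 2 * x := by
      have h1 : κ * Hn ≤ η1 / 2 * S := by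
        rw [div_le_iff₀ hη1] at q6
        calc κ * Hn ≤ κ * l ^ B1 := mul_le_mul_of_nonneg_left hHB hκ.le
          _ = (2 * κ) * l ^ B1 / 2 := by ring
          _ ≤ (l * η1) * l ^ B1 / 2 := by
              apply div_le_div_of_nonneg_right _ (by norm_num)
              exact mul_le_mul_of_nonneg_right q6 (hlp0 _).le
          _ = η1 / 2 * l ^ (B1 + 1) := by ring
          _ ≤ η1 / 2 * S := mul_le_mul_of_nonneg_left ((hLL (by omega)).trans hLS) (by positivity)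
      calc κ * (Hn * R) = (κ * Hn) * R := by ring
        _ ≤ (η1 / 2 * S) * R := mul_le_mul_of_nonneg_right h1 hR0.le
        _ = η1 / 2 * (S * R) := by ring
        _ = _ := by rw [hSR]
    have hsz : ∀ m' ∈ Ioc a₁ b₁, (N0 : ℤ) ≤ |m'| ∧ |m'| ≤ (M : ℤ) := by
      intro m' hm'
      obtain ⟨h1, h2⟩ := hv m' hm'
      obtain ⟨h3, h4⟩ := size_m k nP A F hA hgr1 hgr2 S x η1 η0 (κ * (Hn * R)) hSp hS1 hη0d hη1 hη11 t htx ht2 hVx
        (q8.trans (hlS.trans hSx)) hnS m' h1 h2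
      have e1 : ((m'.natAbs : ℕ) : ℤ) = |m'| := Int.natCast_natAbs m'
      have e2 : ((m'.natAbs : ℕ) : ℝ) = ((|m'| : ℤ) : ℝ) := by rw [← e1]; simp
      constructor
      · rw [← e1]
        have h5 : N0 ≤ m'.natAbs := by
          rw [hN0]
          apply Nat.ceil_le.2
          rw [e2]; exact h3
        exact_mod_cast h5
      · rw [← e1]
        have h5 : (m'.natAbs : ℝ) ≤ M := by rw [e2]; linarith
        exact_mod_cast h5
    have hN0z : (1 : ℤ) ≤ N0 := by exact_mod_cast hN01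
    have hmain : |(#((Ioc a₁ b₁).filter (fun m => (F.eval m + t).natAbs.Prime)) : ℝ) -
        H * ∑ m ∈ Ioc a₁ b₁, wt (F.eval m + t).natAbs| ≤
        (80 * e * (κ + 1) * ε1) * (H * ∑ m ∈ Ioc a₁ b₁, wt (F.eval m + t).natAbs) := by
      rcases lt_or_ge a₁ 0 with ha | ha
      · -- all arguments are negative
        have hb : b₁ ≤ -1 := by
          by_contra hc
          push Not at hc
          have h1 := (hsz 0 (mem_Ioc.2 ⟨ha, by omega⟩)).1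
          rw [abs_zero] at h1
          omega
        have hs1 := hsz b₁ (mem_Ioc.2 ⟨hab, le_rfl⟩)
        have hs2 := hsz (a₁ + 1) (mem_Ioc.2 ⟨by omega, by omega⟩)
        rw [abs_of_nonpos (by omega)] at hs1 hs2
        have c1 : (#((Ioc a₁ b₁).filter (fun m => (F.eval m + t).natAbs.Prime)) : ℝ) =
            #((Icc (-b₁).toNat (-a₁ - 1).toNat).filter (fun i => (vN (F.comp (-X)) t i).Prime)) := by
          rw [← sum_boole, ← sum_boole]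
          exact win_neg F (fun v => if (v + t).natAbs.Prime then (1 : ℝ) else 0) a₁ b₁ hb
        have c2 : ∑ m ∈ Ioc a₁ b₁, wt (F.eval m + t).natAbs =
            ∑ i ∈ Icc (-b₁).toNat (-a₁ - 1).toNat, wt (vN (F.comp (-X)) t i) :=
          win_neg F (fun v => wt (v + t).natAbs) a₁ b₁ hb
        rw [c1, c2]
        refine key (F.comp (-X)) σ₂ Tb hF' hσ₂ hTb q4 (hT1 Tb (le_max_right _ _)) hG2 (by rw [hh_negX, hHd])
          (fun p hp => by rw [rho_neg F t p hp]; exact hrho p hp) htF' hgF' _ _ (by omega) (by omega) (by omega) ?_ ?_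
        · have e1 : (((-b₁).toNat : ℕ) : ℤ) = -b₁ := Int.toNat_of_nonneg (by omega)
          have e2 : (((-a₁ - 1).toNat : ℕ) : ℤ) = -a₁ - 1 := Int.toNat_of_nonneg (by omega)
          have e3 : (((-b₁).toNat : ℕ) : ℝ) = -(b₁ : ℝ) := by exact_mod_cast e1
          have e4 : (((-a₁ - 1).toNat : ℕ) : ℝ) = -(a₁ : ℝ) - 1 := by exact_mod_cast e2
          rw [e3, e4, hHn]; ring
        · intro i hi
          rw [mem_Icc] at hi
          have h1 := hv (-(i : ℤ)) (mem_Ioc.2 ⟨by omega, by omega⟩)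
          have e1 : (F.comp (-X)).eval (i : ℤ) = F.eval (-(i : ℤ)) := by rw [eval_comp, eval_neg, eval_X]
          rw [e1]
          exact h1
      · have hs1 := hsz b₁ (mem_Ioc.2 ⟨hab, le_rfl⟩)
        have hs2 := hsz (a₁ + 1) (mem_Ioc.2 ⟨by omega, by omega⟩)
        rw [abs_of_nonneg (by omega)] at hs1 hs2
        have c1 : (#((Ioc a₁ b₁).filter (fun m => (F.eval m + t).natAbs.Prime)) : ℝ) =
            #((Icc (a₁ + 1).toNat b₁.toNat).filter (fun i => (vN F t i).Prime)) := by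
          rw [← sum_boole, ← sum_boole]
          exact win_pos F (fun v => if (v + t).natAbs.Prime then (1 : ℝ) else 0) a₁ b₁ ha
        have c2 : ∑ m ∈ Ioc a₁ b₁, wt (F.eval m + t).natAbs =
            ∑ i ∈ Icc (a₁ + 1).toNat b₁.toNat, wt (vN F t i) :=
          win_pos F (fun v => wt (v + t).natAbs) a₁ b₁ ha
        rw [c1, c2]
        refine key F σ₁ Ta hF hσ₁ hTa q3 (hT1 Ta (le_max_left _ _)) hG1 hHd.symm hrho htF hgF _ _ (by omega) (by omega) (by omega) ?_ ?_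
        · have e1 : (((a₁ + 1).toNat : ℕ) : ℤ) = a₁ + 1 := Int.toNat_of_nonneg (by omega)
          have e2 : ((b₁.toNat : ℕ) : ℤ) = b₁ := Int.toNat_of_nonneg (by omega)
          have e3 : (((a₁ + 1).toNat : ℕ) : ℝ) = (a₁ : ℝ) + 1 := by exact_mod_cast e1
          have e4 : ((b₁.toNat : ℕ) : ℝ) = b₁ := by exact_mod_cast e2
          rw [e3, e4, hHn]; ring
        · intro i hi
          rw [mem_Icc] at hi
          exact hv (i : ℤ) (mem_Ioc.2 ⟨by omega, by omega⟩)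
    have hcl := hclose z (hyz z hz) hz3
    have hWn : 0 ≤ ∑ m ∈ Ioc a₁ b₁, wt (F.eval m + t).natAbs := sum_nonneg fun i _ => wt_nonneg _
    obtain ⟨f1, f2⟩ := swap_const _ _ H (hh F t z) (80 * e * (κ + 1) * ε1) (ε1 / 4) hWn hH0 (by linarith) (by positivity) hmain
      (by
        have e1 : 4 * (ε1 / 4) * H = ε1 * H := by ring
        rw [e1]; exact hcl)
    refine f2.trans ?_
    apply mul_le_mul_of_nonneg_right _ (mul_nonneg f1.le hWn)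
    have h9 : ε1 ≤ e * (κ + 1) * ε1 := by
      have : 1 ≤ e * (κ + 1) := one_le_mul_of_one_le_of_one_le he1 (by linarith)
      exact le_mul_of_one_le_left hε10.le this
    linarith

end Pool.Agent.TH892.OP
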