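import Pool.Agent.TH892.OP.C11

/-!
All windows of length at least a large constant times `log x`, and few shifts with a much smaller prime.
-/

set_option autoImplicit false

namespace Pool.Agent.TH892.OP

open Finset Filter Polynomial
open Pool.Agent.TH892.SW (ff wt wt_nonneg wt_anti wt_le)
open Pool.Agent.TH204.WR (rho hh hh_nonneg growthZ both rt rt_pow evt_log_pow evt_log_ge)
open Pool.Agent.TH892.OW (primes_int)

theorem all_win (k : ℕ) (hk : 1 ≤ k) (F : ℤ[X]) (hF : F.natDegree = k + 1) (κ ε : ℝ) (hκ : 0 < κ) (hε : 0 < ε) :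
    ∃ T : ℝ, 0 < T ∧ ∃ B X0 : ℕ, ∀ x : ℕ, X0 ≤ x → ∃ Bad : Finset ℤ, Bad ⊆ Icc (-(x : ℤ)) x ∧
    (#Bad : ℝ) ≤ ε * x ∧ ∀ t ∈ Icc (-(x : ℤ)) x, t ∉ Bad →
    (∀ p : ℕ, p.Prime → rho F t p < p) →
    ∀ z : ℕ, Real.log x ^ B ≤ z → z ^ 3 ≤ x → 0 < hh F t z ∧ ∀ a₁ b₁ : ℤ, a₁ < b₁ → T * Real.log x ≤ (b₁ : ℝ) - a₁ →
      (∀ m ∈ Ioc a₁ b₁, 2 ≤ F.eval m + t ∧ ((F.eval m + t : ℤ) : ℝ) ≤ κ * (((b₁ : ℝ) - a₁) * rt k x ^ k)) →
      |(#((Ioc a₁ b₁).filter (fun m => (F.eval m + t).natAbs.Prime)) : ℝ) -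
        hh F t z * ∑ m ∈ Ioc a₁ b₁, wt (F.eval m + t).natAbs| ≤
        ε * (hh F t z * ∑ m ∈ Ioc a₁ b₁, wt (F.eval m + t).natAbs) := by
  classical
  obtain ⟨Bf, X1, h1⟩ := both k hk F hF 1 1 ε hε
  obtain ⟨ε', hε'⟩ : ∃ ε', ε' = ε / 2 := ⟨_, rfl⟩
  have hε'0 : 0 < ε' := by rw [hε']; positivity
  obtain ⟨T, hT, B2, X2, h2⟩ := core3 k hk F hF κ ε' hκ hε'0 (max Bf 1) (le_max_right _ _)
  obtain ⟨X3, hX3⟩ := eventually_atTop.1 (evt_log_ge (κ + 2 / ε + 2))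
  refine ⟨T, hT, max Bf B2, max (max X1 X2) X3, fun x hx => ?_⟩
  obtain ⟨Bad1, hB1, hB2, hB3⟩ := h1 x (le_trans (le_trans (le_max_left _ _) (le_max_left _ _)) hx)
  obtain ⟨Bad2, hT1, hT2, hT3⟩ := h2 x (le_trans (le_trans (le_max_right _ _) (le_max_left _ _)) hx)
  have hL := hX3 x (le_trans (le_max_right _ _) hx)
  clear h1 h2 hX3 hx
  rw [pow_one] at hB2
  simp only [pow_one] at hB3
  generalize Real.log x = L at *
  have p1 : 0 < 2 / ε := by positivity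
  have hL0 : 0 < L := by linarith
  have hL1 : 1 ≤ L := by linarith
  have hLL : ∀ {i j : ℕ}, i ≤ j → L ^ i ≤ L ^ j := fun h => pow_le_pow_right₀ hL1 h
  have hx0 : (0 : ℝ) ≤ x := Nat.cast_nonneg _
  refine ⟨Bad1 ∪ Bad2, union_subset hB1 hT1, ?_, fun t ht htB hrho z hz hz3 => ?_⟩
  · have h1 : (#(Bad1 ∪ Bad2) : ℝ) ≤ #Bad1 + #Bad2 := by exact_mod_cast card_union_le _ _
    have h2 : (x : ℝ) / L ≤ ε / 2 * x := by
      rw [div_le_iff₀ hL0]
      have h3 : 2 / ε ≤ L := by linarith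
      rw [div_le_iff₀ hε] at h3
      have h4 := mul_le_mul_of_nonneg_right h3 hx0
      linarith only [h4]
    rw [hε'] at hT2
    linarith
  · rw [mem_union, not_or] at htB
    obtain ⟨hh1, hwin⟩ := hB3 t ht htB.1 hrho z ((hLL (le_max_left _ _)).trans hz) hz3
    refine ⟨hh1, fun a₁ b₁ hab hTL hv => ?_⟩
    have hM : 0 ≤ ∑ m ∈ Ioc a₁ b₁, wt (F.eval m + t).natAbs := sum_nonneg fun i _ => wt_nonneg _
    rcases le_or_gt (L ^ Bf) ((b₁ : ℝ) - a₁) with h | h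
    · refine (hwin a₁ b₁ hab ?_).1 h
      intro m hm
      obtain ⟨h3, h4⟩ := hv m hm
      refine ⟨h3, h4.trans ?_⟩
      have h5 : (0 : ℝ) ≤ ((b₁ : ℝ) - a₁) * rt k x ^ k := by
        have : (0 : ℝ) < (b₁ : ℝ) - a₁ := lt_of_lt_of_le (by positivity) hTL
        have h6 := Pool.Agent.TH204.WR.rt_nonneg k x
        positivity
      calc κ * (((b₁ : ℝ) - a₁) * rt k x ^ k) ≤ L * (((b₁ : ℝ) - a₁) * rt k x ^ k) :=
            mul_le_mul_of_nonneg_right (by linarith) h5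
        _ = _ := by ring
    · have h3 := hT3 t ht htB.2 hrho z ((hLL (le_max_right _ _)).trans hz) hz3 a₁ b₁ hTL (h.le.trans (hLL (le_max_left _ _))) hv
      refine h3.trans ?_
      apply mul_le_mul_of_nonneg_right _ (mul_nonneg hh1.le hM)
      rw [hε']; linarith

/-- few shifts have a prime value which is much smaller than `x^(1-1/d) log x` -/
theorem few_small (k : ℕ) (hk : 1 ≤ k) (F : ℤ[X]) (hF : F.natDegree = k + 1) (c : ℝ) (hc : 0 < c) :
    ∃ X0 : ℕ, ∀ x : ℕ, X0 ≤ x → ∃ Bad : Finset ℤ, Bad ⊆ Icc (-(x : ℤ)) x ∧ (#Bad : ℝ) ≤ 1100 * c * x ∧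
    ∀ t ∈ Icc (-(x : ℤ)) x, t ∉ Bad → ∀ m : ℤ, (F.eval m + t).toNat.Prime →
      c * (rt k x ^ k * Real.log x) < ((F.eval m + t : ℤ) : ℝ) := by
  classical
  obtain ⟨nP, A, hnP, hA, hgr1, hgr2, -⟩ := growthZ k hk F hF
  have hev : ∀ᶠ x : ℕ in atTop, (10000 + nP + 4 / c + c : ℝ) ≤ Real.log x ∧
      Real.log x ^ 2 ≤ (x : ℝ) ^ ((1 : ℝ) / (k + 1)) := by
    filter_upwards [evt_log_ge (10000 + nP + 4 / c + c), evt_log_pow 2 ((1 : ℝ) / (k + 1)) (by positivity)] with x h1 h2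
    exact ⟨h1, h2⟩
  obtain ⟨X0, hX0⟩ := eventually_atTop.1 hev
  refine ⟨max X0 1, fun x hx => ?_⟩
  obtain ⟨hL, hLS⟩ := hX0 x ((le_max_left _ _).trans hx)
  have hx1 : 1 ≤ x := (le_max_right _ _).trans hx
  clear hX0 hev hx
  have hSr : rt k x = (x : ℝ) ^ ((1 : ℝ) / (k + 1)) := rfl
  rw [← hSr] at hLS
  have hSp := rt_pow k x
  have hlogx : Real.log x = (k + 1) * Real.log (rt k x) := by
    rw [← hSp, Real.log_pow]
    push_cast; ring
  clear hSr
  generalize rt k x = S at *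
  generalize Real.log x = L at *
  have hnPr : (0 : ℝ) ≤ nP := Nat.cast_nonneg _
  have p1 : 0 < 4 / c := by positivity
  have hL0 : 0 < L := by linarith
  have hL1 : 1 ≤ L := by linarith
  have hxr : (1 : ℝ) ≤ x := by exact_mod_cast hx1
  have hx0 : (0 : ℝ) < x := by linarith
  have hLS1 : L ≤ S := by
    have h1 : L ≤ L ^ 2 := le_self_pow₀ hL1 (by norm_num)
    linarith only [h1, hLS]
  have hS1 : 1 ≤ S := hL1.trans hLS1
  have hS0 : 0 < S := by linarith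
  obtain ⟨R, hR⟩ : ∃ R, R = S ^ k := ⟨_, rfl⟩
  rw [← hR]
  have hSR : S * R = x := by rw [← hSp, hR]; ring
  have hSleR : S ≤ R := by rw [hR]; exact le_self_pow₀ hS1 (by omega)
  have hR0 : 0 < R := by linarith
  have hkr : (1 : ℝ) ≤ k := by exact_mod_cast hk
  have hlR1 : L / 2 ≤ Real.log R := by
    rw [hR, Real.log_pow, hlogx]
    have h1 : 0 ≤ ((k : ℝ) - 1) * Real.log S := mul_nonneg (by linarith only [hkr]) (Real.log_nonneg hS1)
    linarith only [h1]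
  have hcL : 4 ≤ c * L := by
    have h1 : 4 / c ≤ L := by linarith
    rw [div_le_iff₀ hc] at h1
    linarith
  obtain ⟨Y, hY⟩ : ∃ Y, Y = ⌊c * (R * L)⌋₊ := ⟨_, rfl⟩
  have hYle : (Y : ℝ) ≤ c * (R * L) := by rw [hY]; exact Nat.floor_le (by positivity)
  have hYge : R ≤ Y := by
    have h1 := Nat.lt_floor_add_one (c * (R * L))
    rw [← hY] at h1
    have h2 : c * (R * L) = R * (c * L) := by ring
    have h3 : R * 4 ≤ R * (c * L) := mul_le_mul_of_nonneg_left hcL hR0.le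
    linarith
  have hY0 : (0 : ℝ) < Y := by linarith
  have hYx : (Y : ℝ) ≤ x := by
    have h1 : c * L ≤ S := by
      calc c * L ≤ L * L := mul_le_mul_of_nonneg_right (by linarith) hL0.le
        _ = L ^ 2 := by ring
        _ ≤ S := hLS
    calc (Y : ℝ) ≤ c * (R * L) := hYle
      _ = (c * L) * R := by ring
      _ ≤ S * R := mul_le_mul_of_nonneg_right h1 hR0.le
      _ = x := hSR
  obtain ⟨K, hK⟩ : ∃ K, K = ⌊4 * S⌋₊ := ⟨_, rfl⟩
  have hKle : (K : ℝ) ≤ 4 * S := by rw [hK]; exact Nat.floor_le (by positivity)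
  obtain ⟨Q, hQ⟩ : ∃ Q, Q = (Icc (1 : ℤ) Y).filter (fun v : ℤ => v.toNat.Prime) := ⟨_, rfl⟩
  have hQc : (#Q : ℝ) ≤ 120 * c * R := by
    have hIS : ∀ v ∈ Icc (1 : ℤ) Y, (0 : ℤ) ≤ v ∧ v ≤ 0 + 2 * Y := by
      intro v hv
      rw [mem_Icc] at hv
      constructor <;> linarith [hv.1, hv.2]
    have hY2 : 100 ≤ Y := by
      have : (100 : ℝ) ≤ Y := by linarith
      exact_mod_cast this
    have h1 := primes_int Y (by omega) 0 (Icc (1 : ℤ) Y) hIS
    rw [hQ]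
    refine h1.trans ?_
    have h2 : L / 2 ≤ Real.log Y := hlR1.trans (Real.log_le_log hR0 hYge)
    have h3 : (Y : ℝ) / Real.log Y ≤ 2 * c * R := by
      rw [div_le_iff₀ (by linarith)]
      calc (Y : ℝ) ≤ c * (R * L) := hYle
        _ = 2 * c * R * (L / 2) := by ring
        _ ≤ 2 * c * R * Real.log Y := mul_le_mul_of_nonneg_left h2 (by positivity)
    linarith
  have hsub : (Icc (-(x : ℤ)) x).filter (fun t : ℤ => ∃ m : ℤ, (F.eval m + t).toNat.Prime ∧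
      ((F.eval m + t : ℤ) : ℝ) ≤ c * (R * L)) ⊆
      (Icc (-(K : ℤ)) K).biUnion (fun m => Q.image (fun v => v - F.eval m)) := by
    intro t ht
    rw [mem_filter] at ht
    obtain ⟨ht, m, hmp, hmv⟩ := ht
    have htx : |(t : ℝ)| ≤ x := by
      have := abs_le.2 (mem_Icc.1 ht)
      exact_mod_cast this
    have hv2 : 2 ≤ F.eval m + t := by
      have := hmp.two_le
      omega
    have hvY : F.eval m + t ≤ Y := by
      obtain ⟨v, hv⟩ := Int.eq_ofNat_of_zero_le (show 0 ≤ F.eval m + t by omega)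
      rw [hv] at hmv ⊢
      rw [hY]
      exact_mod_cast Nat.le_floor (by exact_mod_cast hmv)
    have hv2r : (2 : ℝ) ≤ ((F.eval m + t : ℤ) : ℝ) := by exact_mod_cast hv2
    have hvYr : ((F.eval m + t : ℤ) : ℝ) ≤ Y := by exact_mod_cast hvY
    have hFhi : ((|F.eval m| : ℤ) : ℝ) ≤ 2 * x := by
      have hFr : ((|F.eval m| : ℤ) : ℝ) = |((F.eval m : ℤ) : ℝ)| := Int.cast_abs
      rw [hFr]
      have e : ((F.eval m : ℤ) : ℝ) = ((F.eval m + t : ℤ) : ℝ) - (t : ℝ) := by push_cast; ring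
      rw [e]
      refine (abs_sub _ _).trans ?_
      rw [abs_of_pos (show (0 : ℝ) < ((F.eval m + t : ℤ) : ℝ) by linarith)]
      linarith
    have hm0 : (0 : ℝ) ≤ ((|m| : ℤ) : ℝ) := by exact_mod_cast abs_nonneg m
    have hm4 : ((|m| : ℤ) : ℝ) ≤ 4 * S := by
      by_cases hnm : (nP : ℤ) ≤ |m|
      · have h3 : ((|m| : ℤ) : ℝ) ^ (k + 1) ≤ 2 * ((|F.eval m| : ℤ) : ℝ) := by
          have := hgr1 m hnm
          exact_mod_cast this
        have h4 : ((|m| : ℤ) : ℝ) ^ (k + 1) ≤ (4 * S) ^ (k + 1) := by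
          rw [mul_pow, hSp]
          have h5 : (4 : ℝ) ≤ 4 ^ (k + 1) := le_self_pow₀ (by norm_num) (by omega)
          have h6 := mul_le_mul_of_nonneg_right h5 hx0.le
          linarith only [h3, hFhi, h6]
        exact (pow_le_pow_iff_left₀ hm0 (by positivity) (by omega)).1 h4
      · push Not at hnm
        have : ((|m| : ℤ) : ℝ) ≤ nP := by exact_mod_cast hnm.le
        linarith
    have hmK : |m| ≤ (K : ℤ) := by
      have e1 : ((m.natAbs : ℕ) : ℤ) = |m| := Int.natCast_natAbs m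
      rw [← e1]
      have h5 : m.natAbs ≤ K := by
        rw [hK]
        apply Nat.le_floor
        have e2 : ((m.natAbs : ℕ) : ℝ) = ((|m| : ℤ) : ℝ) := by rw [← e1]; simp
        rw [e2]; exact hm4
      exact_mod_cast h5
    rw [mem_biUnion]
    refine ⟨m, ?_, ?_⟩
    · rw [mem_Icc]
      exact abs_le.1 hmK
    · rw [mem_image]
      refine ⟨F.eval m + t, ?_, by ring⟩
      rw [hQ, mem_filter, mem_Icc]
      exact ⟨⟨by omega, hvY⟩, hmp⟩
  have h1 := (card_le_card hsub).trans card_biUnion_le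
  have h2 : ∑ m ∈ Icc (-(K : ℤ)) K, #(Q.image (fun v => v - F.eval m)) ≤ (2 * K + 1) * #Q := by
    calc ∑ m ∈ Icc (-(K : ℤ)) K, #(Q.image (fun v => v - F.eval m)) ≤ ∑ _m ∈ Icc (-(K : ℤ)) K, #Q :=
          sum_le_sum fun m _ => card_image_le
      _ = #(Icc (-(K : ℤ)) K) * #Q := by rw [sum_const, smul_eq_mul]
      _ ≤ _ := by
          apply Nat.mul_le_mul_right
          rw [Int.card_Icc]
          omega
  refine ⟨(Icc (-(x : ℤ)) x).filter (fun t : ℤ => ∃ m : ℤ, (F.eval m + t).toNat.Prime ∧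
      ((F.eval m + t : ℤ) : ℝ) ≤ c * (R * L)), filter_subset _ _, ?_, ?_⟩
  · calc (#((Icc (-(x : ℤ)) x).filter (fun t : ℤ => ∃ m : ℤ, (F.eval m + t).toNat.Prime ∧
        ((F.eval m + t : ℤ) : ℝ) ≤ c * (R * L))) : ℝ) ≤ (((2 * K + 1) * #Q : ℕ) : ℝ) := by exact_mod_cast h1.trans h2
      _ = (2 * (K : ℝ) + 1) * (#Q : ℝ) := by push_cast; rfl
      _ ≤ (9 * S) * (120 * c * R) := by
          apply mul_le_mul _ hQc (Nat.cast_nonneg _) (by positivity)
          linarith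
      _ = 1080 * c * (S * R) := by ring
      _ = 1080 * c * x := by rw [hSR]
      _ ≤ 1100 * c * x := by
          have h3 : 0 < c * x := by positivity
          linarith only [h3]
  · intro t ht htB m hm
    by_contra hcon
    push Not at hcon
    exact htB (by rw [mem_filter]; exact ⟨ht, m, hm, hcon⟩)

end Pool.Agent.TH892.OP
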