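import Pool.Agent.TH892.OP.C12

/-!
Windows at the real zero, and the least prime.
-/

set_option autoImplicit false

namespace Pool.Agent.TH892.OP

open Finset Filter Polynomial
open Pool.Agent.TH892.SW (wt wt_nonneg)
open Pool.Agent.TH204.WR (rho hh growth gap Gap gap_mono small_shifts rt rt_pow evt_log_pow evt_log_ge)

lemma pow_lip (a b y : ℤ) (ha : |a| ≤ y) (hb : |b| ≤ y) (i : ℕ) : |a ^ (i + 1) - b ^ (i + 1)| ≤ ((i : ℤ) + 1) * (|a - b| * y ^ i) := by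
  induction i with
  | zero => simp
  | succ i ih =>
    have hy : 0 ≤ y := (abs_nonneg a).trans ha
    have e : a ^ (i + 1 + 1) - b ^ (i + 1 + 1) = a ^ (i + 1) * (a - b) + b * (a ^ (i + 1) - b ^ (i + 1)) := by ring
    rw [e]
    refine (abs_add_le _ _).trans ?_
    rw [abs_mul, abs_mul, abs_pow]
    have h1 : |a| ^ (i + 1) * |a - b| ≤ y ^ (i + 1) * |a - b| :=
      mul_le_mul_of_nonneg_right (pow_le_pow_left₀ (abs_nonneg _) ha _) (abs_nonneg _)
    have h2 : |b| * |a ^ (i + 1) - b ^ (i + 1)| ≤ y * (((i : ℤ) + 1) * (|a - b| * y ^ i)) :=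
      mul_le_mul hb ih (abs_nonneg _) hy
    refine (add_le_add h1 h2).trans (le_of_eq ?_)
    push_cast
    ring

lemma lip (k : ℕ) (P : ℤ[X]) (hP : P.natDegree = k + 1) : ∃ D : ℕ, 1 ≤ D ∧ ∀ a b y : ℤ, 1 ≤ y → |a| ≤ y → |b| ≤ y →
    |P.eval a - P.eval b| ≤ D * (|a - b| * y ^ k) := by
  refine ⟨∑ i ∈ range (k + 2), (P.coeff i).natAbs * i + 1, by omega, fun a b y hy ha hb => ?_⟩
  have h0 : 0 ≤ |a - b| * y ^ k := by positivity
  rw [eval_eq_sum_range' (show P.natDegree < k + 2 by omega) a, eval_eq_sum_range' (show P.natDegree < k + 2 by omega) b,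
    ← sum_sub_distrib]
  have h1 : ∀ i ∈ range (k + 2), |P.coeff i * a ^ i - P.coeff i * b ^ i| ≤ ((P.coeff i).natAbs * i : ℕ) * (|a - b| * y ^ k) := by
    intro i hi
    rw [mem_range] at hi
    rw [← mul_sub, abs_mul]
    rcases i with _ | i
    · simp
    · have h2 := pow_lip a b y ha hb i
      have h3 : y ^ i ≤ y ^ k := pow_le_pow_right₀ hy (by omega)
      have h4 : ((i : ℤ) + 1) * (|a - b| * y ^ i) ≤ ((i : ℤ) + 1) * (|a - b| * y ^ k) := by gcongr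
      rw [Int.abs_eq_natAbs (P.coeff (i + 1))]
      push_cast
      calc |P.coeff (i + 1)| * |a ^ (i + 1) - b ^ (i + 1)| ≤ |P.coeff (i + 1)| * (((i : ℤ) + 1) * (|a - b| * y ^ k)) :=
            mul_le_mul_of_nonneg_left (h2.trans h4) (abs_nonneg _)
        _ = _ := by ring
  refine (abs_sum_le_sum_abs _ _).trans ((sum_le_sum h1).trans ?_)
  rw [← sum_mul]
  apply mul_le_mul_of_nonneg_right _ h0
  push_cast
  linarith

/-- a window at the zero -/
lemma root_window (P : ℤ[X]) (k nP H M D : ℕ) (σ : ℤ) (hσ : σ = 1 ∨ σ = -1) (hH : 1 ≤ H)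
    (hgap : Gap (fun n => P.eval (n : ℤ)) σ nP 1) (t : ℤ)
    (hlip : ∀ a b y : ℤ, 1 ≤ y → |a| ≤ y → |b| ≤ y → |P.eval a - P.eval b| ≤ D * (|a - b| * y ^ k))
    (hlow : nP + H ≤ M) (h1 : σ * (P.eval ((nP + H : ℕ) : ℤ) + t) ≤ -2) (h2 : 2 ≤ σ * (P.eval (M : ℤ) + t)) :
    ∃ a : ℕ, nP ≤ a ∧ a ≤ M ∧ ∀ n ∈ Ioc a (a + H), 2 ≤ P.eval (n : ℤ) + t ∧
      P.eval (n : ℤ) + t ≤ 1 + D * (H * ((M + H : ℕ) : ℤ) ^ k) := by
  classical
  have hmono : ∀ n n' : ℕ, nP ≤ n → n ≤ n' → σ * P.eval (n : ℤ) ≤ σ * P.eval (n' : ℤ) := by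
    intro n n' hn h
    rcases h.eq_or_lt with h | h
    · rw [h]
    · exact (gap_mono _ σ nP 1 le_rfl hgap n n' hn h).le
  have hval : ∀ n c : ℕ, n ≤ M + H → c ≤ M + H → |(n : ℤ) - c| ≤ H → P.eval (c : ℤ) + t ≤ 1 →
      P.eval (n : ℤ) + t ≤ 1 + D * (H * ((M + H : ℕ) : ℤ) ^ k) := by
    intro n c hn hc hnc hv
    have h3 := hlip n c ((M + H : ℕ) : ℤ) (by exact_mod_cast (by omega : 1 ≤ M + H)) (by rw [abs_of_nonneg (by omega)]; exact_mod_cast hn)
      (by rw [abs_of_nonneg (by omega)]; exact_mod_cast hc)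
    have h4 : (D : ℤ) * (|(n : ℤ) - c| * ((M + H : ℕ) : ℤ) ^ k) ≤ D * (H * ((M + H : ℕ) : ℤ) ^ k) := by gcongr
    have h5 := le_abs_self (P.eval (n : ℤ) - P.eval (c : ℤ))
    linarith
  rcases hσ with hs | hs
  · rw [hs, one_mul] at h1 h2
    obtain ⟨Sx, hSx⟩ : ∃ Sx, Sx = (Icc nP M).filter (fun n : ℕ => P.eval (n : ℤ) + t ≤ 1) := ⟨_, rfl⟩
    have hne : Sx.Nonempty := ⟨nP + H, by rw [hSx, mem_filter, mem_Icc]; exact ⟨⟨by omega, hlow⟩, by linarith⟩⟩
    have ha := Sx.max'_mem hne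
    have hmax : ∀ i ∈ Sx, i ≤ Sx.max' hne := fun i hi => Sx.le_max' i hi
    generalize Sx.max' hne = a at *
    rw [hSx, mem_filter, mem_Icc] at ha
    have haM : a < M := by
      rcases ha.1.2.eq_or_lt with h | h
      · exfalso
        have h3 := ha.2
        rw [h] at h3
        linarith
      · exact h
    refine ⟨a, ha.1.1, haM.le, fun n hn => ?_⟩
    rw [mem_Ioc] at hn
    refine ⟨?_, ?_⟩
    · by_contra hcon
      push Not at hcon
      rcases Nat.lt_or_ge M n with h3 | h3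
      · have h4 := hmono M n (by omega) h3.le
        rw [hs, one_mul, one_mul] at h4
        linarith
      · have h4 := hmax n (by rw [hSx, mem_filter, mem_Icc]; exact ⟨⟨by omega, h3⟩, by omega⟩)
        omega
    · exact hval n a (by omega) (by omega) (by rw [abs_of_nonneg (by omega)]; omega) ha.2
  · rw [hs] at h1 h2
    obtain ⟨Sx, hSx⟩ : ∃ Sx, Sx = (Icc nP M).filter (fun n : ℕ => 2 ≤ P.eval (n : ℤ) + t) := ⟨_, rfl⟩
    have hmem : nP + H ∈ Sx := by rw [hSx, mem_filter, mem_Icc]; exact ⟨⟨by omega, hlow⟩, by linarith⟩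
    have hne : Sx.Nonempty := ⟨nP + H, hmem⟩
    have ha := Sx.max'_mem hne
    have hmax : ∀ i ∈ Sx, i ≤ Sx.max' hne := fun i hi => Sx.le_max' i hi
    generalize Sx.max' hne = b at *
    have hbH := hmax _ hmem
    rw [hSx, mem_filter, mem_Icc] at ha
    have hbM : b < M := by
      rcases ha.1.2.eq_or_lt with h | h
      · exfalso
        have h3 := ha.2
        rw [h] at h3
        linarith
      · exact h
    have hb1 : P.eval ((b + 1 : ℕ) : ℤ) + t ≤ 1 := by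
      by_contra hcon
      push Not at hcon
      have h4 := hmax (b + 1) (by rw [hSx, mem_filter, mem_Icc]; exact ⟨⟨by omega, by omega⟩, by omega⟩)
      omega
    refine ⟨b - H, by omega, by omega, fun n hn => ?_⟩
    rw [mem_Ioc] at hn
    refine ⟨?_, ?_⟩
    · have h4 := hmono n b (by omega) (by omega)
      rw [hs] at h4
      linarith [ha.2]
    · exact hval n (b + 1) (by omega) (by omega) (by rw [abs_of_nonpos (by push_cast; omega)]; push_cast; omega) hb1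

/-- a window at the zero, with sizes -/
lemma key_root (k : ℕ) (P : ℤ[X]) (nP D H M : ℕ) (σ : ℤ) (hσ : σ = 1 ∨ σ = -1) (hH : 1 ≤ H) (hnP : 1 ≤ nP)
    (hgr : ∀ n : ℕ, nP ≤ n → (n : ℤ) ^ k ≤ σ * (P.eval ((n : ℤ) + 1) - P.eval (n : ℤ)) ∧
      (n : ℤ) ^ (k + 1) ≤ 2 * (σ * P.eval (n : ℤ)))
    (hlip : ∀ a b y : ℤ, 1 ≤ y → |a| ≤ y → |b| ≤ y → |P.eval a - P.eval b| ≤ D * (|a - b| * y ^ k))
    (t : ℤ) (x S R κ r A0 : ℝ) (hSx : S ^ (k + 1) = x) (hR : R = S ^ k) (hS1 : 1 ≤ S) (hM : 4 * S ≤ M) (hM2 : (M : ℝ) + H ≤ 6 * S)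
    (hlow : nP + H ≤ M) (htx : |(t : ℝ)| ≤ x) (hr : r < |(t : ℝ)|) (hA0 : ((|P.eval (nP : ℤ)| : ℤ) : ℝ) ≤ A0)
    (hrbig : A0 + D * (H * (nP + H) ^ k) + 4 ≤ r) (hκ : κ = D * 6 ^ k + 1) (hσt : σ * t < 0) :
    ∃ a : ℕ, ∀ n ∈ Ioc a (a + H), 2 ≤ P.eval (n : ℤ) + t ∧ ((P.eval (n : ℤ) + t : ℤ) : ℝ) ≤ κ * (H * R) := by
  have hx1 : 1 ≤ x := by rw [← hSx]; exact one_le_pow₀ hS1
  have hσr : |((σ : ℤ) : ℝ)| = 1 := by rcases hσ with h | h <;> rw [h] <;> simp
  have hσt' : ((σ : ℤ) : ℝ) * t = -|(t : ℝ)| := by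
    have h1 : ((σ : ℤ) : ℝ) * t < 0 := by exact_mod_cast hσt
    have h2 : |((σ : ℤ) : ℝ) * t| = |(t : ℝ)| := by rw [abs_mul, hσr, one_mul]
    rw [abs_of_neg h1] at h2
    linarith only [h2]
  have hgap : Gap (fun n => P.eval (n : ℤ)) σ nP 1 := by
    intro n δ hn
    have h1 := gap k P nP σ (fun n hn => (hgr n hn).1) nP le_rfl n δ hn
    have h2 : (1 : ℤ) ≤ (nP : ℤ) ^ k := one_le_pow₀ (by exact_mod_cast hnP)
    have h3 : (δ : ℤ) * 1 ≤ (δ : ℤ) * (nP : ℤ) ^ k := mul_le_mul_of_nonneg_left h2 (Int.natCast_nonneg _)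
    push_cast at h1 ⊢
    linarith only [h1, h3]
  have h1 : σ * (P.eval ((nP + H : ℕ) : ℤ) + t) ≤ -2 := by
    have h2 := hlip ((nP + H : ℕ) : ℤ) (nP : ℤ) ((nP + H : ℕ) : ℤ) (by exact_mod_cast (by omega : 1 ≤ nP + H))
      (by rw [abs_of_nonneg (by omega)]) (by rw [abs_of_nonneg (by omega)]; exact_mod_cast (by omega : nP ≤ nP + H))
    have e1 : |(((nP + H : ℕ) : ℤ)) - (nP : ℤ)| = H := by
      rw [abs_of_nonneg (by push_cast; omega)]; push_cast; ring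
    rw [e1] at h2
    have h3 : ((|P.eval ((nP + H : ℕ) : ℤ) - P.eval (nP : ℤ)| : ℤ) : ℝ) ≤ D * (H * (nP + H) ^ k) := by
      have : ((|P.eval ((nP + H : ℕ) : ℤ) - P.eval (nP : ℤ)| : ℤ) : ℝ) ≤ ((D * (H * ((nP + H : ℕ) : ℤ) ^ k) : ℤ) : ℝ) := by
        exact_mod_cast h2
      refine this.trans (le_of_eq ?_)
      push_cast
      rfl
    rw [Int.cast_abs] at h3 hA0
    have h4 : |((P.eval ((nP + H : ℕ) : ℤ) : ℤ) : ℝ)| ≤ A0 + D * (H * (nP + H) ^ k) := by
      have e : ((P.eval ((nP + H : ℕ) : ℤ) : ℤ) : ℝ) = ((P.eval ((nP + H : ℕ) : ℤ) - P.eval (nP : ℤ) : ℤ) : ℝ) +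
        ((P.eval (nP : ℤ) : ℤ) : ℝ) := by push_cast; ring
      rw [e]
      refine (abs_add_le _ _).trans ?_
      linarith only [h3, hA0]
    have h5 : ((σ : ℤ) : ℝ) * ((P.eval ((nP + H : ℕ) : ℤ) : ℤ) : ℝ) ≤ |((P.eval ((nP + H : ℕ) : ℤ) : ℤ) : ℝ)| := by
      refine (le_abs_self _).trans ?_
      rw [abs_mul, hσr, one_mul]
    have h6 : ((σ * (P.eval ((nP + H : ℕ) : ℤ) + t) : ℤ) : ℝ) ≤ -2 := by
      have e : ((σ * (P.eval ((nP + H : ℕ) : ℤ) + t) : ℤ) : ℝ) =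
        ((σ : ℤ) : ℝ) * ((P.eval ((nP + H : ℕ) : ℤ) : ℤ) : ℝ) + ((σ : ℤ) : ℝ) * t := by push_cast; ring
      rw [e, hσt']
      linarith only [h4, h5, hr, hrbig]
    exact_mod_cast h6
  have h2 : 2 ≤ σ * (P.eval (M : ℤ) + t) := by
    have h3 := (hgr M (by omega)).2
    have h4 : ((M : ℝ)) ^ (k + 1) ≤ 2 * (((σ : ℤ) : ℝ) * ((P.eval (M : ℤ) : ℤ) : ℝ)) := by exact_mod_cast h3
    have h5 : 4 * x ≤ (M : ℝ) ^ (k + 1) := by
      calc 4 * x ≤ 4 ^ (k + 1) * x := by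
            apply mul_le_mul_of_nonneg_right _ (by linarith only [hx1])
            exact le_self_pow₀ (by norm_num) (by omega)
        _ = (4 * S) ^ (k + 1) := by rw [mul_pow, hSx]
        _ ≤ (M : ℝ) ^ (k + 1) := pow_le_pow_left₀ (by linarith only [hS1]) hM _
    have h6 : (2 : ℝ) ≤ ((σ * (P.eval (M : ℤ) + t) : ℤ) : ℝ) ∨ ((σ * (P.eval (M : ℤ) + t) : ℤ) : ℝ) < 2 := le_or_gt _ _
    have e : ((σ * (P.eval (M : ℤ) + t) : ℤ) : ℝ) = ((σ : ℤ) : ℝ) * ((P.eval (M : ℤ) : ℤ) : ℝ) + ((σ : ℤ) : ℝ) * t := by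
      push_cast; ring
    rcases h6 with h6 | h6
    · exact_mod_cast h6
    · exfalso
      rw [e, hσt'] at h6
      have h7 : (4 * S) ^ (k + 1) = 4 ^ (k + 1) * x := by rw [mul_pow, hSx]
      have h8 : (M : ℝ) ^ (k + 1) ≥ (4 * S) ^ (k + 1) := pow_le_pow_left₀ (by linarith only [hS1]) hM _
      have h9 : (4 : ℝ) ≤ 4 ^ (k + 1) := le_self_pow₀ (by norm_num) (by omega)
      have h10 : (0 : ℝ) ≤ A0 := by
        have : (0 : ℝ) ≤ ((|P.eval (nP : ℤ)| : ℤ) : ℝ) := by exact_mod_cast abs_nonneg _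
        linarith only [this, hA0]
      have h11 : (0 : ℝ) ≤ D * (H * (nP + H) ^ k) := by positivity
      linarith only [h4, h5, h6, htx, hx1, hr, hrbig, h10, h11]
  obtain ⟨a, -, haM, ha⟩ := root_window P k nP H M D σ hσ hH hgap t hlip hlow h1 h2
  refine ⟨a, fun n hn => ?_⟩
  obtain ⟨h3, h4⟩ := ha n hn
  refine ⟨h3, ?_⟩
  have h5 : ((P.eval (n : ℤ) + t : ℤ) : ℝ) ≤ 1 + D * (H * ((M : ℝ) + H) ^ k) := by
    have : ((P.eval (n : ℤ) + t : ℤ) : ℝ) ≤ ((1 + D * (H * ((M + H : ℕ) : ℤ) ^ k) : ℤ) : ℝ) := by exact_mod_cast h4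
    refine this.trans (le_of_eq ?_)
    push_cast
    rfl
  have h6 : ((M : ℝ) + H) ^ k ≤ 6 ^ k * R := by
    rw [hR, ← mul_pow]
    exact pow_le_pow_left₀ (by positivity) hM2 k
  have hHr : (1 : ℝ) ≤ H := by exact_mod_cast hH
  have hR1 : 1 ≤ R := by rw [hR]; exact one_le_pow₀ hS1
  have h7 : (1 : ℝ) ≤ H * R := one_le_mul_of_one_le_of_one_le hHr hR1
  calc ((P.eval (n : ℤ) + t : ℤ) : ℝ) ≤ 1 + D * (H * ((M : ℝ) + H) ^ k) := h5
    _ ≤ H * R + D * (H * (6 ^ k * R)) := by gcongr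
    _ = κ * (H * R) := by rw [hκ]; ring

theorem least_gen (k : ℕ) (hk : 1 ≤ k) (F : ℤ[X]) (hF : F.natDegree = k + 1) (ε : ℝ) (hε : 0 < ε) :
    ∃ C : ℝ, 0 < C ∧ ∃ X0 : ℕ, ∀ x : ℕ, X0 ≤ x → ∃ Bad : Finset ℤ, Bad ⊆ Icc (-(x : ℤ)) x ∧
    (#Bad : ℝ) ≤ ε * x ∧ ∀ t ∈ Icc (-(x : ℤ)) x, t ∉ Bad →
    (∀ p : ℕ, p.Prime → rho F t p < p) → (∃ m : ℤ, F.eval m + t < 0) → (∃ m : ℤ, 0 < F.eval m + t) →
    ∃ m : ℤ, (F.eval m + t).toNat.Prime ∧ ((F.eval m + t : ℤ) : ℝ) ≤ C * (rt k x ^ k * Real.log x) := by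
  classical
  have hF' : (F.comp (-X)).natDegree = k + 1 := by
    rw [natDegree_comp, natDegree_neg, natDegree_X, mul_one, hF]
  have hevn : ∀ n : ℤ, (F.comp (-X)).eval n = F.eval (-n) := by
    intro n
    rw [eval_comp, eval_neg, eval_X]
  obtain ⟨n1, σ₁, hσ₁, hgr1⟩ := growth k hk F hF
  obtain ⟨n2, σ₂, hσ₂, hgr2⟩ := growth k hk (F.comp (-X)) hF'
  obtain ⟨D1, hD1, hl1⟩ := lip k F hF
  obtain ⟨D2, hD2, hl2⟩ := lip k (F.comp (-X)) hF'
  obtain ⟨nP, hnP⟩ : ∃ nP, nP = n1 + n2 + 1 := ⟨_, rfl⟩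
  obtain ⟨A0, hA0⟩ : ∃ A0 : ℕ, A0 = ∑ m ∈ Icc (-(nP : ℤ)) nP, (F.eval m).natAbs := ⟨_, rfl⟩
  obtain ⟨D, hD⟩ : ∃ D, D = D1 + D2 := ⟨_, rfl⟩
  obtain ⟨κ, hκ⟩ : ∃ κ : ℝ, κ = D * 6 ^ k + 1 := ⟨_, rfl⟩
  have hκ1 : 1 ≤ κ := by
    rw [hκ]
    have : (0 : ℝ) ≤ D * 6 ^ k := by positivity
    linarith
  have hκ0 : 0 < κ := by linarith
  obtain ⟨T, hT, B, X1, h1⟩ := all_win k hk F hF κ (min (ε / 2) (1 / 2)) hκ0 (by positivity)
  have hev : ∀ᶠ x : ℕ in atTop, (10000 + nP + A0 + 24 / ε * (D + 1) + T : ℝ) ≤ Real.log x ∧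
      Real.log x ^ 4 ≤ (x : ℝ) ^ ((1 : ℝ) / (k + 1)) ∧ Real.log x ^ (3 * (B + 1)) ≤ (x : ℝ) ^ (1 : ℝ) := by
    filter_upwards [evt_log_ge (10000 + nP + A0 + 24 / ε * (D + 1) + T),
      evt_log_pow 4 ((1 : ℝ) / (k + 1)) (by positivity), evt_log_pow (3 * (B + 1)) 1 one_pos] with x h1 h2 h3
    exact ⟨h1, h2, h3⟩
  obtain ⟨X2, hX2⟩ := eventually_atTop.1 hev
  refine ⟨κ * (T + 1), by positivity, max X1 (max X2 1), fun x hx => ?_⟩
  obtain ⟨Bad1, hB1, hB2, hB3⟩ := h1 x ((le_max_left _ _).trans hx)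
  obtain ⟨hL, hLS, hLx⟩ := hX2 x (le_trans (le_trans (le_max_left _ _) (le_max_right _ _)) hx)
  have hx1 : 1 ≤ x := le_trans (le_trans (le_max_right _ _) (le_max_right _ _)) hx
  clear h1 hX2 hev hx
  rw [Real.rpow_one] at hLx
  have hSr : rt k x = (x : ℝ) ^ ((1 : ℝ) / (k + 1)) := rfl
  rw [← hSr] at hLS
  have hSp := rt_pow k x
  clear hSr
  generalize rt k x = S at *
  generalize Real.log x = L at *
  have hnPr : (0 : ℝ) ≤ nP := Nat.cast_nonneg _
  have hA0r : (0 : ℝ) ≤ A0 := Nat.cast_nonneg _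
  have hDr : (0 : ℝ) ≤ D := Nat.cast_nonneg _
  have p1 : 0 ≤ 24 / ε * ((D : ℝ) + 1) := by positivity
  have hL10 : 10000 ≤ L := by linarith
  have hL0 : 0 < L := by linarith
  have hL1 : 1 ≤ L := by linarith
  have hLL : ∀ {i j : ℕ}, i ≤ j → L ^ i ≤ L ^ j := fun h => pow_le_pow_right₀ hL1 h
  have hxr : (1 : ℝ) ≤ x := by exact_mod_cast hx1
  have hx0 : (0 : ℝ) < x := by linarith
  have hS1 : 1 ≤ S := (one_le_pow₀ hL1).trans hLS
  have hS0 : 0 < S := by linarith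
  obtain ⟨R, hR⟩ : ∃ R, R = S ^ k := ⟨_, rfl⟩
  rw [← hR] at hB3 ⊢
  have hSR : S * R = x := by rw [← hSp, hR]; ring
  have hR1 : 1 ≤ R := by rw [hR]; exact one_le_pow₀ hS1
  have hR0 : 0 < R := by linarith
  -- H
  obtain ⟨H, hH⟩ : ∃ H : ℕ, H = ⌈T * L⌉₊ := ⟨_, rfl⟩
  have hHge : T * L ≤ H := by rw [hH]; exact Nat.le_ceil _
  have hHle : (H : ℝ) ≤ (T + 1) * L := by
    have := Nat.ceil_lt_add_one (show 0 ≤ T * L by positivity)
    rw [← hH] at this
    linarith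
  have hH1 : 1 ≤ H := by
    rw [hH]
    exact Nat.ceil_pos.2 (by positivity)
  have hH1r : (1 : ℝ) ≤ H := by exact_mod_cast hH1
  have hL2 : (T + 1) * L ≤ L ^ 2 := by
    rw [sq]
    exact mul_le_mul_of_nonneg_right (by linarith) hL0.le
  have hL23 : L ^ 2 * L ≤ S := by
    have h1 : L ^ 3 ≤ S := (hLL (by omega)).trans hLS
    calc L ^ 2 * L = L ^ 3 := by ring
      _ ≤ S := h1
  have hHS : (H : ℝ) * L ≤ S := (mul_le_mul_of_nonneg_right (hHle.trans hL2) hL0.le).trans hL23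
  have hLS1 : L ≤ S := by
    have : 1 * L ≤ H * L := mul_le_mul_of_nonneg_right hH1r hL0.le
    linarith
  -- M
  obtain ⟨M, hM⟩ : ∃ M : ℕ, M = ⌈4 * S⌉₊ := ⟨_, rfl⟩
  have hMr : 4 * S ≤ M := by rw [hM]; exact Nat.le_ceil _
  have hM2 : (M : ℝ) + H ≤ 6 * S := by
    have h1 := Nat.ceil_lt_add_one (show 0 ≤ 4 * S by positivity)
    rw [← hM] at h1
    have h2 : (H : ℝ) * 10000 ≤ H * L := mul_le_mul_of_nonneg_left hL10 (by linarith)
    linarith
  have hlow : nP + H ≤ M := by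
    have h2 : (H : ℝ) * 10000 ≤ H * L := mul_le_mul_of_nonneg_left hL10 (by linarith)
    have : (nP : ℝ) + H ≤ M := by linarith
    exact_mod_cast this
  -- small shifts
  obtain ⟨η1, hη1⟩ : ∃ η1, η1 = min ε 1 / 12 := ⟨_, rfl⟩
  have hmin : 0 < min ε 1 := lt_min hε one_pos
  have hη0 : 0 < η1 := by rw [hη1]; positivity
  have hη1ε : 12 * η1 ≤ ε := by rw [hη1]; have := min_le_left ε 1; linarith
  obtain ⟨r, hr⟩ : ∃ r : ℝ, r = ε / 6 * x := ⟨_, rfl⟩
  -- the value at nP + H is small compared with r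
  have hrbig : (A0 : ℝ) + D * (H * (nP + H) ^ k) + 4 ≤ r := by
    have h1 : 24 / ε * ((D : ℝ) + 1) ≤ L := by linarith
    rw [div_mul_eq_mul_div, div_le_iff₀ hε] at h1
    have h2 : (A0 : ℝ) + 4 ≤ S := by linarith
    have h3 : (nP : ℝ) + H ≤ S := by
      have h2 : (H : ℝ) * 10000 ≤ H * L := mul_le_mul_of_nonneg_left hL10 (by linarith)
      have h5 : (nP : ℝ) + 10000 ≤ S := by linarith
      have h6 : (H : ℝ) ≤ S / 10000 := by rw [le_div_iff₀ (by norm_num)]; linarith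
      have h7 : (nP : ℝ) ≤ S / 10000 := by
        have h8 : (nP : ℝ) ≤ L := by linarith
        have h9 : L * 10000 ≤ S := by
          calc L * 10000 ≤ L * L ^ 2 := by
                apply mul_le_mul_of_nonneg_left _ hL0.le
                nlinarith
            _ = L ^ 2 * L := by ring
            _ ≤ S := hL23
        rw [le_div_iff₀ (by norm_num)]
        linarith
      linarith
    have h4 : (D : ℝ) * (H * (nP + H) ^ k) ≤ D * (S / L * R) := by
      apply mul_le_mul_of_nonneg_left _ hDr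
      apply mul_le_mul
      · rw [le_div_iff₀ hL0]; exact hHS
      · rw [hR]; exact pow_le_pow_left₀ (by positivity) h3 k
      · positivity
      · positivity
    have h5 : (D : ℝ) * (S / L * R) = D * x / L := by rw [← hSR]; ring
    have h6 : S ≤ x / L := by
      rw [le_div_iff₀ hL0, ← hSR]
      apply mul_le_mul_of_nonneg_left _ hS0.le
      have : S ≤ R := by rw [hR]; exact le_self_pow₀ hS1 (by omega)
      linarith
    have h7 : (x : ℝ) / L * (D + 1) ≤ r := by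
      rw [hr, div_mul_eq_mul_div, div_le_iff₀ hL0]
      have h8 : 24 * ((D : ℝ) + 1) * x ≤ L * ε * x := mul_le_mul_of_nonneg_right h1 hx0.le
      have h9 : 0 ≤ ((D : ℝ) + 1) * x := by positivity
      linarith
    have h8 : (x : ℝ) / L * (D + 1) = D * x / L + x / L := by ring
    linarith
  have hr1 : 1 ≤ r := by
    have : 0 ≤ (D : ℝ) * (H * (nP + H) ^ k) := by positivity
    linarith
  obtain ⟨Bs, hBs⟩ : ∃ Bs, Bs = (Icc (-(x : ℤ)) x).filter (fun t : ℤ => |(t : ℝ)| ≤ r) := ⟨_, rfl⟩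
  have hBsc : (#Bs : ℝ) ≤ 3 * r := by
    rw [hBs]
    exact small_shifts x _ hr1
  refine ⟨Bad1 ∪ Bs, union_subset hB1 (by rw [hBs]; exact filter_subset _ _), ?_, ?_⟩
  · have h1 : (#(Bad1 ∪ Bs) : ℝ) ≤ #Bad1 + #Bs := by exact_mod_cast card_union_le _ _
    have h2 : min (ε / 2) (1 / 2) * (x : ℝ) ≤ ε / 2 * x := mul_le_mul_of_nonneg_right (min_le_left _ _) hx0.le
    rw [hr] at hBsc
    linarith
  · intro t ht htB hrho hneg hpos
    rw [mem_union, not_or] at htB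
    have ht2 : r < |(t : ℝ)| := by
      by_contra hc
      push Not at hc
      exact htB.2 (by rw [hBs, mem_filter]; exact ⟨ht, hc⟩)
    have htx : |(t : ℝ)| ≤ x := by
      have := abs_le.2 (mem_Icc.1 ht)
      exact_mod_cast this
    -- z
    obtain ⟨z, hz⟩ : ∃ z : ℕ, z = ⌈L ^ B⌉₊ := ⟨_, rfl⟩
    have hz1 : L ^ B ≤ z := by rw [hz]; exact Nat.le_ceil _
    have hz3 : z ^ 3 ≤ x := by
      have h1 : (z : ℝ) ≤ L ^ (B + 1) := by
        have h2 := Nat.ceil_lt_add_one (show 0 ≤ L ^ B by positivity)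
        rw [← hz] at h2
        have h3 : 1 ≤ L ^ B := one_le_pow₀ hL1
        have h4 : L ^ B * 2 ≤ L ^ B * L := mul_le_mul_of_nonneg_left (by linarith only [hL10]) (by positivity)
        have h5 : L ^ (B + 1) = L ^ B * L := by ring
        linarith only [h2, h3, h4, h5]
      have h2 : (z : ℝ) ^ 3 ≤ x := by
        calc (z : ℝ) ^ 3 ≤ (L ^ (B + 1)) ^ 3 := pow_le_pow_left₀ (Nat.cast_nonneg _) h1 3
          _ = L ^ (3 * (B + 1)) := by rw [← pow_mul]; congr 1; ring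
          _ ≤ x := hLx
      exact_mod_cast h2
    obtain ⟨hh0, hwin⟩ := hB3 t ht htB.1 hrho z hz1 hz3
    clear hB3 hBsc hBs htB
    have hA0F : ∀ m : ℤ, |m| ≤ nP → ((|F.eval m| : ℤ) : ℝ) ≤ A0 := by
      intro m hm
      have h3 : (F.eval m).natAbs ≤ A0 := by
        rw [hA0]
        exact single_le_sum (f := fun m => (F.eval m).natAbs) (fun _ _ => Nat.zero_le _) (mem_Icc.2 (abs_le.1 hm))
      rw [Int.abs_eq_natAbs]
      exact_mod_cast h3
    have hDH : (0 : ℝ) ≤ D * (H * (nP + H) ^ k) := by positivity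
    have hsign : σ₁ * t < 0 ∨ σ₂ * t < 0 := by
      by_contra hcon
      push Not at hcon
      obtain ⟨hc1, hc2⟩ := hcon
      have ht0 : t ≠ 0 := by
        rintro rfl
        rw [Int.cast_zero, abs_zero] at ht2
        linarith only [ht2, hr1]
      rcases lt_or_gt_of_ne ht0 with hneg' | hpos'
      · -- t < 0
        have hs1 : σ₁ = -1 := by rcases hσ₁ with h | h; · rw [h] at hc1; omega
                                 · exact h
        have hs2 : σ₂ = -1 := by rcases hσ₂ with h | h; · rw [h] at hc2; omega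
                                 · exact h
        obtain ⟨m, hm⟩ := hpos
        rcases le_or_gt |m| (nP : ℤ) with h | h
        · have h3 := hA0F m h
          rw [Int.cast_abs] at h3
          have h4 := (abs_le.1 h3).2
          have htn : (t : ℝ) < 0 := by exact_mod_cast hneg'
          rw [abs_of_neg htn] at ht2
          have h5 : (0 : ℝ) < ((F.eval m : ℤ) : ℝ) + t := by exact_mod_cast hm
          linarith only [h4, ht2, h5, hrbig, hDH]
        · rcases le_total 0 m with h0 | h0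
          · obtain ⟨n, rfl⟩ := Int.eq_ofNat_of_zero_le h0
            rw [abs_of_nonneg h0] at h
            have h3 := (hgr1 n (by omega)).2.1
            rw [hs1] at h3
            have h4 : (0 : ℤ) ≤ (n : ℤ) ^ (k + 1) := by positivity
            linarith only [h3, h4, hm, hneg']
          · obtain ⟨n, hn⟩ := Int.eq_ofNat_of_zero_le (show 0 ≤ -m by omega)
            rw [abs_of_nonpos h0, hn] at h
            have h3 := (hgr2 n (by omega)).2.1
            rw [hevn, hs2, ← hn, neg_neg] at h3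
            have h4 : (0 : ℤ) ≤ (-m) ^ (k + 1) := pow_nonneg (by omega) _
            linarith only [h3, h4, hm, hneg']
      · have hs1 : σ₁ = 1 := by rcases hσ₁ with h | h; · exact h
                                · rw [h] at hc1; omega
        have hs2 : σ₂ = 1 := by rcases hσ₂ with h | h; · exact h
                                · rw [h] at hc2; omega
        obtain ⟨m, hm⟩ := hneg
        rcases le_or_gt |m| (nP : ℤ) with h | h
        · have h3 := hA0F m h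
          rw [Int.cast_abs] at h3
          have h4 := (abs_le.1 h3).1
          have htn : (0 : ℝ) < t := by exact_mod_cast hpos'
          rw [abs_of_pos htn] at ht2
          have h5 : ((F.eval m : ℤ) : ℝ) + t < 0 := by exact_mod_cast hm
          linarith only [h4, ht2, h5, hrbig, hDH]
        · rcases le_total 0 m with h0 | h0
          · obtain ⟨n, rfl⟩ := Int.eq_ofNat_of_zero_le h0
            rw [abs_of_nonneg h0] at h
            have h3 := (hgr1 n (by omega)).2.1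
            rw [hs1] at h3
            have h4 : (0 : ℤ) ≤ (n : ℤ) ^ (k + 1) := by positivity
            linarith only [h3, h4, hm, hpos']
          · obtain ⟨n, hn⟩ := Int.eq_ofNat_of_zero_le (show 0 ≤ -m by omega)
            rw [abs_of_nonpos h0, hn] at h
            have h3 := (hgr2 n (by omega)).2.1
            rw [hevn, hs2, ← hn, neg_neg] at h3
            have h4 : (0 : ℤ) ≤ (-m) ^ (k + 1) := pow_nonneg (by omega) _
            linarith only [h3, h4, hm, hpos']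
    have hlipD : ∀ (P : ℤ[X]) (D' : ℕ), D' ≤ D → (∀ a b y : ℤ, 1 ≤ y → |a| ≤ y → |b| ≤ y → |P.eval a - P.eval b| ≤ D' * (|a - b| * y ^ k)) →
        ∀ a b y : ℤ, 1 ≤ y → |a| ≤ y → |b| ≤ y → |P.eval a - P.eval b| ≤ D * (|a - b| * y ^ k) := by
      intro P D' hD' h a b y hy ha hb
      refine (h a b y hy ha hb).trans ?_
      apply mul_le_mul_of_nonneg_right _ (by positivity)
      exact_mod_cast hD'
    have hkey : ∃ a₁ b₁ : ℤ, b₁ = a₁ + H ∧ ∀ m ∈ Ioc a₁ b₁, 2 ≤ F.eval m + t ∧ ((F.eval m + t : ℤ) : ℝ) ≤ κ * (H * R) := by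
      rcases hsign with hs | hs
      · obtain ⟨a, ha⟩ := key_root k F nP D H M σ₁ hσ₁ hH1 (by omega) (fun n hn => ⟨(hgr1 n (by omega)).1, (hgr1 n (by omega)).2.1⟩)
          (hlipD F D1 (by omega) hl1) t x S R κ r A0 hSp hR hS1 hMr hM2 hlow htx ht2
          (hA0F nP (by rw [abs_of_nonneg (Int.natCast_nonneg _)])) hrbig hκ hs
        refine ⟨a, a + H, rfl, fun m hm => ?_⟩
        rw [mem_Ioc] at hm
        obtain ⟨n, rfl⟩ := Int.eq_ofNat_of_zero_le (show 0 ≤ m by omega)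
        exact ha n (by rw [mem_Ioc]; omega)
      · obtain ⟨a, ha⟩ := key_root k (F.comp (-X)) nP D H M σ₂ hσ₂ hH1 (by omega)
          (fun n hn => ⟨(hgr2 n (by omega)).1, (hgr2 n (by omega)).2.1⟩)
          (hlipD (F.comp (-X)) D2 (by omega) hl2) t x S R κ r A0 hSp hR hS1 hMr hM2 hlow htx ht2
          (by rw [hevn]; exact hA0F (-nP) (by rw [abs_neg, abs_of_nonneg (Int.natCast_nonneg _)])) hrbig hκ hs
        refine ⟨-a - H - 1, -a - 1, by ring, fun m hm => ?_⟩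
        rw [mem_Ioc] at hm
        obtain ⟨n, hn⟩ := Int.eq_ofNat_of_zero_le (show 0 ≤ -m by omega)
        have h3 := ha n (by rw [mem_Ioc]; omega)
        rw [hevn, ← hn, neg_neg] at h3
        exact h3
    obtain ⟨a₁, b₁, hab, hv⟩ := hkey
    have hlen : (b₁ : ℝ) - a₁ = H := by rw [hab]; push_cast; ring
    have hHz : (1 : ℤ) ≤ H := by exact_mod_cast hH1
    have hw := hwin a₁ b₁ (by omega) (by rw [hlen]; exact hHge) (by rw [hlen]; exact hv)
    have hmin2 : min (ε / 2) (1 / 2) ≤ (1 / 2 : ℝ) := min_le_right _ _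
    have hW : 0 < ∑ m ∈ Ioc a₁ b₁, wt (F.eval m + t).natAbs := by
      apply sum_pos
      · intro m hm
        have h3 := (hv m hm).1
        unfold wt
        apply one_div_pos.2 (Real.log_pos _)
        have h4 : 2 ≤ (F.eval m + t).natAbs := by omega
        have h5 : (2 : ℝ) ≤ ((F.eval m + t).natAbs : ℝ) := by exact_mod_cast h4
        linarith only [h5]
      · exact ⟨b₁, mem_Ioc.2 ⟨by omega, le_rfl⟩⟩
    have hhW := mul_pos hh0 hW
    have hcount : (0 : ℝ) < (#((Ioc a₁ b₁).filter (fun m => (F.eval m + t).natAbs.Prime)) : ℝ) := by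
      have h3 := (abs_le.1 hw).1
      have h4 := mul_le_mul_of_nonneg_right hmin2 hhW.le
      linarith only [h3, h4, hhW]
    have hcard : 0 < #((Ioc a₁ b₁).filter (fun m => (F.eval m + t).natAbs.Prime)) := by exact_mod_cast hcount
    obtain ⟨m, hm⟩ := card_pos.1 hcard
    rw [mem_filter] at hm
    obtain ⟨h3, h4⟩ := hv m hm.1
    refine ⟨m, ?_, h4.trans ?_⟩
    · have e : (F.eval m + t).toNat = (F.eval m + t).natAbs := by omega
      rw [e]; exact hm.2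
    · calc κ * (H * R) ≤ κ * (((T + 1) * L) * R) := by gcongr
        _ = κ * (T + 1) * (R * L) := by ring

end Pool.Agent.TH892.OP
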