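import Pool.Agent.TH892.OP.C1
import Pool.Agent.TH204.WR.W1

/-!
Autocorrelations of the difference of two sieve models.
-/

set_option autoImplicit false

namespace Pool.Agent.TH892.OP

open Finset
open Pool.Agent.H373R2.T7 (pz Vz lamz mem_pz Vz_ge Vz_inv_le Vz_le_one)
open Pool.Agent.TH892.SW (fl_set rc rc_cor rc_zero rc_big)
open Pool.Agent.TH204.WR (rc_eq rc_neg cutf cutf_in cutf_out)
open Pool.Agent.TH892.OW

open Classical in
lemma NN_eq (a b N : ℕ) (h : ℤ) : (NN a b N h : ℝ) = ∑ v ∈ Icc 1 N,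
    (if ∀ p ∈ pz a, ¬ (p : ℤ) ∣ (v : ℤ) then (1 : ℝ) else 0) * (if ∀ p ∈ pz b, ¬ (p : ℤ) ∣ (v : ℤ) + h then (1 : ℝ) else 0) := by
  unfold NN
  rw [card_filter]
  push_cast
  refine sum_congr rfl fun v _ => ?_
  by_cases h1 : ∀ p ∈ pz a, ¬ (p : ℤ) ∣ (v : ℤ)
  · by_cases h2 : ∀ p ∈ pz b, ¬ (p : ℤ) ∣ (v : ℤ) + h
    · rw [if_pos h1, if_pos h2, if_pos ⟨h1, h2⟩, one_mul]
    · rw [if_neg h2, if_neg (fun h => h2 h.2), mul_zero]
  · rw [if_neg h1, if_neg (fun h => h1 h.1), zero_mul]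

lemma rc_nat (Y : ℕ) (f : ℤ → ℝ) (h : ℤ) (hh : 0 < h) :
    rc Y f h = ∑ v ∈ Icc 1 ((Y : ℤ) - h).toNat, f (v : ℤ) * f ((v : ℤ) + h) := by
  rw [rc_eq]
  symm
  apply sum_of_injOn (fun v : ℕ => (v : ℤ))
  · intro u _ u' _ huu
    simp only at huu
    exact_mod_cast huu
  · intro u hu
    rw [mem_coe, mem_Icc] at hu
    rw [mem_coe, mem_Icc]
    beta_reduce
    constructor <;> omega
  · intro r hr hr2
    rw [mem_Icc] at hr
    rw [cutf_out (x := r + h), mul_zero]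
    rw [mem_Icc]
    intro hc
    apply hr2
    refine ⟨r.toNat, ?_, ?_⟩
    · rw [mem_coe, mem_Icc]; omega
    · simp only; omega
  · intro u hu
    rw [mem_Icc] at hu
    rw [cutf_in (by rw [mem_Icc]; omega), cutf_in (by rw [mem_Icc]; omega)]

lemma sig_neg (w z : ℕ) (h : ℤ) : sig w z (-h) = sig w z h := by
  unfold sig
  simp only [dvd_neg]

lemma rc_ar (N Y Z W g g' s e E n1 n2 n3 n4 p1 p2 p3 p4 : ℝ) (hN : 0 ≤ N) (hNY : N ≤ Y) (hZ : 0 ≤ Z) (hW : 0 ≤ W) (hWZ : W ≤ Z)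
    (hs : 0 ≤ s) (he : 0 ≤ e) (hE : 0 ≤ E) (hg : 0 ≤ g)
    (h1 : |n1 - N * p1| ≤ e * (N * p1) + E) (h2 : |n2 - N * p2| ≤ e * (N * p2) + E)
    (h3 : |n3 - N * p3| ≤ e * (N * p3) + E) (h4 : |n4 - N * p4| ≤ e * (N * p4) + E)
    (q1 : Z * Z * p1 = g * g') (q2 : Z * W * p2 = g) (q3 : W * Z * p3 = g) (q4 : W * W * p4 = g)
    (hgZ : g ≤ Z) (hggZ : g * g' ≤ Z) (hg' : g' - 1 ≤ Z * (2 * s)) :
    Z * Z * n1 - Z * W * n2 - W * Z * n3 + W * W * n4 ≤ Y * (Z ^ 2 * (2 * s) + 4 * e * Z) + 4 * Z ^ 2 * E := by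
  have a1 := mul_le_mul_of_nonneg_left (abs_le.1 h1).2 (mul_nonneg hZ hZ)
  have a2 := mul_le_mul_of_nonneg_left (abs_le.1 h2).1 (mul_nonneg hZ hW)
  have a3 := mul_le_mul_of_nonneg_left (abs_le.1 h3).1 (mul_nonneg hW hZ)
  have a4 := mul_le_mul_of_nonneg_left (abs_le.1 h4).2 (mul_nonneg hW hW)
  have b1 : Z * Z * (n1 - N * p1) = Z * Z * n1 - N * (Z * Z * p1) := by ring
  have b2 : Z * W * (n2 - N * p2) = Z * W * n2 - N * (Z * W * p2) := by ring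
  have b3 : W * Z * (n3 - N * p3) = W * Z * n3 - N * (W * Z * p3) := by ring
  have b4 : W * W * (n4 - N * p4) = W * W * n4 - N * (W * W * p4) := by ring
  have c1 : Z * Z * (e * (N * p1) + E) = e * N * (Z * Z * p1) + Z * Z * E := by ring
  have c2 : Z * W * -(e * (N * p2) + E) = -(e * N * (Z * W * p2) + Z * W * E) := by ring
  have c3 : W * Z * -(e * (N * p3) + E) = -(e * N * (W * Z * p3) + W * Z * E) := by ring
  have c4 : W * W * (e * (N * p4) + E) = e * N * (W * W * p4) + W * W * E := by ring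
  rw [b1, c1, q1] at a1
  rw [b2, c2, q2] at a2
  rw [b3, c3, q3] at a3
  rw [b4, c4, q4] at a4
  clear b1 b2 b3 b4 c1 c2 c3 c4 q1 q2 q3 q4 h1 h2 h3 h4
  have d1 : g * (g' - 1) ≤ Z * (Z * (2 * s)) := by
    calc g * (g' - 1) ≤ g * (Z * (2 * s)) := mul_le_mul_of_nonneg_left hg' hg
      _ ≤ Z * (Z * (2 * s)) := mul_le_mul_of_nonneg_right hgZ (by positivity)
  have d2 : N * (g * (g' - 1)) ≤ Y * (Z * (Z * (2 * s))) :=
    (mul_le_mul_of_nonneg_left d1 hN).trans (mul_le_mul_of_nonneg_right hNY (by positivity))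
  have d3 : e * N * (g * g' + 3 * g) ≤ e * Y * (4 * Z) := by
    calc e * N * (g * g' + 3 * g) ≤ e * N * (4 * Z) := mul_le_mul_of_nonneg_left (by linarith) (by positivity)
      _ ≤ e * Y * (4 * Z) := mul_le_mul_of_nonneg_right (mul_le_mul_of_nonneg_left hNY he) (by positivity)
  have d4 : Z * W ≤ Z * Z := mul_le_mul_of_nonneg_left hWZ hZ
  have d5 : W * W ≤ Z * Z := mul_le_mul hWZ hWZ hW hZ
  have d6 : (Z * Z + Z * W + W * Z + W * W) * E ≤ 4 * (Z * Z) * E := mul_le_mul_of_nonneg_right (by linarith) hE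
  have e1 : N * (g * (g' - 1)) = N * (g * g') - N * g := by ring
  have e2 : e * N * (g * g' + 3 * g) = e * N * (g * g') + 3 * (e * N * g) := by ring
  have e3 : (Z * Z + Z * W + W * Z + W * W) * E = Z * Z * E + Z * W * E + W * Z * E + W * W * E := by ring
  have e4 : Y * (Z ^ 2 * (2 * s) + 4 * e * Z) + 4 * Z ^ 2 * E = Y * (Z * (Z * (2 * s))) + e * Y * (4 * Z) + 4 * (Z * Z) * E := by ring
  rw [e1] at d2
  rw [e2] at d3
  rw [e3] at d6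
  rw [e4]
  linarith

/-- **autocorrelations of the difference of the models** -/
theorem rc_fz : ∃ C1 y0 : ℕ, 1 ≤ C1 ∧ 2 ≤ y0 ∧ ∀ b : ℕ, C1 ≤ b → ∀ w z : ℕ, y0 ≤ w → w ≤ z → ∀ (Y : ℕ) (h : ℤ), h ≠ 0 →
    rc Y (fz w z) h ≤ Y * ((Vz z)⁻¹ ^ 2 * (2 * sig w z h) + 4 * (1 / 2) ^ b * (Vz z)⁻¹) +
      4 * (Vz z)⁻¹ ^ 2 * (z : ℝ) ^ (C1 * b) := by
  classical
  obtain ⟨C1, y0, hC1, hy0, hfl⟩ := pair_fl
  refine ⟨C1, y0, hC1, hy0, ?_⟩
  suffices H : ∀ b : ℕ, C1 ≤ b → ∀ w z : ℕ, y0 ≤ w → w ≤ z → ∀ (Y : ℕ) (h : ℤ), 0 < h →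
    rc Y (fz w z) h ≤ Y * ((Vz z)⁻¹ ^ 2 * (2 * sig w z h) + 4 * (1 / 2) ^ b * (Vz z)⁻¹) +
      4 * (Vz z)⁻¹ ^ 2 * (z : ℝ) ^ (C1 * b) by
    intro b hb w z hw hwz Y h hh
    rcases lt_or_gt_of_ne hh with h1 | h1
    · have h2 := H b hb w z hw hwz Y (-h) (by omega)
      rw [rc_neg, sig_neg] at h2
      exact h2
    · exact H b hb w z hw hwz Y h h1
  intro b hb w z hw hwz Y h hh
  rw [rc_nat Y _ h hh]
  set N := ((Y : ℤ) - h).toNat with hN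
  have hNY : (N : ℝ) ≤ Y := by
    have : N ≤ Y := by omega
    exact_mod_cast this
  obtain ⟨Z, hZ⟩ : ∃ Z, Z = (Vz z)⁻¹ := ⟨_, rfl⟩
  obtain ⟨W, hW⟩ : ∃ W, W = (Vz w)⁻¹ := ⟨_, rfl⟩
  have hZ0 : 0 ≤ Z := by rw [hZ]; exact (inv_pos.2 (Vz_pos z)).le
  have hW0 : 0 ≤ W := by rw [hW]; exact (inv_pos.2 (Vz_pos w)).le
  have hWZ : W ≤ Z := by rw [hW, hZ]; exact Vz_anti hwz
  have e1 : ∑ v ∈ Icc 1 N, fz w z (v : ℤ) * fz w z ((v : ℤ) + h) =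
      Z * Z * (NN z z N h : ℝ) - Z * W * (NN z w N h : ℝ) - W * Z * (NN w z N h : ℝ) + W * W * (NN w w N h : ℝ) := by
    rw [NN_eq, NN_eq, NN_eq, NN_eq, mul_sum, mul_sum, mul_sum, mul_sum, ← sum_sub_distrib, ← sum_sub_distrib, ← sum_add_distrib]
    refine sum_congr rfl fun v hv => ?_
    rw [mem_Icc] at hv
    unfold fz
    rw [lz_eq z (v : ℤ) (by exact_mod_cast hv.1), lz_eq w (v : ℤ) (by exact_mod_cast hv.1),
      lz_eq z ((v : ℤ) + h) (by omega), lz_eq w ((v : ℤ) + h) (by omega), ← hZ, ← hW]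
    ring
  rw [e1, ← hZ]
  have a1 := hfl b hb z (by omega) z z le_rfl le_rfl N h
  have a2 := hfl b hb z (by omega) z w le_rfl hwz N h
  have a3 := hfl b hb z (by omega) w z hwz le_rfl N h
  have a4 := hfl b hb z (by omega) w w hwz hwz N h
  have q1 := dens_zz w z h
  have q2 := dens_w z w w z le_rfl hwz h (by intro p hp; omega)
  have q3 := dens_w w z w z hwz le_rfl h (by intro p hp; omega)
  have q4 := dens_w w w w z hwz hwz h (by intro p hp; omega)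
  rw [← hZ] at q1
  rw [← hZ, ← hW] at q2 q3
  rw [← hW] at q4
  have g1' := g0_le w z h
  have g2' := g01_le w z h
  have g3' := g1_sub w z h
  rw [← hZ] at g1' g2' g3'
  exact rc_ar N Y Z W (g0 w z h) (g1 w z h) (sig w z h) ((1 / 2) ^ b) ((z : ℝ) ^ (C1 * b)) _ _ _ _ _ _ _ _
    (Nat.cast_nonneg _) hNY hZ0 hW0 hWZ (sig_nonneg w z h) (by positivity) (by positivity) (g0_nonneg w z h)
    a1 a2 a3 a4 q1 q2 q3 q4 g1' g2' g3'

end Pool.Agent.TH892.OP
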