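import Pool.Agent.TH892.OP.C2
import Pool.Agent.TH204.WR.W4

/-!
The second moment of the difference of two sieve models at polynomial values.
-/

set_option autoImplicit false

namespace Pool.Agent.TH892.OP

open Finset Polynomial
open Pool.Agent.H373R2.T7 (pz Vz lamz mem_pz Vz_ge Vz_inv_le Vz_le_one)
open Pool.Agent.TH892.SW (fl_set rc rc_cor rc_zero rc_big)
open Pool.Agent.TH204.WR (rc_eq rc_neg cutf cutf_in cutf_out TT second_diff taylor_top)
open Pool.Agent.TH892.OW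

lemma root_count (H : ℤ[X]) (k p M : ℕ) (hp : p.Prime) (hd : H.natDegree ≤ k) (hc : ¬ (p : ℤ) ∣ H.coeff k) :
    #((range (M + 1)).filter (fun n : ℕ => (p : ℤ) ∣ H.eval (n : ℤ))) ≤ k * (M / p + 1) := by
  have : Fact p.Prime := ⟨hp⟩
  obtain ⟨Hp, hHp⟩ : ∃ Hp : (ZMod p)[X], Hp = H.map (Int.castRingHom (ZMod p)) := ⟨_, rfl⟩
  have hne : Hp ≠ 0 := by
    intro h0
    apply hc
    have h1 : Hp.coeff k = 0 := by rw [h0, coeff_zero]
    rw [hHp, coeff_map] at h1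
    rw [← ZMod.intCast_zmod_eq_zero_iff_dvd]
    simpa using h1
  have hev : ∀ x : ℤ, ((p : ℤ) ∣ H.eval x) ↔ Hp.eval (x : ZMod p) = 0 := by
    intro x
    rw [← ZMod.intCast_zmod_eq_zero_iff_dvd, hHp]
    have h := eval_intCast_map (Int.castRingHom (ZMod p)) H x
    simp only [eq_intCast, Int.cast_id] at h
    rw [h]
  have hR : #((range p).filter (fun a : ℕ => (p : ℤ) ∣ H.eval (a : ℤ))) ≤ k := by
    have h1 : #((range p).filter (fun a : ℕ => (p : ℤ) ∣ H.eval (a : ℤ))) ≤ #Hp.roots.toFinset := by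
      apply card_le_card_of_injOn (fun a : ℕ => (a : ZMod p))
      · intro a ha
        rw [mem_coe, mem_filter] at ha
        rw [mem_coe, Multiset.mem_toFinset, mem_roots hne]
        have := (hev a).1 ha.2
        simpa using this
      · intro a ha b hb hab
        rw [mem_coe, mem_filter, mem_range] at ha hb
        simp only at hab
        have h2 := congrArg ZMod.val hab
        rwa [ZMod.val_cast_of_lt ha.1, ZMod.val_cast_of_lt hb.1] at h2
    refine h1.trans ((Multiset.toFinset_card_le _).trans ((card_roots' _).trans ?_))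
    rw [hHp]
    exact natDegree_map_le.trans hd
  have h2 : #((range (M + 1)).filter (fun n : ℕ => (p : ℤ) ∣ H.eval (n : ℤ))) ≤
      #(((range p).filter (fun a : ℕ => (p : ℤ) ∣ H.eval (a : ℤ))) ×ˢ (range (M / p + 1))) := by
    apply card_le_card_of_injOn (fun n => (n % p, n / p))
    · intro n hn
      rw [mem_coe, mem_filter, mem_range] at hn
      rw [mem_coe, mem_product, mem_filter, mem_range, mem_range]
      refine ⟨⟨Nat.mod_lt _ hp.pos, ?_⟩, Nat.lt_succ_of_le (Nat.div_le_div_right (by omega))⟩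
      rw [hev] at hn ⊢
      have : ((((n % p : ℕ) : ℤ)) : ZMod p) = ((n : ℤ) : ZMod p) := by simp
      rw [this]
      exact hn.2
    · intro n _ n' _ h
      simp only [Prod.mk.injEq] at h
      rw [← Nat.div_add_mod n p, ← Nat.div_add_mod n' p, h.1, h.2]
  refine h2.trans ?_
  rw [card_product, card_range]
  exact Nat.mul_le_mul_right _ hR

lemma inv_sq_sum (w z : ℕ) (hw : 1 ≤ w) : ∑ p ∈ (pz z).filter (fun p => w < p), 1 / (p : ℝ) ^ 2 ≤ 1 / (w : ℝ) := by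
  have h5 : ∑ p ∈ (pz z).filter (fun p => w < p), 1 / (p : ℝ) ^ 2 ≤ ∑ n ∈ Ioc w (w + z), (1 / ((n : ℝ) - 1) - 1 / n) := by
    calc ∑ p ∈ (pz z).filter (fun p => w < p), 1 / (p : ℝ) ^ 2 ≤ ∑ n ∈ Ioc w (w + z), 1 / (n : ℝ) ^ 2 := by
          apply sum_le_sum_of_subset_of_nonneg
          · intro p hp
            rw [mem_filter, mem_pz] at hp
            rw [mem_Ioc]
            omega
          · intro _ _ _; positivity
      _ ≤ _ := by
          refine sum_le_sum fun n hn => ?_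
          rw [mem_Ioc] at hn
          have h6 : (2 : ℝ) ≤ n := by exact_mod_cast (by omega : 2 ≤ n)
          have h7 : (n : ℝ) - 1 ≠ 0 := by linarith
          have h8 : (n : ℝ) ≠ 0 := by linarith
          rw [div_sub_div _ _ h7 h8, div_le_div_iff₀ (by positivity) (by apply mul_pos <;> linarith)]
          nlinarith
  refine h5.trans ?_
  have h6 : ∀ z : ℕ, w ≤ z → ∑ n ∈ Ioc w z, (1 / ((n : ℝ) - 1) - 1 / n) = 1 / (w : ℝ) - 1 / z := by
    intro z hz
    induction z, hz using Nat.le_induction with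
    | base => simp
    | succ z hz ih =>
      rw [sum_Ioc_succ_top hz, ih]
      push_cast
      ring
  rw [h6 (w + z) (by omega)]
  have : 0 ≤ 1 / ((w + z : ℕ) : ℝ) := by positivity
  linarith

/-- the average of the sum over the large primes dividing a difference -/
theorem sig_sum (k : ℕ) (F : ℤ[X]) (hF : F.natDegree = k + 1) (w z M N0 δ κ : ℕ)
    (hw : (k + 1) * F.leadingCoeff.natAbs ≤ w) (hw1 : 1 ≤ w) (hδ : 1 ≤ δ) (hκ : Nat.log 2 δ ≤ κ) :
    ∑ n ∈ Icc N0 M, sig w z (F.eval ((n + δ : ℕ) : ℤ) - F.eval (n : ℤ)) ≤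
      k * (M / w) + k * z + ((M : ℝ) + 1) * (κ / w) := by
  classical
  have hF0 : F ≠ 0 := by
    intro h
    rw [h, natDegree_zero] at hF
    omega
  have hl : F.leadingCoeff ≠ 0 := leadingCoeff_ne_zero.2 hF0
  obtain ⟨H, hH⟩ : ∃ H : ℤ[X], H = taylor ((δ : ℕ) : ℤ) F - taylor (0 : ℤ) F := ⟨_, rfl⟩
  have hc := taylor_top k F hF.le
  have hHd : H.natDegree ≤ k := by
    rw [natDegree_le_iff_coeff_eq_zero]
    intro j hj
    rw [hH, coeff_sub, hc _ j (by omega), hc _ j (by omega), if_neg (by omega), if_neg (by omega)]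
    ring
  have hHc : H.coeff k = ((k : ℤ) + 1) * F.leadingCoeff * δ := by
    rw [hH, coeff_sub, hc _ k le_rfl, hc _ k le_rfl, if_pos rfl, if_pos rfl]
    have : F.leadingCoeff = F.coeff (k + 1) := by rw [leadingCoeff, hF]
    rw [this]
    ring
  have hev : ∀ n : ℕ, F.eval ((n + δ : ℕ) : ℤ) - F.eval (n : ℤ) = H.eval (n : ℤ) := by
    intro n
    rw [hH, eval_sub, taylor_eval, taylor_eval]
    push_cast
    simp
  simp_rw [hev]
  unfold sig
  obtain ⟨Q, hQ⟩ : ∃ Q, Q = (pz z).filter (fun p : ℕ => w < p) := ⟨_, rfl⟩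
  have hQm : ∀ p ∈ Q, p.Prime ∧ w < p ∧ p ≤ z := by
    intro p hp
    rw [hQ, mem_filter, mem_pz] at hp
    exact ⟨hp.1.2, hp.2, hp.1.1⟩
  have e1 : ∀ h : ℤ, ∑ p ∈ (pz z).filter (fun p : ℕ => w < p ∧ (p : ℤ) ∣ h), 1 / (p : ℝ) =
      ∑ p ∈ Q, if (p : ℤ) ∣ h then 1 / (p : ℝ) else 0 := by
    intro h
    rw [hQ, ← sum_filter, filter_filter]
  simp_rw [e1]
  rw [sum_comm]
  have hw0 : (0 : ℝ) < w := by exact_mod_cast hw1
  have hM0 : (0 : ℝ) ≤ M := Nat.cast_nonneg _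
  have h1 : ∀ p ∈ Q, ∑ n ∈ Icc N0 M, (if (p : ℤ) ∣ H.eval (n : ℤ) then 1 / (p : ℝ) else 0) ≤
      k * M * (1 / (p : ℝ) ^ 2) + k + (if p ∣ δ then ((M : ℝ) + 1) / w else 0) := by
    intro p hp
    obtain ⟨hpp, hpw, hpz⟩ := hQm p hp
    have hp0 : (0 : ℝ) < p := by exact_mod_cast hpp.pos
    have hp1 : (1 : ℝ) ≤ p := by exact_mod_cast hpp.one_le
    have hwp : (w : ℝ) ≤ p := by exact_mod_cast hpw.le
    rw [← sum_filter, sum_const, nsmul_eq_mul]
    have hsub : #((Icc N0 M).filter (fun n : ℕ => (p : ℤ) ∣ H.eval (n : ℤ))) ≤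
        #((range (M + 1)).filter (fun n : ℕ => (p : ℤ) ∣ H.eval (n : ℤ))) := by
      apply card_le_card
      intro n hn
      rw [mem_filter, mem_Icc] at hn
      rw [mem_filter, mem_range]
      exact ⟨by omega, hn.2⟩
    split_ifs with hd
    · have h2 : (#((Icc N0 M).filter (fun n : ℕ => (p : ℤ) ∣ H.eval (n : ℤ))) : ℝ) ≤ (M : ℝ) + 1 := by
        have := hsub.trans (card_filter_le _ _)
        rw [card_range] at this
        exact_mod_cast this
      have h3 : (#((Icc N0 M).filter (fun n : ℕ => (p : ℤ) ∣ H.eval (n : ℤ))) : ℝ) * (1 / p) ≤ (M + 1) * (1 / w) :=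
        mul_le_mul h2 (one_div_le_one_div_of_le hw0 hwp) (by positivity) (by positivity)
      have h4 : 0 ≤ (k : ℝ) * M * (1 / (p : ℝ) ^ 2) + k := by positivity
      have h5 : ((M : ℝ) + 1) * (1 / w) = (M + 1) / w := by ring
      linarith
    · have hcop : ¬ (p : ℤ) ∣ H.coeff k := by
        rw [hHc]
        intro h
        have hpi : Prime (p : ℤ) := Nat.prime_iff_prime_int.1 hpp
        rcases hpi.dvd_or_dvd h with h2 | h2
        · have h3 := Int.natAbs_dvd_natAbs.2 h2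
          rw [Int.natAbs_natCast, Int.natAbs_mul] at h3
          have h4 : ((k : ℤ) + 1).natAbs = k + 1 := by omega
          rw [h4] at h3
          have h5 := Nat.le_of_dvd (Nat.mul_pos (by omega) (Int.natAbs_pos.2 hl)) h3
          omega
        · exact hd (by exact_mod_cast h2)
      have h2 := hsub.trans (root_count H k p M hpp hHd hcop)
      have h3 : (#((Icc N0 M).filter (fun n : ℕ => (p : ℤ) ∣ H.eval (n : ℤ))) : ℝ) ≤ k * (M / p + 1) := by
        calc (#((Icc N0 M).filter (fun n : ℕ => (p : ℤ) ∣ H.eval (n : ℤ))) : ℝ) ≤ ((k * (M / p + 1) : ℕ) : ℝ) := by exact_mod_cast h2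
          _ ≤ k * (M / p + 1) := by
              push_cast
              apply mul_le_mul_of_nonneg_left _ (Nat.cast_nonneg _)
              have := Nat.cast_div_le (α := ℝ) (m := M) (n := p)
              linarith
      calc (#((Icc N0 M).filter (fun n : ℕ => (p : ℤ) ∣ H.eval (n : ℤ))) : ℝ) * (1 / p) ≤ (k * (M / p + 1)) * (1 / p) :=
            mul_le_mul_of_nonneg_right h3 (by positivity)
        _ = k * M * (1 / (p : ℝ) ^ 2) + k * (1 / p) := by field_simp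
        _ ≤ k * M * (1 / (p : ℝ) ^ 2) + k * 1 := by
            gcongr
            rw [div_le_one hp0]; exact hp1
        _ = _ := by ring
  refine (sum_le_sum h1).trans ?_
  rw [sum_add_distrib, sum_add_distrib, ← mul_sum, sum_const, nsmul_eq_mul, ← sum_filter, sum_const, nsmul_eq_mul]
  have h2 : ∑ p ∈ Q, 1 / (p : ℝ) ^ 2 ≤ 1 / (w : ℝ) := by rw [hQ]; exact inv_sq_sum w z hw1
  have h3 : (#Q : ℝ) ≤ z := by
    have : Q ⊆ Icc 1 z := by
      intro p hp
      have := hQm p hp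
      rw [mem_Icc]; omega
    have h4 := card_le_card this
    rw [Nat.card_Icc, Nat.add_sub_cancel] at h4
    exact_mod_cast h4
  have h4 : (#(Q.filter (fun p => p ∣ δ)) : ℝ) ≤ κ := by
    have h5 := card_pf z w (δ : ℤ) (by exact_mod_cast (by omega : δ ≠ 0)) κ (by rw [Int.natAbs_natCast]; exact hκ)
    have h6 : Q.filter (fun p => p ∣ δ) = (pz z).filter (fun p : ℕ => w < p ∧ (p : ℤ) ∣ (δ : ℤ)) := by
      rw [hQ, filter_filter]
      apply filter_congr
      intro p _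
      rw [Int.natCast_dvd_natCast]
    rw [h6]
    exact_mod_cast h5
  have h5 : (k : ℝ) * M * ∑ p ∈ Q, 1 / (p : ℝ) ^ 2 ≤ k * M * (1 / w) := mul_le_mul_of_nonneg_left h2 (by positivity)
  have h6 : (#Q : ℝ) * k ≤ z * k := mul_le_mul_of_nonneg_right h3 (Nat.cast_nonneg _)
  have h7 : (#(Q.filter (fun p => p ∣ δ)) : ℝ) * (((M : ℝ) + 1) / w) ≤ κ * ((M + 1) / w) :=
    mul_le_mul_of_nonneg_right h4 (by positivity)
  have e2 : (k : ℝ) * (M / w) + k * z + ((M : ℝ) + 1) * (κ / w) = k * M * (1 / w) + z * k + κ * ((M + 1) / w) := by ring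
  rw [e2]
  linarith

/-- **the second moment of the difference of the models** -/
theorem second_fz (k : ℕ) : ∃ C1 y0 : ℕ, 1 ≤ C1 ∧ 2 ≤ y0 ∧ ∀ b : ℕ, C1 ≤ b → ∀ w z : ℕ, y0 ≤ w → w ≤ z →
    ∀ F : ℤ[X], F.natDegree = k + 1 → (k + 1) * F.leadingCoeff.natAbs ≤ w →
    ∀ (N0 M Y D κ : ℕ) (I : Finset ℤ), Nat.log 2 D ≤ κ →
    (∀ n δ, N0 ≤ n → n + δ ≤ M → D < δ → (Y : ℤ) ≤ |F.eval ((n + δ : ℕ) : ℤ) - F.eval (n : ℤ)|) →
    (∀ n δ : ℕ, N0 ≤ n → 1 ≤ δ → F.eval ((n + δ : ℕ) : ℤ) - F.eval (n : ℤ) ≠ 0) →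
    ∑ t ∈ I, TT (fun n => F.eval (n : ℤ)) N0 M Y (fz w z) t ^ 2 ≤
      ((M : ℝ) + 1) * ((Vz z)⁻¹ * (4 * Y + 2 * (z : ℝ) ^ (C1 * b))) +
      2 * (D * (Y * ((Vz z)⁻¹ ^ 2 * (2 * (k * (M / w) + k * z + ((M : ℝ) + 1) * (κ / w)))) +
        ((M : ℝ) + 1) * (Y * (4 * (1 / 2) ^ b * (Vz z)⁻¹) + 4 * (Vz z)⁻¹ ^ 2 * (z : ℝ) ^ (C1 * b)))) := by
  classical
  obtain ⟨C1, y1, hC1, hy1, hrc⟩ := rc_fz
  obtain ⟨C2, y2, hC2, hy2, hup⟩ := lz_up
  refine ⟨C1 + C2, y1 + y2, by omega, by omega, fun b hb w z hw hwz F hF hlw N0 M Y D κ I hκ hgap hne => ?_⟩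
  have hz1 : (1 : ℝ) ≤ z := by exact_mod_cast (by omega : 1 ≤ z)
  have hw1 : 1 ≤ w := by omega
  obtain ⟨Z, hZ⟩ : ∃ Z, Z = (Vz z)⁻¹ := ⟨_, rfl⟩
  have hZ0 : 0 ≤ Z := by rw [hZ]; exact (inv_pos.2 (Vz_pos z)).le
  have hM0 : (0 : ℝ) ≤ M := Nat.cast_nonneg _
  have hY0 : (0 : ℝ) ≤ Y := Nat.cast_nonneg _
  obtain ⟨E, hE⟩ : ∃ E, E = (z : ℝ) ^ ((C1 + C2) * b) := ⟨_, rfl⟩
  have hE0 : 0 ≤ E := by rw [hE]; positivity
  have hE1 : (z : ℝ) ^ (C1 * b) ≤ E := by
    rw [hE]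
    apply pow_le_pow_right₀ hz1
    exact Nat.mul_le_mul_right _ (by omega)
  have hE2 : (z : ℝ) ^ (C2 * b) ≤ E := by
    rw [hE]
    apply pow_le_pow_right₀ hz1
    exact Nat.mul_le_mul_right _ (by omega)
  rw [← hZ, ← hE]
  refine (second_diff (fun n => F.eval (n : ℤ)) N0 M Y (fz w z) I).trans ?_
  -- the diagonal
  have hdiag : rc Y (fz w z) 0 ≤ Z * (4 * Y + 2 * E) := by
    rw [rc_zero]
    have h1 : ∀ u ∈ Icc (1 : ℤ) Y, fz w z u ^ 2 ≤ Z * (lz z u + lz w u) := by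
      intro u _
      have h2 := fz_abs w z hwz u
      have h3 := fz_abs2 w z u
      rw [← hZ] at h2
      rw [← sq_abs, sq]
      exact mul_le_mul h2 h3 (abs_nonneg _) hZ0
    refine (sum_le_sum h1).trans ?_
    rw [← mul_sum, sum_add_distrib]
    apply mul_le_mul_of_nonneg_left _ hZ0
    have hconv : ∀ x ∈ Icc (1 : ℤ) Y, ∀ y ∈ Icc (1 : ℤ) Y, ∀ t, x ≤ t → t ≤ y → t ∈ Icc (1 : ℤ) Y := by
      intro x hx y hy t h1 h2
      rw [mem_Icc] at *
      omega
    have h4 := hup b (by omega) z (by omega) _ hconv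
    have h5 := hup b (by omega) w (by omega) _ hconv
    have hc : (#(Icc (1 : ℤ) Y) : ℝ) = Y := by
      rw [Int.card_Icc]
      have : ((Y : ℤ) + 1 - 1).toNat = Y := by omega
      rw [this]
    rw [hc] at h4 h5
    have hwE : (w : ℝ) ^ (C2 * b) ≤ (z : ℝ) ^ (C2 * b) := pow_le_pow_left₀ (Nat.cast_nonneg _) (by exact_mod_cast hwz) _
    linarith
  have hdiag2 : ((M : ℝ) + 1) * rc Y (fz w z) 0 ≤ (M + 1) * (Z * (4 * Y + 2 * E)) :=
    mul_le_mul_of_nonneg_left hdiag (by positivity)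
  -- the differences
  obtain ⟨A1, hA1⟩ : ∃ A1 : ℝ, A1 = Y * (Z ^ 2 * (2 * (k * (M / w) + k * z + ((M : ℝ) + 1) * (κ / w)))) +
        ((M : ℝ) + 1) * (Y * (4 * (1 / 2) ^ b * Z) + 4 * Z ^ 2 * E) := ⟨_, rfl⟩
  have hA10 : 0 ≤ A1 := by rw [hA1]; positivity
  have hoff : ∑ δ ∈ Icc 1 M, ∑ n ∈ Icc N0 (M - δ), rc Y (fz w z) (F.eval ((n + δ : ℕ) : ℤ) - F.eval (n : ℤ)) ≤ D * A1 := by
    have h1 : ∀ δ ∈ Icc 1 M, ∑ n ∈ Icc N0 (M - δ), rc Y (fz w z) (F.eval ((n + δ : ℕ) : ℤ) - F.eval (n : ℤ)) ≤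
        if δ ≤ D then A1 else 0 := by
      intro δ hδ
      rw [mem_Icc] at hδ
      split_ifs with hD
      · have h2 : ∀ n ∈ Icc N0 (M - δ), rc Y (fz w z) (F.eval ((n + δ : ℕ) : ℤ) - F.eval (n : ℤ)) ≤
            Y * (Z ^ 2 * 2) * sig w z (F.eval ((n + δ : ℕ) : ℤ) - F.eval (n : ℤ)) +
            (Y * (4 * (1 / 2) ^ b * Z) + 4 * Z ^ 2 * E) := by
          intro n hn
          rw [mem_Icc] at hn
          have h3 := hrc b (by omega) w z (by omega) hwz Y _ (hne n δ hn.1 hδ.1)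
          rw [← hZ] at h3
          have h4 : 4 * Z ^ 2 * (z : ℝ) ^ (C1 * b) ≤ 4 * Z ^ 2 * E := mul_le_mul_of_nonneg_left hE1 (by positivity)
          refine h3.trans ?_
          have e : (Y : ℝ) * (Z ^ 2 * (2 * sig w z (F.eval ((n + δ : ℕ) : ℤ) - F.eval (n : ℤ))) + 4 * (1 / 2) ^ b * Z) =
            Y * (Z ^ 2 * 2) * sig w z (F.eval ((n + δ : ℕ) : ℤ) - F.eval (n : ℤ)) + Y * (4 * (1 / 2) ^ b * Z) := by ring
          rw [e]
          linarith
        refine (sum_le_sum h2).trans ?_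
        rw [sum_add_distrib, ← mul_sum, sum_const, nsmul_eq_mul]
        have h3 := sig_sum k F hF w z (M - δ) N0 δ κ hlw hw1 hδ.1 ((Nat.log_mono_right hD).trans hκ)
        have hMδ : ((M - δ : ℕ) : ℝ) ≤ M := by exact_mod_cast Nat.sub_le _ _
        have h4 : (k : ℝ) * (((M - δ : ℕ) : ℝ) / w) + k * z + (((M - δ : ℕ) : ℝ) + 1) * (κ / w) ≤
            k * (M / w) + k * z + ((M : ℝ) + 1) * (κ / w) := by gcongr
        have h5 : (#(Icc N0 (M - δ)) : ℝ) ≤ (M : ℝ) + 1 := by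
          have : #(Icc N0 (M - δ)) ≤ M + 1 := by rw [Nat.card_Icc]; omega
          exact_mod_cast this
        have h6 := mul_le_mul_of_nonneg_left (h3.trans h4) (show 0 ≤ (Y : ℝ) * (Z ^ 2 * 2) by positivity)
        have h7 : (#(Icc N0 (M - δ)) : ℝ) * (Y * (4 * (1 / 2) ^ b * Z) + 4 * Z ^ 2 * E) ≤
            ((M : ℝ) + 1) * (Y * (4 * (1 / 2) ^ b * Z) + 4 * Z ^ 2 * E) :=
          mul_le_mul_of_nonneg_right h5 (by positivity)
        have e : A1 = Y * (Z ^ 2 * 2) * (k * (M / w) + k * z + ((M : ℝ) + 1) * (κ / w)) +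
            ((M : ℝ) + 1) * (Y * (4 * (1 / 2) ^ b * Z) + 4 * Z ^ 2 * E) := by rw [hA1]; ring
        rw [e]
        linarith
      · apply le_of_eq
        apply sum_eq_zero
        intro n hn
        rw [mem_Icc] at hn
        have h3 := hgap n δ hn.1 (by omega) (by omega)
        apply rc_big
        rw [mem_Icc]
        rintro ⟨h4, h5⟩
        have h6 : |F.eval ((n + δ : ℕ) : ℤ) - F.eval (n : ℤ)| ≤ (Y : ℤ) - 1 := abs_le.2 ⟨h4, h5⟩
        linarith
    refine (sum_le_sum h1).trans ?_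
    rw [← sum_filter, sum_const, nsmul_eq_mul]
    apply mul_le_mul_of_nonneg_right _ hA10
    have h2 : (Icc 1 M).filter (fun δ => δ ≤ D) ⊆ Icc 1 D := by
      intro δ hδ
      rw [mem_filter, mem_Icc] at hδ
      rw [mem_Icc]; omega
    have h3 := card_le_card h2
    rw [Nat.card_Icc, Nat.add_sub_cancel] at h3
    exact_mod_cast h3
  rw [← hA1]
  linarith

end Pool.Agent.TH892.OP
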