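import Pool.Agent.TH892.OW.B5a
import Pool.Agent.TH204.WR.W5

/-!
The second moment of the primes minus the sieve model at polynomial values, at the optimal scale.
-/

set_option autoImplicit false

namespace Pool.Agent.TH892.OP

open Finset Filter
open Pool.Agent.H373R2.T7 (pz Vz lamz mem_pz Vz_ge Vz_inv_le Vz_le_one)
open Pool.Agent.TH892.SW (ff rc sup_ff sq_ff wt wt_nonneg wt_anti wt_le)
open Pool.Agent.TH204.WR (TT rt rt_pow rt_nonneg second_weyl growth gap Ph_diff EE evt_log_pow evt_log_ge)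
open Pool.Agent.TH892.OW

/-- the mean square of the difference function -/
theorem ff_l2 : ∃ S0 : ℕ, ∀ S : ℕ, S0 ≤ S → ∀ z : ℕ, (Vz z)⁻¹ ^ 4 ≤ Real.log S →
    ∑ v ∈ Icc (1 : ℤ) S, ff z v ^ 2 ≤ 200 * S / Real.log S := by
  have hev : ∀ᶠ S : ℕ in atTop, (100000 : ℝ) ≤ Real.log S ∧ Real.log S ^ 2 ≤ (S : ℝ) ^ (1 / 4 : ℝ) := by
    filter_upwards [evt_log_ge 100000, evt_log_pow 2 (1 / 4) (by norm_num)] with X h1 h2
    exact ⟨h1, h2⟩
  obtain ⟨S0, hS0⟩ := eventually_atTop.1 hev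
  refine ⟨max S0 100, fun S hS z hV => ?_⟩
  obtain ⟨hL, hLS⟩ := hS0 S ((le_max_left _ _).trans hS)
  have hS100 : 100 ≤ S := (le_max_right _ _).trans hS
  have hSr : (100 : ℝ) ≤ S := by exact_mod_cast hS100
  obtain ⟨l, hl⟩ : ∃ l, l = Real.log S := ⟨_, rfl⟩
  rw [← hl] at hL hLS hV ⊢
  have hl0 : 0 < l := by linarith
  set T : ℕ := Nat.sqrt S with hT
  have hT10 : 10 ≤ T := by
    rw [hT, Nat.le_sqrt']; omega
  have hTS : (T : ℝ) ^ 2 ≤ S := by rw [hT]; exact_mod_cast Nat.sqrt_le' S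
  have hTr : (10 : ℝ) ≤ T := by exact_mod_cast hT10
  have hT4 : (S : ℝ) ≤ (T : ℝ) ^ 4 := by
    have h1 : (S : ℝ) ≤ ((T : ℝ) + 1) ^ 2 := by
      rw [hT]; exact_mod_cast (Nat.lt_succ_sqrt' S).le
    have h2 : ((T : ℝ) + 1) ^ 2 ≤ (T : ℝ) ^ 4 := by
      have : (T : ℝ) + 1 ≤ (T : ℝ) ^ 2 := by nlinarith
      calc ((T : ℝ) + 1) ^ 2 ≤ ((T : ℝ) ^ 2) ^ 2 := pow_le_pow_left₀ (by positivity) this 2
        _ = _ := by ring
    exact h1.trans h2
  have hlT : l / 4 ≤ Real.log T := by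
    have := Real.log_le_log (by linarith) hT4
    rw [Real.log_pow, ← hl] at this
    push_cast at this
    linarith
  have hV2 : (Vz z)⁻¹ ^ 2 ≤ √l := by
    apply Real.le_sqrt_of_sq_le
    rw [← pow_mul]
    exact hV
  have hsl : √l * √l = l := Real.mul_self_sqrt hl0.le
  have hsl0 : 0 < √l := Real.sqrt_pos.2 hl0
  have hsl1 : 300 ≤ √l := by
    apply Real.le_sqrt_of_sq_le
    norm_num; linarith
  have hIS : ∀ v ∈ Icc (1 : ℤ) S, (0 : ℤ) ≤ v ∧ v ≤ 0 + 2 * S := by
    intro v hv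
    rw [mem_Icc] at hv
    constructor <;> linarith [hv.1, hv.2]
  have h1 := primes_int S (by omega) 0 (Icc (1 : ℤ) S) hIS
  have h2 := wt_sum S T (by omega) 0 (Icc (1 : ℤ) S) hIS
  calc ∑ v ∈ Icc (1 : ℤ) S, ff z v ^ 2 ≤ ∑ v ∈ Icc (1 : ℤ) S, (2 * (if v.toNat.Prime then 1 else 0) +
          2 * (Vz z)⁻¹ ^ 2 * (if 2 ≤ v then wt v.toNat ^ 2 else 0)) := sum_le_sum fun v _ => ff_sq z v
    _ = 2 * ((Icc (1 : ℤ) S).filter (fun v : ℤ => v.toNat.Prime)).card + 2 * (Vz z)⁻¹ ^ 2 *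
        ∑ v ∈ (Icc (1 : ℤ) S).filter (fun v => 2 ≤ v), wt v.toNat ^ 2 := by
        rw [sum_add_distrib, ← mul_sum, ← mul_sum, sum_boole, sum_filter]
    _ ≤ 2 * (60 * (S / l)) + 2 * √l * (9 / 4 * T + (2 * S + 1) * (1 / Real.log T) ^ 2) := by
        rw [← hl] at h1
        apply add_le_add
        · linarith
        · apply mul_le_mul _ h2 (sum_nonneg fun _ _ => sq_nonneg _) (by positivity)
          linarith
    _ ≤ 200 * S / l := by
        have h3 : (1 / Real.log T) ^ 2 ≤ 16 / (l * l) := by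
          have h4 : 1 / Real.log T ≤ 4 / l := by
            rw [div_le_div_iff₀ (by linarith) hl0]; linarith
          calc (1 / Real.log T) ^ 2 ≤ (4 / l) ^ 2 := pow_le_pow_left₀ (by
                have : 0 < Real.log T := by linarith
                positivity) h4 2
            _ = 16 / (l * l) := by field_simp; norm_num
        have h4 : 2 * √l * ((2 * S + 1) * (1 / Real.log T) ^ 2) ≤ S / l := by
          calc 2 * √l * ((2 * S + 1) * (1 / Real.log T) ^ 2) ≤ 2 * √l * ((3 * S) * (16 / (l * l))) := by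
                gcongr
                linarith
            _ = S / l * (96 * √l / l) := by field_simp; ring
            _ ≤ S / l * 1 := by
                apply mul_le_mul_of_nonneg_left _ (by positivity)
                rw [div_le_one hl0]
                nlinarith
            _ = _ := mul_one _
        have h5 : 2 * √l * (9 / 4 * T) ≤ S / l := by
          rw [le_div_iff₀ hl0]
          have hTl : (T : ℝ) * l ^ 2 ≤ S := by
            have hT1 : (T : ℝ) ≤ √(S : ℝ) := Real.le_sqrt_of_sq_le hTS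
            have h6 : (S : ℝ) ^ (1 / 4 : ℝ) ≤ √(S : ℝ) := by
              rw [Real.sqrt_eq_rpow]
              apply Real.rpow_le_rpow_of_exponent_le (by linarith) (by norm_num)
            calc (T : ℝ) * l ^ 2 ≤ √(S : ℝ) * √(S : ℝ) := mul_le_mul hT1 (hLS.trans h6) (by positivity) (by positivity)
              _ = S := Real.mul_self_sqrt (by linarith)
          calc 2 * √l * (9 / 4 * T) * l = T * (9 / 2 * √l) * l := by ring
            _ ≤ T * l * l := by
                apply mul_le_mul_of_nonneg_right _ hl0.le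
                apply mul_le_mul_of_nonneg_left _ (by linarith)
                nlinarith
            _ = T * l ^ 2 := by ring
            _ ≤ S := hTl
        have h6 : 200 * (S : ℝ) / l = 200 * (S / l) := by ring
        have h7 : 0 ≤ (S : ℝ) / l := by positivity
        rw [h6, mul_add]
        linarith

lemma arith_ff (k c m a A B : ℕ) (S L Y M D J Q Sg e : ℝ) (hk : 1 ≤ k) (hc : 1 ≤ c) (ha : B + 1 ≤ a)
    (hA : 2 * (m * a) + B + 6 ≤ A) (he : 1 ≤ e) (hL : 3072 * e * c ^ 2 ≤ L) (hLS : L ^ (2 * (m * a) + B + 1) ≤ S)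
    (hM1 : S ≤ M) (hM2 : M + 1 ≤ 6 * S) (hD0 : 0 ≤ D) (hD : D ≤ e * (Y / S ^ k)) (hY1 : S ^ k ≤ Y) (hY2 : Y ≤ S ^ k * L ^ B)
    (hJ : M ^ k ≤ 16 * (c * (L ^ a) ^ m) * J) (hJ1 : 1 ≤ J) (hQ0 : 0 ≤ Q) (hQ : Q ≤ 400 * (Y / L)) (hSg0 : 0 ≤ Sg)
    (hSg : Sg ≤ Y ^ 2 * (L ^ 4 / L ^ A)) :
    (M + 1) * Q + 2 * (D * (M / L ^ a * Q) + M * ((c * (L ^ a) ^ m) * (4 / J ^ 2 * (D * (J * Q) + J * Sg)))) ≤
      3000 * (S * Y / L) := by
  have hc1 : (1 : ℝ) ≤ c := by exact_mod_cast hc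
  have hc2 : (1 : ℝ) ≤ (c : ℝ) ^ 2 := one_le_pow₀ hc1
  have hec : 1 ≤ e * (c : ℝ) ^ 2 := one_le_mul_of_one_le_of_one_le he hc2
  have hL3072 : 3072 ≤ L := by nlinarith
  have hL0 : 0 < L := by linarith
  have hL1 : 1 ≤ L := by linarith
  have hLp0 : ∀ n : ℕ, 0 < L ^ n := fun n => by positivity
  have hLp : ∀ n : ℕ, 1 ≤ L ^ n := fun n => one_le_pow₀ hL1
  have hS1 : 1 ≤ S := (hLp _).trans hLS
  have hS0 : 0 < S := by linarith
  have hSk0 : 0 < S ^ k := by positivity
  have hSk1 : S ≤ S ^ k := le_self_pow₀ hS1 (by omega)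
  have hY0 : 0 < Y := by linarith
  have hM0 : 0 < M := by linarith
  have hM6 : M ≤ 6 * S := by linarith
  have hJ0 : 0 < J := by linarith
  obtain ⟨w, hw⟩ : ∃ w, w = (c : ℝ) * (L ^ a) ^ m := ⟨_, rfl⟩
  rw [← hw] at hJ ⊢
  have hw0 : 0 < w := by rw [hw]; positivity
  have hw2 : w ^ 2 = c ^ 2 * L ^ (2 * (m * a)) := by
    rw [hw, mul_pow, ← pow_mul, ← pow_mul]; congr 2; ring
  have hiJ : 1 / J ≤ 16 * w / S ^ k := by
    rw [div_le_div_iff₀ hJ0 hSk0, one_mul]
    exact (pow_le_pow_left₀ hS0.le hM1 k).trans hJ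
  have hYS : Y / S ^ k ≤ L ^ B := by
    rw [div_le_iff₀ hSk0]; linarith
  have hYS0 : 0 < Y / S ^ k := by positivity
  obtain ⟨T, hT⟩ : ∃ T, T = S * Y / L := ⟨_, rfl⟩
  have hT0 : 0 < T := by rw [hT]; positivity
  rw [← hT]
  have t1 : (M + 1) * Q ≤ 2400 * T := by
    calc (M + 1) * Q ≤ (6 * S) * (400 * (Y / L)) := mul_le_mul hM2 hQ hQ0 (by positivity)
      _ = 2400 * T := by rw [hT]; ring
  have t2 : D * (M / L ^ a * Q) ≤ 50 * T := by
    calc D * (M / L ^ a * Q) ≤ (e * L ^ B) * ((6 * S) / L ^ a * (400 * (Y / L))) := by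
          apply mul_le_mul
          · exact hD.trans (mul_le_mul_of_nonneg_left hYS (by linarith))
          · exact mul_le_mul (div_le_div_of_nonneg_right hM6 (hLp0 a).le) hQ hQ0 (by positivity)
          · positivity
          · positivity
      _ = T * (2400 * e * L ^ B / L ^ a) := by rw [hT]; ring
      _ ≤ T * 50 := by
          apply mul_le_mul_of_nonneg_left _ hT0.le
          rw [div_le_iff₀ (hLp0 a)]
          calc 2400 * e * L ^ B ≤ 50 * L * L ^ B := by
                apply mul_le_mul_of_nonneg_right _ (hLp0 B).le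
                have : e * 1 ≤ e * (c : ℝ) ^ 2 := mul_le_mul_of_nonneg_left hc2 (by linarith)
                nlinarith
            _ = 50 * L ^ (B + 1) := by ring
            _ ≤ 50 * L ^ a := by
                apply mul_le_mul_of_nonneg_left _ (by norm_num)
                exact pow_le_pow_right₀ hL1 ha
      _ = _ := by ring
  have e34 : M * (w * (4 / J ^ 2 * (D * (J * Q) + J * Sg))) = 4 * M * w * D * Q * (1 / J) + 4 * M * w * Sg * (1 / J) := by
    field_simp
  have t3 : 4 * M * w * D * Q * (1 / J) ≤ 50 * T := by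
    calc 4 * M * w * D * Q * (1 / J) ≤ 4 * (6 * S) * w * (e * L ^ B) * (400 * (Y / L)) * (16 * w / S ^ k) := by
          have h1 : D ≤ e * L ^ B := hD.trans (mul_le_mul_of_nonneg_left hYS (by linarith))
          gcongr
      _ = T * (153600 * (e * w ^ 2 * L ^ B) / S ^ k) := by rw [hT]; ring
      _ ≤ T * 50 := by
          apply mul_le_mul_of_nonneg_left _ hT0.le
          rw [div_le_iff₀ hSk0, hw2]
          calc 153600 * (e * (c ^ 2 * L ^ (2 * (m * a))) * L ^ B) = 50 * (3072 * e * c ^ 2) * (L ^ (2 * (m * a)) * L ^ B) := by ring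
            _ ≤ 50 * L * (L ^ (2 * (m * a)) * L ^ B) := by gcongr
            _ = 50 * L ^ (2 * (m * a) + B + 1) := by ring
            _ ≤ 50 * S ^ k := by linarith
      _ = _ := by ring
  have t4 : 4 * M * w * Sg * (1 / J) ≤ 50 * T := by
    calc 4 * M * w * Sg * (1 / J) ≤ 4 * (6 * S) * w * (Y ^ 2 * (L ^ 4 / L ^ A)) * (16 * w / S ^ k) := by gcongr
      _ = T * (384 * w ^ 2 * (Y / S ^ k) * (L ^ 5 / L ^ A)) := by rw [hT]; field_simp; ring
      _ ≤ T * (384 * w ^ 2 * L ^ B * (L ^ 5 / L ^ A)) := by gcongr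
      _ ≤ T * 50 := by
          apply mul_le_mul_of_nonneg_left _ hT0.le
          rw [mul_div_assoc', div_le_iff₀ (hLp0 A), hw2]
          have h8 : 384 * (c : ℝ) ^ 2 ≤ 50 * L := by
            have : (c : ℝ) ^ 2 ≤ e * (c : ℝ) ^ 2 := le_mul_of_one_le_left (by positivity) he
            linarith
          calc 384 * (c ^ 2 * L ^ (2 * (m * a))) * L ^ B * L ^ 5 = (384 * (c : ℝ) ^ 2) * (L ^ (2 * (m * a)) * L ^ B * L ^ 5) := by ring
            _ ≤ (50 * L) * (L ^ (2 * (m * a)) * L ^ B * L ^ 5) := by gcongr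
            _ = 50 * L ^ (2 * (m * a) + B + 6) := by ring
            _ ≤ 50 * L ^ A := by
                apply mul_le_mul_of_nonneg_left _ (by norm_num)
                exact pow_le_pow_right₀ hL1 hA
      _ = _ := by ring
  rw [e34]
  linarith

end Pool.Agent.TH892.OP
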