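import Pool.Agent.TH892.OP.C4

/-!
The second moment of the primes minus the sieve model, with all parameters depending on `x`.
-/

set_option autoImplicit false

namespace Pool.Agent.TH892.OP

open Finset Filter
open Pool.Agent.H373R2.T7 (pz Vz lamz mem_pz Vz_ge Vz_inv_le Vz_le_one)
open Pool.Agent.TH892.SW (ff sup_ff sq_ff wt wt_nonneg wt_anti wt_le)
open Pool.Agent.TH204.WR (TT rt rt_pow rt_nonneg second_weyl growth gap Ph_diff EE evt_log_pow evt_log_ge)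
open Pool.Agent.TH892.OW (Vz_log evt_ll evt_ll_ge)

open Polynomial in
theorem second_ffP (k : ℕ) (hk : 1 ≤ k) (P : ℤ[X]) (hP : P.natDegree = k + 1) (η : ℝ) (hη : 0 < η) (hη1 : η ≤ 1) (B : ℕ) :
    ∃ E1 : ℕ, ∀ E : ℕ, E1 ≤ E → ∃ X0 : ℕ, ∀ x : ℕ, X0 ≤ x → ∀ Y : ℕ,
    rt k x ^ k ≤ Y → (Y : ℝ) ≤ rt k x ^ k * Real.log x ^ B →
    ∑ t ∈ Icc (-(x : ℤ)) x, TT (fun n => P.eval (n : ℤ)) ⌈η * rt k x⌉₊ ⌈4 * rt k x⌉₊ Y (ff ⌊Real.log x ^ E⌋₊) t ^ 2 ≤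
      3000 * (rt k x * Y / Real.log x) := by
  classical
  obtain ⟨c, m, hc, hsec⟩ := second_weyl k hk
  obtain ⟨nP, σ, hσ, hgr⟩ := growth k hk P hP
  obtain ⟨C, hC1, hC⟩ := Vz_log
  obtain ⟨S0, hS0l⟩ := ff_l2
  obtain ⟨a, ha⟩ : ∃ a, a = B + 1 := ⟨_, rfl⟩
  obtain ⟨A, hA⟩ : ∃ A, A = 2 * (m * a) + B + 6 := ⟨_, rfl⟩
  obtain ⟨B0, hB0⟩ := sup_ff A
  refine ⟨B0 + 2, fun E hE => ?_⟩
  obtain ⟨N1, hN1⟩ := hB0 (E + 1)
  obtain ⟨e, he⟩ : ∃ e : ℝ, e = (1 / η) ^ k := ⟨_, rfl⟩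
  have he1 : 1 ≤ e := by
    rw [he]
    apply one_le_pow₀
    rw [one_le_div hη]; exact hη1
  obtain ⟨e1, he1'⟩ : ∃ e1, e1 = 2 * (m * a) + B + 2 := ⟨_, rfl⟩
  have hev : ∀ᶠ x : ℕ in atTop, (3072 * e * (c : ℝ) ^ 2 + 16 * c + 2 ^ (A + E + B0 + 20) + N1 + S0 + nP / η + 1000000) ≤ Real.log x ∧
      Real.log x ^ e1 ≤ (x : ℝ) ^ ((1 : ℝ) / (k + 1)) ∧
      (2 * (C * E ^ 2) ^ 4) * Real.log (Real.log x) ^ 8 ≤ Real.log x ^ (1 : ℝ) := by
    filter_upwards [evt_log_ge (3072 * e * (c : ℝ) ^ 2 + 16 * c + 2 ^ (A + E + B0 + 20) + N1 + S0 + nP / η + 1000000),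
      evt_log_pow e1 ((1 : ℝ) / (k + 1)) (by positivity), evt_ll 8 1 (2 * (C * E ^ 2) ^ 4) one_pos] with x h1 h2 h3
    exact ⟨h1, h2, h3⟩
  obtain ⟨X0, hX0⟩ := eventually_atTop.1 hev
  refine ⟨max X0 1, fun x hx Y hY1 hY2 => ?_⟩
  obtain ⟨hL, hLS, hll⟩ := hX0 x ((le_max_left _ _).trans hx)
  have hx1 : 1 ≤ x := (le_max_right _ _).trans hx
  rw [Real.rpow_one] at hll
  have hSr : rt k x = (x : ℝ) ^ ((1 : ℝ) / (k + 1)) := rfl
  rw [← hSr] at hLS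
  have hSp := rt_pow k x
  clear hev hX0 hSr
  generalize hSd : rt k x = S at *
  generalize hLd : Real.log x = L at *
  obtain ⟨z, hz⟩ : ∃ z, z = ⌊L ^ E⌋₊ := ⟨_, rfl⟩
  have hc1 : (1 : ℝ) ≤ c := by exact_mod_cast hc
  have hN1r : (0 : ℝ) ≤ N1 := Nat.cast_nonneg _
  have hS0r : (0 : ℝ) ≤ S0 := Nat.cast_nonneg _
  have hnPr : (0 : ℝ) ≤ nP / η := by positivity
  have h5000 : (0 : ℝ) ≤ 3072 * e * (c : ℝ) ^ 2 := by positivity
  have h2p : (0 : ℝ) < 2 ^ (A + E + B0 + 20) := by positivity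
  have hp20 : ∀ a b : ℕ, a + b ≤ A + E + B0 + 20 → (2 : ℝ) ^ a * 2 ^ b ≤ L := by
    intro a b hab
    rw [← pow_add]
    have := pow_le_pow_right₀ (show (1 : ℝ) ≤ 2 by norm_num) hab
    linarith
  have hL1024 : 1000000 ≤ L := by linarith
  have hL0 : 0 < L := by linarith
  have hL1 : 1 ≤ L := by linarith
  have hLp0 : ∀ n : ℕ, 0 < L ^ n := fun n => by positivity
  have hLp : ∀ n : ℕ, 1 ≤ L ^ n := fun n => one_le_pow₀ hL1
  have hLL : ∀ {i j : ℕ}, i ≤ j → L ^ i ≤ L ^ j := fun h => pow_le_pow_right₀ hL1 h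
  have hxr : (1 : ℝ) ≤ x := by exact_mod_cast hx1
  have hx0 : (0 : ℝ) < x := by linarith
  have hLS' : ∀ i : ℕ, i ≤ e1 → L ^ i ≤ S := fun i hi => (hLL hi).trans hLS
  have hLS1 : L ≤ S := by simpa using hLS' 1 (by omega)
  have hS1 : 1 ≤ S := hL1.trans hLS1
  have hS0 : 0 < S := by linarith
  have hSx : S ≤ x := by rw [← hSp]; exact le_self_pow₀ hS1 (by omega)
  have hSk1 : S ≤ S ^ k := le_self_pow₀ hS1 (by omega)
  have hSk0 : 0 < S ^ k := by positivity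
  have hSY : S ^ k ≤ Y := hY1
  have hYS : S ≤ Y := hSk1.trans hSY
  have hY0 : (0 : ℝ) < Y := by linarith
  have hYn : 1 ≤ Y := by exact_mod_cast (hS1.trans hYS)
  -- log Y
  obtain ⟨ℓ, hℓ⟩ : ∃ ℓ, ℓ = Real.log Y := ⟨_, rfl⟩
  have hlogS : L ≤ 2 * (k * Real.log S) := by
    have h1 : L = (k + 1) * Real.log S := by
      rw [← hLd, ← hSp, Real.log_pow]
      push_cast; ring
    have h2 : 0 ≤ Real.log S := Real.log_nonneg hS1
    have h3 : (1 : ℝ) ≤ k := by exact_mod_cast hk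
    rw [h1]
    have h4 := mul_nonneg (sub_nonneg.2 h3) h2
    linarith
  have hℓ1 : L / 2 ≤ ℓ := by
    have h1 := Real.log_le_log hSk0 hSY
    rw [Real.log_pow, ← hℓ] at h1
    linarith
  have hYx : (Y : ℝ) ≤ x := by
    calc (Y : ℝ) ≤ S ^ k * L ^ B := hY2
      _ ≤ S ^ k * S := mul_le_mul_of_nonneg_left (hLS' B (by omega)) hSk0.le
      _ = x := by rw [← hSp]; ring
  have hℓ2 : ℓ ≤ 2 * L := by
    have h2 := Real.log_le_log hY0 hYx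
    rw [hLd, ← hℓ] at h2
    linarith
  have hℓ0 : 0 < ℓ := by linarith
  have hYN : (N1 : ℝ) + S0 ≤ Y := by
    have : L ≤ Y := hLS1.trans hYS
    have : (0 : ℝ) ≤ 16 * c := by positivity
    linarith
  have hYN1 : N1 ≤ Y := by
    have : (N1 : ℝ) ≤ Y := by linarith
    exact_mod_cast this
  have hYS0 : S0 ≤ Y := by
    have : (S0 : ℝ) ≤ Y := by linarith
    exact_mod_cast this
  -- z
  have hzle : (z : ℝ) ≤ L ^ E := by rw [hz]; exact Nat.floor_le (by positivity)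
  have hLE2 : L ≤ L ^ E := le_self_pow₀ hL1 (by omega)
  have hzge : L ^ E / 2 ≤ z := by
    have := Nat.lt_floor_add_one (L ^ E)
    rw [← hz] at this
    linarith
  have hz3 : 3 ≤ z := by
    have : (3 : ℝ) ≤ z := by linarith
    exact_mod_cast this
  have hzB : ℓ ^ B0 ≤ z := by
    calc ℓ ^ B0 ≤ (2 * L) ^ B0 := pow_le_pow_left₀ hℓ0.le hℓ2 _
      _ = 2 ^ B0 * L ^ B0 := mul_pow _ _ _
      _ ≤ (L / 2) * L ^ B0 := by
          apply mul_le_mul_of_nonneg_right _ (hLp0 _).le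
          have := hp20 B0 1 (by omega)
          linarith
      _ ≤ (L * L / 2) * L ^ B0 := by
          apply mul_le_mul_of_nonneg_right _ (hLp0 _).le
          have := mul_le_mul_of_nonneg_left hL1 hL0.le
          linarith
      _ = L ^ (B0 + 2) / 2 := by ring
      _ ≤ L ^ E / 2 := by
          have := hLL hE
          linarith
      _ ≤ z := hzge
  have hzE : (z : ℝ) ≤ ℓ ^ (E + 1) := by
    calc (z : ℝ) ≤ L ^ E := hzle
      _ ≤ (2 * ℓ) ^ E := pow_le_pow_left₀ hL0.le (by linarith) _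
      _ = 2 ^ E * ℓ ^ E := mul_pow _ _ _
      _ ≤ ℓ * ℓ ^ E := by
          apply mul_le_mul_of_nonneg_right _ (by positivity)
          have := hp20 E 1 (by omega)
          linarith
      _ = ℓ ^ (E + 1) := by ring
  have hsup := hN1 Y hYN1 z (by rw [← hℓ]; exact hzB) (by rw [← hℓ]; exact hzE)
  have hVz : (Vz z)⁻¹ ≤ C * E ^ 2 * Real.log L ^ 2 := by
    refine (hC z hz3).trans ?_
    have hzr : (3 : ℝ) ≤ z := by exact_mod_cast hz3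
    have h3 : Real.log z ≤ E * Real.log L := by
      have := Real.log_le_log (by linarith) hzle
      rwa [Real.log_pow] at this
    have h4 : 0 ≤ Real.log z := Real.log_nonneg (by linarith)
    calc C * Real.log z ^ 2 ≤ C * (E * Real.log L) ^ 2 := by gcongr
      _ = _ := by ring
  have hV4 : (Vz z)⁻¹ ^ 4 ≤ Real.log Y := by
    have h3 : (Vz z)⁻¹ ^ 4 ≤ (C * E ^ 2 * Real.log L ^ 2) ^ 4 := pow_le_pow_left₀ (inv_pos.2 (OW.Vz_pos z)).le hVz 4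
    have h4 : 2 * (C * E ^ 2 * Real.log L ^ 2) ^ 4 = 2 * (C * E ^ 2) ^ 4 * Real.log L ^ 8 := by ring
    rw [← hℓ]
    linarith
  have hsq := hS0l Y hYS0 z hV4
  rw [← hℓ] at hsup hsq
  -- the ranges
  obtain ⟨N0, hN0⟩ : ∃ N0, N0 = ⌈η * S⌉₊ := ⟨_, rfl⟩
  obtain ⟨M, hM⟩ : ∃ M, M = ⌈4 * S⌉₊ := ⟨_, rfl⟩
  have hN0r : η * S ≤ N0 := by rw [hN0]; exact Nat.le_ceil _
  have hηS : 0 < η * S := by positivity
  have hN0P : nP ≤ N0 := by
    have h1 : (nP : ℝ) / η ≤ S := by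
      have : (0 : ℝ) ≤ 16 * c := by positivity
      linarith
    rw [div_le_iff₀ hη] at h1
    have : (nP : ℝ) ≤ N0 := by linarith
    exact_mod_cast this
  have hN01 : 1 ≤ N0 := by
    rw [hN0]
    exact Nat.ceil_pos.2 hηS
  have hM3 : 4 * S ≤ M := by rw [hM]; exact Nat.le_ceil _
  have hM1 : S ≤ M := by linarith
  have hM2 : (M : ℝ) + 1 ≤ 6 * S := by
    have := Nat.ceil_lt_add_one (show 0 ≤ 4 * S by positivity)
    rw [← hM] at this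
    linarith
  have hMr1 : (1 : ℝ) ≤ M := by linarith
  have hMn : 1 ≤ M := by exact_mod_cast hMr1
  -- D
  obtain ⟨D, hD⟩ : ∃ D, D = Y / N0 ^ k := ⟨_, rfl⟩
  have hN0k : 0 < N0 ^ k := Nat.pow_pos hN01
  have hDS : (D : ℝ) ≤ e * (Y / S ^ k) := by
    have h1 : D * N0 ^ k ≤ Y := by rw [hD]; exact Nat.div_mul_le_self _ _
    have h2 : (D : ℝ) * (N0 : ℝ) ^ k ≤ Y := by exact_mod_cast h1
    have h3 : (D : ℝ) * (η * S) ^ k ≤ Y := by
      refine le_trans ?_ h2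
      gcongr
    rw [← le_div_iff₀ (by positivity)] at h3
    refine h3.trans (le_of_eq ?_)
    rw [he, mul_pow, one_div_pow]
    field_simp
  have hgap : ∀ n δ, N0 ≤ n → n + δ ≤ M → D < δ →
      (Y : ℤ) ≤ |(fun n : ℕ => P.eval (n : ℤ)) (n + δ) - (fun n : ℕ => P.eval (n : ℤ)) n| := by
    intro n δ hn _ hδ
    have h1 := gap k P nP σ (fun n hn => (hgr n hn).1) N0 hN0P n δ hn
    have h2 : Y < δ * N0 ^ k := by
      rw [hD, Nat.div_lt_iff_lt_mul hN0k] at hδ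
      exact hδ
    have h3 : (Y : ℤ) < (δ : ℤ) * (N0 : ℤ) ^ k := by exact_mod_cast h2
    have h4 : σ * (P.eval ((n + δ : ℕ) : ℤ) - P.eval (n : ℤ)) ≤ |P.eval ((n + δ : ℕ) : ℤ) - P.eval (n : ℤ)| := by
      rcases hσ with h | h
      · rw [h, one_mul]; exact le_abs_self _
      · rw [h, neg_one_mul]; exact neg_le_abs _
    show (Y : ℤ) ≤ |P.eval ((n + δ : ℕ) : ℤ) - P.eval (n : ℤ)|
    linarith
  -- J
  obtain ⟨w, hw⟩ : ∃ w, w = (c : ℝ) * (L ^ a) ^ m := ⟨_, rfl⟩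
  have hw1 : 1 ≤ w := by
    rw [hw]
    exact one_le_mul_of_one_le_of_one_le hc1 (one_le_pow₀ (hLp a))
  have hw0 : 0 < w := by linarith
  obtain ⟨J, hJ⟩ : ∃ J, J = ⌊(M : ℝ) ^ k / (8 * w)⌋₊ := ⟨_, rfl⟩
  have hMw : 8 * w ≤ (M : ℝ) ^ k := by
    have h1 : L ^ (m * a + 1) ≤ S := hLS' _ (by
      rw [he1']
      have : m * a ≤ 2 * (m * a) := by omega
      omega)
    have h2 : w * L ≤ c * S := by
      calc w * L = c * L ^ (m * a + 1) := by rw [hw, ← pow_mul, mul_comm a m, pow_succ]; ring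
        _ ≤ c * S := by gcongr
    have h3 : 16 * w * c ≤ w * L := by
      have h5 : 16 * (c : ℝ) ≤ L := by linarith
      calc 16 * w * c = w * (16 * c) := by ring
        _ ≤ w * L := by gcongr
    have h4 : 16 * w ≤ S := by
      have h6 : c * (16 * w) ≤ c * S := by linarith
      exact le_of_mul_le_mul_left h6 (by linarith)
    have h5 : (M : ℝ) ≤ (M : ℝ) ^ k := le_self_pow₀ hMr1 (by omega)
    linarith
  have hJle : (J : ℝ) ≤ (M : ℝ) ^ k / (8 * w) := by rw [hJ]; exact Nat.floor_le (by positivity)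
  have hJge1 : 1 ≤ J := by
    rw [hJ]
    apply Nat.le_floor
    rw [Nat.cast_one, le_div_iff₀ (by positivity), one_mul]
    exact hMw
  have hJr1 : (1 : ℝ) ≤ J := by exact_mod_cast hJge1
  have hJM : 8 * (J : ℝ) * (c * (L ^ a) ^ m) ≤ (M : ℝ) ^ k := by
    rw [← hw]
    rw [le_div_iff₀ (by positivity)] at hJle
    linarith
  have hJge : (M : ℝ) ^ k ≤ 16 * (c * (L ^ a) ^ m) * J := by
    rw [← hw]
    have h1 : (M : ℝ) ^ k / (8 * w) < J + 1 := by rw [hJ]; exact Nat.lt_floor_add_one _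
    rw [div_lt_iff₀ (by positivity)] at h1
    have h2 := mul_le_mul_of_nonneg_left hJr1 hw0.le
    have h3 : ((J : ℝ) + 1) * (8 * w) = 8 * (w * J) + 8 * w := by ring
    have h4 : 16 * w * J = 16 * (w * J) := by ring
    rw [h3] at h1
    rw [h4]
    linarith
  have hlc : P.leadingCoeff ≠ 0 := by
    apply leadingCoeff_ne_zero.2
    intro h
    rw [h, natDegree_zero] at hP
    omega
  have hsecond := hsec (((k + 1).factorial : ℤ) * P.leadingCoeff) N0 M Y D J (fun n => P.eval (n : ℤ)) (ff z)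
    (Y / ℓ ^ A) (200 * Y / ℓ) (L ^ a) (Icc (-(x : ℤ)) x)
    (mul_ne_zero (by exact_mod_cast (Nat.factorial_ne_zero _)) hlc) hMn hJge1 (hLp a) hJM hgap
    (fun δ γ => Ph_diff k P hP N0 δ γ) hsup hsq
  rw [← hℓ] at hsecond
  have hQ0 : 0 ≤ 200 * (Y : ℝ) / ℓ := by positivity
  have hQ : 200 * (Y : ℝ) / ℓ ≤ 400 * (Y / L) := by
    rw [mul_div_assoc', div_le_div_iff₀ hℓ0 hL0]
    have h1 : 0 ≤ (Y : ℝ) * (ℓ - L / 2) := mul_nonneg hY0.le (by linarith only [hℓ1])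
    linarith only [h1]
  have hQ9 : 200 * (Y : ℝ) / ℓ ≤ 9 * Y * ℓ ^ 2 := by
    rw [div_le_iff₀ hℓ0]
    have h1 : 200 ≤ 9 * ℓ ^ 3 := by
      have : (10 : ℝ) ^ 3 ≤ ℓ ^ 3 := pow_le_pow_left₀ (by norm_num) (by linarith) 3
      linarith
    calc 200 * (Y : ℝ) ≤ (9 * ℓ ^ 3) * Y := mul_le_mul_of_nonneg_right h1 hY0.le
      _ = _ := by ring
  have hSg : √(2 * (Y * (1 + ℓ) ^ 4)) * √((Y / ℓ ^ A) ^ 2 * (200 * Y / ℓ)) ≤ Y ^ 2 * (L ^ 4 / L ^ A) := by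
    rw [← Real.sqrt_mul (by positivity)]
    rw [show (Y : ℝ) ^ 2 * (L ^ 4 / L ^ A) = √((Y ^ 2 * (L ^ 4 / L ^ A)) ^ 2) by
      rw [Real.sqrt_sq (by positivity)]]
    apply Real.sqrt_le_sqrt
    have h3 : 1 / ℓ ^ A ≤ 2 ^ A / L ^ A := by
      rw [← div_pow, div_eq_mul_inv 2 L, ← one_div_pow]
      apply pow_le_pow_left₀ (by positivity)
      rw [← div_eq_mul_inv, div_le_div_iff₀ hℓ0 hL0]
      linarith
    have h1ℓ : 1 + ℓ ≤ 4 * L := by linarith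
    calc 2 * (Y * (1 + ℓ) ^ 4) * ((Y / ℓ ^ A) ^ 2 * (200 * Y / ℓ))
        ≤ 2 * (Y * (1 + ℓ) ^ 4) * ((Y / ℓ ^ A) ^ 2 * (9 * Y * ℓ ^ 2)) := by gcongr
      _ = 18 * (Y : ℝ) ^ 4 * (1 + ℓ) ^ 4 * ℓ ^ 2 * (1 / ℓ ^ A) ^ 2 := by ring
      _ ≤ 18 * (Y : ℝ) ^ 4 * (4 * L) ^ 4 * (2 * L) ^ 2 * (2 ^ A / L ^ A) ^ 2 := by gcongr
      _ = (Y ^ 2 * (L ^ 3 / L ^ A)) ^ 2 * (18432 * (2 ^ A) ^ 2) := by ring
      _ ≤ (Y ^ 2 * (L ^ 3 / L ^ A)) ^ 2 * L ^ 2 := by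
          apply mul_le_mul_of_nonneg_left _ (by positivity)
          have h4 := hp20 A 8 (by omega)
          calc 18432 * ((2 : ℝ) ^ A) ^ 2 ≤ 65536 * ((2 : ℝ) ^ A) ^ 2 := by
                apply mul_le_mul_of_nonneg_right (by norm_num) (by positivity)
            _ = (2 ^ A * 2 ^ 8) ^ 2 := by ring
            _ ≤ L ^ 2 := pow_le_pow_left₀ (by positivity) h4 2
      _ = (Y ^ 2 * (L ^ 4 / L ^ A)) ^ 2 := by ring
  have harith := arith_ff k c m a A B S L Y M D J (200 * Y / ℓ)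
    (√(2 * (Y * (1 + ℓ) ^ 4)) * √((Y / ℓ ^ A) ^ 2 * (200 * Y / ℓ))) e hk hc (by omega) (by omega) he1
    (by have : (0 : ℝ) ≤ 16 * c := by positivity
        linarith) (hLS' _ (by omega)) hM1 hM2 (Nat.cast_nonneg _) hDS hY1 hY2 hJge hJr1 hQ0 hQ (by positivity) hSg
  rw [← hz, ← hN0, ← hM]
  exact hsecond.trans harith

end Pool.Agent.TH892.OP
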