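import Pool.Agent.TH892.OP.C4
import Pool.Agent.TH892.OP.C3

/-!
The second moment of the difference of two sieve models, with all parameters depending on `x`.
-/

set_option autoImplicit false

namespace Pool.Agent.TH892.OP

open Finset Filter
open Pool.Agent.H373R2.T7 (pz Vz lamz mem_pz Vz_ge Vz_inv_le Vz_le_one)
open Pool.Agent.TH892.SW (ff wt wt_nonneg wt_anti wt_le)
open Pool.Agent.TH204.WR (TT rt rt_pow rt_nonneg growth gap evt_log_pow evt_log_ge)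
open Pool.Agent.TH892.OW (Vz_log evt_ll evt_ll_ge fz lz one_le_Vz_inv)

/-- the level of the sieve -/
lemma params_b (E Ct : ℕ) (s : ℝ) (hs : 0 < s) : ∃ X0 : ℕ, ∀ X : ℕ, X0 ≤ X →
    ∃ b : ℕ, Ct ≤ b ∧ (1 / 2 : ℝ) ^ b ≤ 1 / Real.log X ^ 2 ∧
      (⌊Real.log X ^ E⌋₊ : ℝ) ^ (Ct * b) ≤ (X : ℝ) ^ s := by
  have hev : ∀ᶠ X : ℕ in atTop, (10000 : ℝ) ≤ Real.log X ∧ (1 : ℝ) ≤ Real.log (Real.log X) ∧
      (1 / s * (E * (Ct * (Ct + 5)))) * Real.log (Real.log X) ^ 2 ≤ Real.log X ^ (1 : ℝ) := by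
    filter_upwards [evt_log_ge 10000, evt_ll_ge 1, evt_ll 2 1 (1 / s * (E * (Ct * (Ct + 5)))) (by norm_num)] with X a1 a3 a4
    exact ⟨a1, a3, a4⟩
  obtain ⟨X1, hX1⟩ := eventually_atTop.1 hev
  refine ⟨X1, fun X hX => ?_⟩
  obtain ⟨hl, hm1, hm4⟩ := hX1 X hX
  clear hev hX1 hX
  have hX0 : (0 : ℝ) < X := by
    rcases Nat.eq_zero_or_pos X with h | h
    · rw [h] at hl; norm_num at hl
    · exact_mod_cast h
  obtain ⟨l, hld⟩ : ∃ l, l = Real.log X := ⟨_, rfl⟩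
  rw [← hld] at hl hm1 hm4 ⊢
  rw [Real.rpow_one] at hm4
  obtain ⟨m, hm⟩ : ∃ m, m = Real.log l := ⟨_, rfl⟩
  rw [← hm] at hm1 hm4
  have hl0 : 0 < l := by linarith
  have hm0 : 0 < m := by linarith
  obtain ⟨b, hb⟩ : ∃ b, b = Ct + ⌈4 * m⌉₊ := ⟨_, rfl⟩
  have hb1 : (b : ℝ) ≤ (Ct + 5) * m := by
    rw [hb]; push_cast
    have h3 := Nat.ceil_lt_add_one (show 0 ≤ 4 * m by positivity)
    have h4 : (0 : ℝ) ≤ Ct := Nat.cast_nonneg _
    nlinarith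
  have hb2 : 4 * m ≤ b := by
    rw [hb]; push_cast
    have := Nat.le_ceil (4 * m)
    have : (0 : ℝ) ≤ Ct := Nat.cast_nonneg _
    linarith
  have hexpl : Real.exp m = l := by rw [hm]; exact Real.exp_log hl0
  refine ⟨b, by omega, ?_, ?_⟩
  · rw [one_div_pow]
    apply one_div_le_one_div_of_le (by positivity)
    have h4 : (2 : ℝ) ^ b = Real.exp (b * Real.log 2) := by
      rw [Real.exp_nat_mul, Real.exp_log (by norm_num)]
    rw [h4, ← hexpl, ← Real.exp_nat_mul]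
    apply Real.exp_le_exp.2
    have h5 : (0.6 : ℝ) ≤ Real.log 2 := by have := Real.log_two_gt_d9; linarith
    have h6 : (4 * m) * 0.6 ≤ b * Real.log 2 := mul_le_mul hb2 h5 (by norm_num) (Nat.cast_nonneg _)
    push_cast
    linarith
  · have hzle : ((⌊l ^ E⌋₊ : ℕ) : ℝ) ≤ l ^ E := Nat.floor_le (by positivity)
    calc ((⌊l ^ E⌋₊ : ℕ) : ℝ) ^ (Ct * b) ≤ (l ^ E) ^ (Ct * b) := pow_le_pow_left₀ (Nat.cast_nonneg _) hzle _
      _ = Real.exp ((E * (Ct * b) : ℕ) * m) := by rw [← pow_mul, Real.exp_nat_mul, hexpl]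
      _ ≤ Real.exp (s * l) := by
          apply Real.exp_le_exp.2
          push_cast
          calc (E : ℝ) * (Ct * b) * m ≤ E * (Ct * ((Ct + 5) * m)) * m := by gcongr
            _ = s * ((1 / s * (E * (Ct * (Ct + 5)))) * m ^ 2) := by field_simp
            _ ≤ s * l := mul_le_mul_of_nonneg_left hm4 hs.le
      _ = (X : ℝ) ^ s := by
          rw [Real.rpow_def_of_pos hX0, hld]
          congr 1
          ring

/-- the sizes of the factors -/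
lemma params_V (E u k B : ℕ) (e c0 : ℝ) (hE : 1 ≤ E) (hu : 1 ≤ u) (he : 1 ≤ e) : ∃ X0 : ℕ, ∀ X : ℕ, X0 ≤ X →
    (1 : ℝ) ≤ Real.log (Real.log X) ∧ (10000 : ℝ) ≤ Real.log X ∧ 36 * (Vz ⌊Real.log X ^ E⌋₊)⁻¹ ≤ √(Real.log X) ∧
    ⌊Real.log X ^ (1 / (u : ℝ))⌋₊ ≤ ⌊Real.log X ^ E⌋₊ ∧ (⌊Real.log X ^ (1 / (u : ℝ))⌋₊ : ℝ) ≤ Real.log X ∧
    c0 ≤ (⌊Real.log X ^ (1 / (u : ℝ))⌋₊ : ℝ) ∧
    384 * e * Real.log (Real.log X) ^ 2 ≤ Real.log X ∧
    16 * e * (Vz ⌊Real.log X ^ E⌋₊)⁻¹ ^ 2 * (6 * k + 1 + 12 * (Real.log e + B) * Real.log (Real.log X)) * Real.log (Real.log X) ^ 2 ≤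
      (⌊Real.log X ^ (1 / (u : ℝ))⌋₊ : ℝ) := by
  obtain ⟨C, hC, hVl⟩ := Vz_log
  have hur : (0 : ℝ) < u := by exact_mod_cast hu
  have hCr : (0 : ℝ) < C := by linarith
  have hle : 0 ≤ Real.log e := Real.log_nonneg he
  have he0 : 0 < e := by linarith
  have hev : ∀ᶠ X : ℕ in atTop, (10000 : ℝ) ≤ Real.log X ∧ (1 : ℝ) ≤ Real.log (Real.log X) ∧
      (36 * (C * E ^ 2)) * Real.log (Real.log X) ^ 2 ≤ Real.log X ^ (1 / 2 : ℝ) ∧
      (|c0| + 4) * Real.log (Real.log X) ^ 0 ≤ Real.log X ^ (1 / (u : ℝ)) ∧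
      (384 * e) * Real.log (Real.log X) ^ 2 ≤ Real.log X ^ (1 : ℝ) ∧
      (32 * e * (C * E ^ 2) ^ 2 * (6 * k + 1 + 12 * (Real.log e + B))) * Real.log (Real.log X) ^ 7 ≤ Real.log X ^ (1 / (u : ℝ)) := by
    filter_upwards [evt_log_ge 10000, evt_ll_ge 1,
      evt_ll 2 (1 / 2) (36 * (C * E ^ 2)) (by norm_num),
      evt_ll 0 (1 / (u : ℝ)) (|c0| + 4) (by positivity),
      evt_ll 2 1 (384 * e) (by norm_num),
      evt_ll 7 (1 / (u : ℝ)) (32 * e * (C * E ^ 2) ^ 2 * (6 * k + 1 + 12 * (Real.log e + B))) (by positivity)] with X a1 a2 a3 a4 a5 a6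
    exact ⟨a1, a2, a3, a4, a5, a6⟩
  obtain ⟨X1, hX1⟩ := eventually_atTop.1 hev
  refine ⟨X1, fun X hX => ?_⟩
  obtain ⟨hl, hm1, hm2, hm3, hm4, hm5⟩ := hX1 X hX
  clear hev hX1 hX
  rw [Real.rpow_one] at hm4
  rw [← Real.sqrt_eq_rpow] at hm2
  rw [pow_zero, mul_one] at hm3
  generalize Real.log X = l at *
  obtain ⟨m, hm⟩ : ∃ m, m = Real.log l := ⟨_, rfl⟩
  rw [← hm] at hm1 hm2 hm4 hm5 ⊢
  obtain ⟨z, hz⟩ : ∃ z, z = ⌊l ^ E⌋₊ := ⟨_, rfl⟩
  obtain ⟨w, hw⟩ : ∃ w, w = ⌊l ^ (1 / (u : ℝ))⌋₊ := ⟨_, rfl⟩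
  rw [← hz, ← hw]
  have hl0 : 0 < l := by linarith
  have hl1 : 1 ≤ l := by linarith
  have hm0 : 0 < m := by linarith
  have hlE : l ≤ l ^ E := le_self_pow₀ hl1 (by omega)
  have hlu : l ^ (1 / (u : ℝ)) ≤ l := by
    calc l ^ (1 / (u : ℝ)) ≤ l ^ (1 : ℝ) := by
          apply Real.rpow_le_rpow_of_exponent_le hl1
          rw [div_le_one hur]; exact_mod_cast hu
      _ = l := Real.rpow_one l
  have hzle : (z : ℝ) ≤ l ^ E := by rw [hz]; exact Nat.floor_le (by positivity)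
  have hz3 : 3 ≤ z := by
    have h3 := Nat.lt_floor_add_one (l ^ E)
    rw [← hz] at h3
    have : (3 : ℝ) ≤ z := by linarith
    exact_mod_cast this
  have hzr : (3 : ℝ) ≤ z := by exact_mod_cast hz3
  have hwle : (w : ℝ) ≤ l ^ (1 / (u : ℝ)) := by rw [hw]; exact Nat.floor_le (by positivity)
  have hwge : l ^ (1 / (u : ℝ)) ≤ 2 * w ∧ c0 ≤ w := by
    have h3 := Nat.lt_floor_add_one (l ^ (1 / (u : ℝ)))
    rw [← hw] at h3
    have h4 := abs_nonneg c0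
    have h5 := le_abs_self c0
    constructor <;> linarith
  have hVz : (Vz z)⁻¹ ≤ C * E ^ 2 * m ^ 2 := by
    refine (hVl z hz3).trans ?_
    have h3 : Real.log z ≤ E * m := by
      have := Real.log_le_log (by linarith) hzle
      rwa [Real.log_pow, ← hm] at this
    have h4 : 0 ≤ Real.log z := Real.log_nonneg (by linarith)
    calc C * Real.log z ^ 2 ≤ C * (E * m) ^ 2 := by gcongr
      _ = _ := by ring
  have hVz0 : 0 ≤ (Vz z)⁻¹ := (inv_pos.2 (OW.Vz_pos z)).le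
  refine ⟨hm1, hl, by linarith, ?_, hwle.trans hlu, hwge.2, by linarith, ?_⟩
  · rw [hw, hz]
    exact Nat.floor_le_floor (hlu.trans hlE)
  · generalize (Vz z)⁻¹ = V at *
    generalize Real.log e = le at *
    have hB0 : (0 : ℝ) ≤ B := Nat.cast_nonneg _
    have hk0 : (0 : ℝ) ≤ k := Nat.cast_nonneg _
    have h1 : 6 * (k : ℝ) + 1 + 12 * (le + B) * m ≤ (6 * k + 1 + 12 * (le + B)) * m := by
      have : (6 * (k : ℝ) + 1) * 1 ≤ (6 * (k : ℝ) + 1) * m := mul_le_mul_of_nonneg_left hm1 (by positivity)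
      linarith
    calc 16 * e * V ^ 2 * (6 * k + 1 + 12 * (le + B) * m) * m ^ 2 ≤
        16 * e * (C * E ^ 2 * m ^ 2) ^ 2 * ((6 * k + 1 + 12 * (le + B)) * m) * m ^ 2 := by gcongr
      _ = (32 * e * (C * E ^ 2) ^ 2 * (6 * k + 1 + 12 * (le + B))) * m ^ 7 / 2 := by ring
      _ ≤ l ^ (1 / (u : ℝ)) / 2 := by linarith
      _ ≤ w := by linarith [hwge.1]

lemma arith_fz (k : ℕ) (S L m Y M D Z w z κ W p zz e κ' : ℝ) (hk : 1 ≤ k) (he : 1 ≤ e) (hm : 1 ≤ m) (hL : 10000 ≤ L)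
    (hS1 : 1 ≤ S) (hM0 : 0 ≤ M) (hM2 : M + 1 ≤ 6 * S) (hD0 : 0 ≤ D) (hD : D ≤ e * (Y / S ^ k)) (hY1 : S ^ k ≤ Y)
    (hZ0 : 0 ≤ Z) (hZ : 36 * Z ≤ √L) (hw0 : 0 < w) (hz : k * z ≤ S / w) (hz0 : 0 ≤ z) (hκ : κ ≤ κ') (hκ0 : 0 ≤ κ)
    (hp0 : 0 ≤ p) (hp : p ≤ 1 / L ^ 2) (hzz0 : 0 ≤ zz) (hzz : zz * L ^ 3 ≤ Y) (hml : 384 * e * m ^ 2 ≤ L)
    (hW : 16 * e * Z ^ 2 * (6 * k + 1 + 6 * κ') * m ^ 2 ≤ w) :
    (M + 1) * (Z * (4 * Y + 2 * zz)) +
      2 * (D * (Y * (Z ^ 2 * (2 * (k * (M / w) + k * z + (M + 1) * (κ / w)))) +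
        (M + 1) * (Y * (4 * p * Z) + 4 * Z ^ 2 * zz))) ≤
      S * Y * √L + Y ^ 2 * (S / S ^ k) * (1 / m ^ 2) := by
  have hL0 : 0 < L := by linarith
  have hm0 : 0 < m := by linarith
  have hS0 : 0 < S := by linarith
  have hSk0 : 0 < S ^ k := by positivity
  have hY0 : 0 < Y := by linarith
  have he0 : 0 < e := by linarith
  have hsq : √L ≤ L := by
    rw [Real.sqrt_le_left hL0.le]
    nlinarith
  have hZL : Z ≤ L := by linarith
  have hk0 : (0 : ℝ) ≤ k := Nat.cast_nonneg _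
  have hzY : zz ≤ Y := by
    refine le_trans ?_ hzz
    exact le_mul_of_one_le_right hzz0 (one_le_pow₀ (by linarith))
  obtain ⟨T, hT⟩ : ∃ T, T = Y ^ 2 * (S / S ^ k) := ⟨_, rfl⟩
  have hT0 : 0 < T := by rw [hT]; positivity
  have hDY : D * Y * S ≤ e * T := by
    calc D * Y * S ≤ (e * (Y / S ^ k)) * Y * S := by gcongr
      _ = e * T := by rw [hT]; ring
  rw [← hT]
  have t1 : (M + 1) * (Z * (4 * Y + 2 * zz)) ≤ S * Y * √L := by
    calc (M + 1) * (Z * (4 * Y + 2 * zz)) ≤ (6 * S) * (Z * (4 * Y + 2 * Y)) := by gcongr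
      _ = S * Y * (36 * Z) := by ring
      _ ≤ _ := mul_le_mul_of_nonneg_left hZ (by positivity)
  have t2 : 2 * (D * (Y * (Z ^ 2 * (2 * (k * (M / w) + k * z + (M + 1) * (κ / w)))))) ≤ T * (1 / (4 * m ^ 2)) := by
    have h1 : k * (M / w) + k * z + (M + 1) * (κ / w) ≤ S * ((6 * k + 1 + 6 * κ') / w) := by
      have h2 : k * (M / w) ≤ k * ((6 * S) / w) := by gcongr; linarith
      have h3 : (M + 1) * (κ / w) ≤ (6 * S) * (κ' / w) := by gcongr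
      have e3 : S * ((6 * k + 1 + 6 * κ') / w) = k * ((6 * S) / w) + S / w + (6 * S) * (κ' / w) := by ring
      rw [e3]
      linarith
    have hκ'0 : 0 ≤ κ' := hκ0.trans hκ
    calc 2 * (D * (Y * (Z ^ 2 * (2 * (k * (M / w) + k * z + (M + 1) * (κ / w)))))) ≤
        2 * (D * (Y * (Z ^ 2 * (2 * (S * ((6 * k + 1 + 6 * κ') / w)))))) := by gcongr
      _ = (D * Y * S) * (4 * Z ^ 2 * ((6 * k + 1 + 6 * κ') / w)) := by ring
      _ ≤ (e * T) * (4 * Z ^ 2 * ((6 * k + 1 + 6 * κ') / w)) := by gcongr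
      _ = T * ((16 * e * Z ^ 2 * (6 * k + 1 + 6 * κ') * m ^ 2) / (4 * m ^ 2 * w)) := by field_simp; ring
      _ ≤ T * (w / (4 * m ^ 2 * w)) := by gcongr
      _ = T * (1 / (4 * m ^ 2)) := by field_simp
  have hLm : 48 * e / L ≤ 1 / (8 * m ^ 2) := by
    rw [div_le_div_iff₀ hL0 (by positivity)]
    linarith
  have t3 : 2 * (D * ((M + 1) * (Y * (4 * p * Z)))) ≤ T * (1 / (8 * m ^ 2)) := by
    calc 2 * (D * ((M + 1) * (Y * (4 * p * Z)))) ≤ 2 * (D * ((6 * S) * (Y * (4 * (1 / L ^ 2) * L)))) := by gcongr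
      _ = (D * Y * S) * (48 / L) := by field_simp; ring
      _ ≤ (e * T) * (48 / L) := by gcongr
      _ = T * (48 * e / L) := by ring
      _ ≤ _ := mul_le_mul_of_nonneg_left hLm hT0.le
  have t4 : 2 * (D * ((M + 1) * (4 * Z ^ 2 * zz))) ≤ T * (1 / (8 * m ^ 2)) := by
    have h1 : Z ^ 2 * zz ≤ Y / L := by
      rw [le_div_iff₀ hL0]
      calc Z ^ 2 * zz * L ≤ L ^ 2 * zz * L := by gcongr
        _ = zz * L ^ 3 := by ring
        _ ≤ Y := hzz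
    calc 2 * (D * ((M + 1) * (4 * Z ^ 2 * zz))) = 8 * D * (M + 1) * (Z ^ 2 * zz) := by ring
      _ ≤ 8 * D * (6 * S) * (Y / L) := by gcongr
      _ = (D * Y * S) * (48 / L) := by ring
      _ ≤ (e * T) * (48 / L) := by gcongr
      _ = T * (48 * e / L) := by ring
      _ ≤ _ := mul_le_mul_of_nonneg_left hLm hT0.le
  have e1 : 2 * (D * (Y * (Z ^ 2 * (2 * (k * (M / w) + k * z + (M + 1) * (κ / w)))) +
        (M + 1) * (Y * (4 * p * Z) + 4 * Z ^ 2 * zz))) =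
      2 * (D * (Y * (Z ^ 2 * (2 * (k * (M / w) + k * z + (M + 1) * (κ / w)))))) +
      2 * (D * ((M + 1) * (Y * (4 * p * Z)))) + 2 * (D * ((M + 1) * (4 * Z ^ 2 * zz))) := by ring
  have e2 : T * (1 / m ^ 2) = T * (1 / (4 * m ^ 2)) + T * (1 / (8 * m ^ 2)) + T * (1 / (8 * m ^ 2)) + T * (1 / (2 * m ^ 2)) := by
    field_simp
    norm_num
  have h9 : 0 ≤ T * (1 / (2 * m ^ 2)) := by positivity
  rw [e1, e2]
  linarith

open Polynomial in
theorem second_fzP (k : ℕ) (hk : 1 ≤ k) (P : ℤ[X]) (hP : P.natDegree = k + 1) (η : ℝ) (hη : 0 < η) (hη1 : η ≤ 1)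
    (B E u : ℕ) (hE : 1 ≤ E) (hu : 1 ≤ u) : ∃ X0 : ℕ, ∀ x : ℕ, X0 ≤ x → ∀ Y : ℕ,
    rt k x ^ k ≤ Y → (Y : ℝ) ≤ rt k x ^ k * Real.log x ^ B →
    ∑ t ∈ Icc (-(x : ℤ)) x, TT (fun n => P.eval (n : ℤ)) ⌈η * rt k x⌉₊ ⌈4 * rt k x⌉₊ Y
        (fz ⌊Real.log x ^ (1 / (u : ℝ))⌋₊ ⌊Real.log x ^ E⌋₊) t ^ 2 ≤
      rt k x * Y * √(Real.log x) + (Y : ℝ) ^ 2 * (rt k x / rt k x ^ k) * (1 / Real.log (Real.log x) ^ 2) := by
  classical
  obtain ⟨C1, y0, hC1, hy0, hsec⟩ := second_fz k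
  obtain ⟨nP, σ, hσ, hgr⟩ := growth k hk P hP
  obtain ⟨e, he⟩ : ∃ e : ℝ, e = (1 / η) ^ k := ⟨_, rfl⟩
  have he1 : 1 ≤ e := by
    rw [he]
    apply one_le_pow₀
    rw [one_le_div hη]; exact hη1
  have hle : 0 ≤ Real.log e := Real.log_nonneg he1
  obtain ⟨Xa, hXa⟩ := params_V E u k B e ((y0 + (k + 1) * P.leadingCoeff.natAbs + 1 : ℕ) : ℝ) hE hu he1
  obtain ⟨Xb, hXb⟩ := params_b E C1 (1 / (2 * ((k : ℝ) + 1))) (by positivity)
  have hev : ∀ᶠ x : ℕ in atTop, (k + nP / η + 10000 : ℝ) ≤ Real.log x ∧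
      Real.log x ^ (E + B + 3) ≤ (x : ℝ) ^ ((1 : ℝ) / (2 * (k + 1))) := by
    filter_upwards [evt_log_ge (k + nP / η + 10000), evt_log_pow (E + B + 3) ((1 : ℝ) / (2 * (k + 1))) (by positivity)] with x h1 h2
    exact ⟨h1, h2⟩
  obtain ⟨Xc, hXc⟩ := eventually_atTop.1 hev
  refine ⟨max (max Xa Xb) (max Xc 1), fun x hx Y hY1 hY2 => ?_⟩
  obtain ⟨hm1, hl, hZ, hwz, hwl, hwc, hml, hW⟩ := hXa x (le_trans (le_trans (le_max_left _ _) (le_max_left _ _)) hx)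
  obtain ⟨b, hb, hpb, hzb⟩ := hXb x (le_trans (le_trans (le_max_right _ _) (le_max_left _ _)) hx)
  obtain ⟨hL, hLS⟩ := hXc x (le_trans (le_trans (le_max_left _ _) (le_max_right _ _)) hx)
  have hx1 : 1 ≤ x := le_trans (le_trans (le_max_right _ _) (le_max_right _ _)) hx
  clear hXa hXb hXc hev hx
  have hSp := rt_pow k x
  have hx0 : (0 : ℝ) < x := by exact_mod_cast hx1
  -- the square root of `S`
  have hSs : ∀ r : ℝ, r = (x : ℝ) ^ ((1 : ℝ) / (2 * (k + 1))) → rt k x = r * r := by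
    intro r hr
    rw [hr, ← Real.rpow_add hx0]
    unfold rt
    congr 1
    field_simp
    norm_num
  obtain ⟨r, hr⟩ : ∃ r, r = (x : ℝ) ^ ((1 : ℝ) / (2 * (k + 1))) := ⟨_, rfl⟩
  have hrr := hSs r hr
  rw [← hr] at hzb hLS
  clear hSs
  generalize hSd : rt k x = S at *
  generalize hLd : Real.log x = L at *
  generalize hmd : Real.log L = m at *
  obtain ⟨z, hz⟩ : ∃ z, z = ⌊L ^ E⌋₊ := ⟨_, rfl⟩
  obtain ⟨w, hw⟩ : ∃ w, w = ⌊L ^ (1 / (u : ℝ))⌋₊ := ⟨_, rfl⟩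
  rw [← hz] at hZ hwz hW hzb ⊢
  rw [← hw] at hwz hwl hwc hW ⊢
  have hL0 : 0 < L := by linarith
  have hL1 : 1 ≤ L := by linarith
  have hLp0 : ∀ n : ℕ, 0 < L ^ n := fun n => by positivity
  have hLp : ∀ n : ℕ, 1 ≤ L ^ n := fun n => one_le_pow₀ hL1
  have hLL : ∀ {i j : ℕ}, i ≤ j → L ^ i ≤ L ^ j := fun h => pow_le_pow_right₀ hL1 h
  have hr1 : 1 ≤ r := (hLp _).trans hLS
  have hr0 : 0 < r := by linarith
  have hS1 : 1 ≤ S := by rw [hrr]; exact one_le_mul_of_one_le_of_one_le hr1 hr1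
  have hS0 : 0 < S := by linarith
  have hrS : r ≤ S := by rw [hrr]; exact le_mul_of_one_le_right hr0.le hr1
  have hLSE : L ^ (E + B + 3) ≤ S := hLS.trans hrS
  have hLS1 : L ≤ S := by
    have := hLL (show 1 ≤ E + B + 3 by omega)
    rw [pow_one] at this
    linarith
  have hSk1 : S ≤ S ^ k := le_self_pow₀ hS1 (by omega)
  have hSk0 : 0 < S ^ k := by positivity
  have hY0 : (0 : ℝ) < Y := by linarith
  -- the ranges
  obtain ⟨N0, hN0⟩ : ∃ N0, N0 = ⌈η * S⌉₊ := ⟨_, rfl⟩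
  obtain ⟨M, hM⟩ : ∃ M, M = ⌈4 * S⌉₊ := ⟨_, rfl⟩
  rw [← hN0, ← hM]
  have hN0r : η * S ≤ N0 := by rw [hN0]; exact Nat.le_ceil _
  have hηS : 0 < η * S := by positivity
  have hk0 : (0 : ℝ) ≤ k := Nat.cast_nonneg _
  have hnPr : (0 : ℝ) ≤ nP / η := by positivity
  have hN0P : nP ≤ N0 := by
    have h1 : (nP : ℝ) / η ≤ S := by linarith
    rw [div_le_iff₀ hη] at h1
    have : (nP : ℝ) ≤ N0 := by linarith
    exact_mod_cast this
  have hN01 : 1 ≤ N0 := by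
    rw [hN0]
    exact Nat.ceil_pos.2 hηS
  have hM2 : (M : ℝ) + 1 ≤ 6 * S := by
    have := Nat.ceil_lt_add_one (show 0 ≤ 4 * S by positivity)
    rw [← hM] at this
    linarith
  -- D
  obtain ⟨D, hD⟩ : ∃ D, D = Y / N0 ^ k := ⟨_, rfl⟩
  have hN0k : 0 < N0 ^ k := Nat.pow_pos hN01
  have hDS : (D : ℝ) ≤ e * (Y / S ^ k) := by
    have h1 : D * N0 ^ k ≤ Y := by rw [hD]; exact Nat.div_mul_le_self _ _
    have h2 : (D : ℝ) * (N0 : ℝ) ^ k ≤ Y := by exact_mod_cast h1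
    have h3 : (D : ℝ) * (η * S) ^ k ≤ Y := by
      refine le_trans ?_ h2
      gcongr
    rw [← le_div_iff₀ (by positivity)] at h3
    refine h3.trans (le_of_eq ?_)
    rw [he, mul_pow, one_div_pow]
    field_simp
  have hgap0 : ∀ n δ : ℕ, N0 ≤ n → (δ : ℤ) * (N0 : ℤ) ^ k ≤ |P.eval ((n + δ : ℕ) : ℤ) - P.eval (n : ℤ)| := by
    intro n δ hn
    have h1 := gap k P nP σ (fun n hn => (hgr n hn).1) N0 hN0P n δ hn
    have h4 : σ * (P.eval ((n + δ : ℕ) : ℤ) - P.eval (n : ℤ)) ≤ |P.eval ((n + δ : ℕ) : ℤ) - P.eval (n : ℤ)| := by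
      rcases hσ with h | h
      · rw [h, one_mul]; exact le_abs_self _
      · rw [h, neg_one_mul]; exact neg_le_abs _
    linarith
  have hgap : ∀ n δ : ℕ, N0 ≤ n → n + δ ≤ M → D < δ →
      (Y : ℤ) ≤ |P.eval ((n + δ : ℕ) : ℤ) - P.eval (n : ℤ)| := by
    intro n δ hn _ hδ
    have h2 : Y < δ * N0 ^ k := by
      rw [hD, Nat.div_lt_iff_lt_mul hN0k] at hδ
      exact hδ
    have h3 : (Y : ℤ) < (δ : ℤ) * (N0 : ℤ) ^ k := by exact_mod_cast h2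
    linarith [hgap0 n δ hn]
  have hne : ∀ n δ : ℕ, N0 ≤ n → 1 ≤ δ → P.eval ((n + δ : ℕ) : ℤ) - P.eval (n : ℤ) ≠ 0 := by
    intro n δ hn hδ h0
    have h1 := hgap0 n δ hn
    rw [h0, abs_zero] at h1
    have h2 : (0 : ℤ) < (δ : ℤ) * (N0 : ℤ) ^ k := by
      apply mul_pos
      · exact_mod_cast hδ
      · exact_mod_cast hN0k
    linarith
  -- w
  have hwc' : y0 + (k + 1) * P.leadingCoeff.natAbs + 1 ≤ w := by exact_mod_cast hwc
  have hw0 : (0 : ℝ) < w := by exact_mod_cast (by omega : 0 < w)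
  have hmain := hsec b hb w z (by omega) hwz P hP (by omega) N0 M Y D (Nat.log 2 D) (Icc (-(x : ℤ)) x) le_rfl hgap hne
  -- the logarithm of D
  have hκ : (Nat.log 2 D : ℝ) ≤ 2 * (Real.log e + B) * m := by
    rcases Nat.eq_zero_or_pos D with h0 | h0
    · rw [h0]
      simp only [Nat.log_zero_right, Nat.cast_zero]
      positivity
    · have h3 : (Nat.log 2 D : ℝ) ≤ Real.log D / Real.log 2 := by
        rw [le_div_iff₀ (Real.log_pos (by norm_num)), ← Real.log_pow]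
        apply Real.log_le_log (by positivity)
        exact_mod_cast Nat.pow_log_le_self 2 (by omega : D ≠ 0)
      have hYS : Y / S ^ k ≤ L ^ B := by
        rw [div_le_iff₀ hSk0]; linarith
      have h4 : Real.log D ≤ Real.log e + B * m := by
        have h5 : (D : ℝ) ≤ e * L ^ B := hDS.trans (mul_le_mul_of_nonneg_left hYS (by linarith))
        have := Real.log_le_log (by exact_mod_cast h0) h5
        rw [Real.log_mul (by linarith) (hLp0 _).ne', Real.log_pow, hmd] at this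
        exact this
      have h5 : (0.5 : ℝ) < Real.log 2 := by have := Real.log_two_gt_d9; linarith
      refine h3.trans ?_
      rw [div_le_iff₀ (by linarith)]
      have h6 : Real.log e * 1 ≤ Real.log e * m := mul_le_mul_of_nonneg_left hm1 hle
      have h7 : 0 ≤ 2 * (Real.log e + B) * m := by positivity
      have h8 : 2 * (Real.log e + B) * m * 0.5 ≤ 2 * (Real.log e + B) * m * Real.log 2 :=
        mul_le_mul_of_nonneg_left h5.le h7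
      linarith only [h4, h6, h8]
  have hzle : (z : ℝ) ≤ L ^ E := by rw [hz]; exact Nat.floor_le (by positivity)
  have hkz : (k : ℝ) * z ≤ S / w := by
    rw [le_div_iff₀ hw0]
    calc (k : ℝ) * z * w ≤ L * L ^ E * L := by
          gcongr
          linarith
      _ = L ^ (E + 2) := by ring
      _ ≤ L ^ (E + B + 3) := hLL (by omega)
      _ ≤ S := hLSE
  have hzz : (z : ℝ) ^ (C1 * b) * L ^ 3 ≤ Y := by
    calc (z : ℝ) ^ (C1 * b) * L ^ 3 ≤ r * r := by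
          apply mul_le_mul hzb ((hLL (by omega)).trans hLS) (by positivity) hr0.le
      _ = S := hrr.symm
      _ ≤ Y := by linarith
  have harith := arith_fz k S L m Y M D (Vz z)⁻¹ w z (Nat.log 2 D) 0 ((1 / 2) ^ b) ((z : ℝ) ^ (C1 * b)) e
    (2 * (Real.log e + B) * m) hk he1 hm1 hl hS1 (Nat.cast_nonneg _) hM2 (Nat.cast_nonneg _) hDS hY1
    (inv_pos.2 (OW.Vz_pos z)).le hZ hw0 hkz (Nat.cast_nonneg _) hκ (Nat.cast_nonneg _) (by positivity) hpb (by positivity)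
    hzz hml (by
      refine le_trans (le_of_eq ?_) hW
      ring)
  exact hmain.trans harith

end Pool.Agent.TH892.OP
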