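import Pool.Agent.TH892.OP.C5
import Pool.Agent.TH892.OP.C6

/-!
The exceptional shifts at all heights of a geometric grid.
-/

set_option autoImplicit false

namespace Pool.Agent.TH892.OP

open Finset Filter
open Pool.Agent.H373R2.T7 (pz Vz lamz mem_pz Vz_ge Vz_inv_le Vz_le_one)
open Pool.Agent.TH892.SW (ff wt wt_nonneg wt_anti wt_le)
open Pool.Agent.TH204.WR (TT rt rt_pow rt_nonneg evt_log_pow evt_log_ge)
open Pool.Agent.TH892.OW (Vz_log evt_ll evt_ll_ge fz lz)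

/-- the heights -/
noncomputable def gh (R T0 l δ : ℝ) (j : ℕ) : ℕ := ⌊R * (T0 * l * (1 + δ) ^ j)⌋₊

/-- the exceptional shifts at the height `Y` -/
noncomputable def BY (G : ℕ → ℤ) (N0 M x w z : ℕ) (c l R : ℝ) (Y : ℕ) : Finset ℤ :=
  (Icc (-(x : ℤ)) x).filter (fun t : ℤ => c * (Y / R / l) < |TT G N0 M Y (ff z) t| ∨ c * (Y / R) < |TT G N0 M Y (fz w z) t|)

lemma cheb1 (x : ℕ) (T : ℤ → ℝ) (τ M : ℝ) (hτ : 0 < τ) (hM : ∑ t ∈ Icc (-(x : ℤ)) x, T t ^ 2 ≤ M) :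
    (#((Icc (-(x : ℤ)) x).filter (fun t : ℤ => τ < |T t|)) : ℝ) ≤ M / τ ^ 2 := by
  rw [le_div_iff₀ (by positivity)]
  refine le_trans ?_ hM
  calc (#((Icc (-(x : ℤ)) x).filter (fun t : ℤ => τ < |T t|)) : ℝ) * τ ^ 2 =
        ∑ _t ∈ (Icc (-(x : ℤ)) x).filter (fun t : ℤ => τ < |T t|), τ ^ 2 := by rw [sum_const, nsmul_eq_mul]
    _ ≤ ∑ t ∈ (Icc (-(x : ℤ)) x).filter (fun t : ℤ => τ < |T t|), T t ^ 2 := by
        refine sum_le_sum fun t ht => ?_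
        rw [mem_filter] at ht
        rw [← sq_abs (T t)]
        exact pow_le_pow_left₀ hτ.le ht.2.le 2
    _ ≤ _ := sum_le_sum_of_subset_of_nonneg (filter_subset _ _) (fun _ _ _ => sq_nonneg _)

lemma BY_card (G : ℕ → ℤ) (N0 M x w z : ℕ) (c l R : ℝ) (Y : ℕ) (hc : 0 < c) (hl : 0 < l) (hR : 0 < R) (hY : 1 ≤ Y) (M1 M2 : ℝ)
    (h1 : ∑ t ∈ Icc (-(x : ℤ)) x, TT G N0 M Y (ff z) t ^ 2 ≤ M1)
    (h2 : ∑ t ∈ Icc (-(x : ℤ)) x, TT G N0 M Y (fz w z) t ^ 2 ≤ M2) :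
    (#(BY G N0 M x w z c l R Y) : ℝ) ≤ M1 / (c * (Y / R / l)) ^ 2 + M2 / (c * (Y / R)) ^ 2 := by
  classical
  have hY0 : (0 : ℝ) < Y := by exact_mod_cast hY
  have a1 := cheb1 x (fun t => TT G N0 M Y (ff z) t) (c * (Y / R / l)) M1 (by positivity) h1
  have a2 := cheb1 x (fun t => TT G N0 M Y (fz w z) t) (c * (Y / R)) M2 (by positivity) h2
  have hsub : BY G N0 M x w z c l R Y ⊆
      (Icc (-(x : ℤ)) x).filter (fun t : ℤ => c * (Y / R / l) < |TT G N0 M Y (ff z) t|) ∪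
      (Icc (-(x : ℤ)) x).filter (fun t : ℤ => c * (Y / R) < |TT G N0 M Y (fz w z) t|) := by
    intro t ht
    unfold BY at ht
    rw [mem_filter] at ht
    obtain ⟨b1, b2 | b2⟩ := ht
    · exact mem_union_left _ (mem_filter.2 ⟨b1, b2⟩)
    · exact mem_union_right _ (mem_filter.2 ⟨b1, b2⟩)
  have h3 := (card_le_card hsub).trans (card_union_le _ _)
  have h4 : (#(BY G N0 M x w z c l R Y) : ℝ) ≤
      #((Icc (-(x : ℤ)) x).filter (fun t : ℤ => c * (Y / R / l) < |TT G N0 M Y (ff z) t|)) +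
      #((Icc (-(x : ℤ)) x).filter (fun t : ℤ => c * (Y / R) < |TT G N0 M Y (fz w z) t|)) := by exact_mod_cast h3
  linarith

/-- the bound at one height -/
lemma height_ar (T0 l m δ c S R Y : ℝ) (j : ℕ) (hT0 : 1 ≤ T0) (hl : 10000 ≤ l) (hm : 1 ≤ m) (hml : 16 * m ^ 4 ≤ l)
    (hδ : 0 < δ) (hc : 0 < c) (hS : 0 < S) (hR : 0 < R) (hY : R * (T0 * l * (1 + δ) ^ j) ≤ 2 * Y) :
    3000 * (S * Y / l) / (c * (Y / R / l)) ^ 2 +
      (S * Y * √l + Y ^ 2 * (S / R) * (1 / m ^ 2)) / (c * (Y / R)) ^ 2 ≤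
      S * R * (6000 / (c ^ 2 * T0) * (1 / (1 + δ)) ^ j + 2 / (c ^ 2 * m ^ 2)) := by
  have hl0 : 0 < l := by linarith
  have hm0 : 0 < m := by linarith
  have hT00 : 0 < T0 := by linarith
  have hp : 0 < (1 + δ) ^ j := by positivity
  have hp1 : 1 ≤ (1 + δ) ^ j := one_le_pow₀ (by linarith)
  have hY0 : 0 < Y := by
    have : 0 < R * (T0 * l * (1 + δ) ^ j) := by positivity
    linarith
  obtain ⟨ρ, hρ⟩ : ∃ ρ, ρ = Y / R := ⟨_, rfl⟩
  have hρ0 : 0 < ρ := by rw [hρ]; positivity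
  have hYρ : Y = ρ * R := by rw [hρ]; field_simp
  have hρ2 : T0 * l * (1 + δ) ^ j ≤ 2 * ρ := by
    rw [hYρ] at hY
    have : (T0 * l * (1 + δ) ^ j) * R ≤ (2 * ρ) * R := by linarith
    exact le_of_mul_le_mul_right this hR
  have hinv : (1 / (1 + δ)) ^ j = 1 / (1 + δ) ^ j := by rw [one_div_pow]
  rw [hinv, ← hρ]
  have e1 : 3000 * (S * Y / l) / (c * (ρ / l)) ^ 2 = S * R / c ^ 2 * (3000 * l / ρ) := by rw [hYρ]; field_simp
  have e2 : (S * Y * √l + Y ^ 2 * (S / R) * (1 / m ^ 2)) / (c * ρ) ^ 2 = S * R / c ^ 2 * (√l / ρ + 1 / m ^ 2) := by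
    rw [hYρ]; field_simp
  have e3 : S * R * (6000 / (c ^ 2 * T0) * (1 / (1 + δ) ^ j) + 2 / (c ^ 2 * m ^ 2)) =
      S * R / c ^ 2 * (6000 / (T0 * (1 + δ) ^ j) + 2 / m ^ 2) := by field_simp
  rw [e1, e2, e3, ← mul_add]
  apply mul_le_mul_of_nonneg_left _ (by positivity)
  have f1 : 3000 * l / ρ ≤ 6000 / (T0 * (1 + δ) ^ j) := by
    rw [div_le_div_iff₀ hρ0 (by positivity)]
    nlinarith
  have hLl : l ≤ 2 * ρ := by
    refine le_trans ?_ hρ2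
    calc l = 1 * l * 1 := by ring
      _ ≤ T0 * l * (1 + δ) ^ j := by gcongr
  have f3 : √l / ρ ≤ 1 / m ^ 2 := by
    rw [div_le_div_iff₀ hρ0 (by positivity)]
    have h1 : √l * √l = l := Real.mul_self_sqrt hl0.le
    have h2 : 4 * m ^ 2 ≤ √l := by
      apply Real.le_sqrt_of_sq_le
      calc (4 * m ^ 2) ^ 2 = 16 * m ^ 4 := by ring
        _ ≤ l := hml
    have h3 : 0 ≤ √l := Real.sqrt_nonneg l
    nlinarith
  have e4 : 2 / m ^ 2 = 1 / m ^ 2 + 1 / m ^ 2 := by ring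
  rw [e4]
  linarith

open Polynomial in
theorem grid_badP (k : ℕ) (hk : 1 ≤ k) (P : ℤ[X]) (hP : P.natDegree = k + 1) (η0 : ℝ) (hη0 : 0 < η0) (hη01 : η0 ≤ 1)
    (B : ℕ) (c δ η : ℝ) (hc : 0 < c) (hδ : 0 < δ) (hη : 0 < η) :
    ∃ T0 : ℝ, 1 ≤ T0 ∧ ∃ E1 : ℕ, ∀ E : ℕ, E1 ≤ E → ∀ u : ℕ, 1 ≤ u → ∃ X0 : ℕ, ∀ x : ℕ, X0 ≤ x →
    ∃ Bad : Finset ℤ, Bad ⊆ Icc (-(x : ℤ)) x ∧ (#Bad : ℝ) ≤ η * x ∧
    ∀ t ∈ Icc (-(x : ℤ)) x, t ∉ Bad →
      ∀ j : ℕ, (gh (rt k x ^ k) T0 (Real.log x) δ j : ℝ) ≤ rt k x ^ k * Real.log x ^ B →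
        |TT (fun n => P.eval (n : ℤ)) ⌈η0 * rt k x⌉₊ ⌈4 * rt k x⌉₊ (gh (rt k x ^ k) T0 (Real.log x) δ j)
          (ff ⌊Real.log x ^ E⌋₊) t| ≤ c * ((gh (rt k x ^ k) T0 (Real.log x) δ j : ℝ) / rt k x ^ k / Real.log x) ∧
        |TT (fun n => P.eval (n : ℤ)) ⌈η0 * rt k x⌉₊ ⌈4 * rt k x⌉₊ (gh (rt k x ^ k) T0 (Real.log x) δ j)
          (fz ⌊Real.log x ^ (1 / (u : ℝ))⌋₊ ⌊Real.log x ^ E⌋₊) t| ≤ c * ((gh (rt k x ^ k) T0 (Real.log x) δ j : ℝ) / rt k x ^ k) := by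
  classical
  obtain ⟨E1, h1⟩ := second_ffP k hk P hP η0 hη0 hη01 B
  obtain ⟨T0, hT0d⟩ : ∃ T0 : ℝ, T0 = max 1 (24000 * (1 + δ) / (c ^ 2 * δ * η)) := ⟨_, rfl⟩
  have hT01 : 1 ≤ T0 := by rw [hT0d]; exact le_max_left _ _
  have hT02 : 24000 * (1 + δ) / (c ^ 2 * δ * η) ≤ T0 := by rw [hT0d]; exact le_max_right _ _
  refine ⟨T0, hT01, E1 + 1, fun E hE u hu => ?_⟩
  obtain ⟨Xa, hXa⟩ := h1 E (by omega)
  obtain ⟨Xb, hXb⟩ := second_fzP k hk P hP η0 hη0 hη01 B E u (by omega) hu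
  have hlδ : 0 < Real.log (1 + δ) := Real.log_pos (by linarith)
  have hev : ∀ᶠ X : ℕ in atTop, (10000 : ℝ) ≤ Real.log X ∧ (1 : ℝ) ≤ Real.log (Real.log X) ∧
      16 * Real.log (Real.log X) ^ 4 ≤ Real.log X ^ (1 : ℝ) ∧
      8 / (c ^ 2 * η) * (B / Real.log (1 + δ) + 1) ≤ Real.log (Real.log X) := by
    filter_upwards [evt_log_ge 10000, evt_ll_ge 1, evt_ll 4 1 16 (by norm_num),
      evt_ll_ge (8 / (c ^ 2 * η) * (B / Real.log (1 + δ) + 1))] with X a1 a2 a3 a4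
    exact ⟨a1, a2, a3, a4⟩
  obtain ⟨Xc, hXc⟩ := eventually_atTop.1 hev
  refine ⟨max (max Xa Xb) (max Xc 1), fun x hx => ?_⟩
  have hff := hXa x (le_trans (le_trans (le_max_left _ _) (le_max_left _ _)) hx)
  have hfz := hXb x (le_trans (le_trans (le_max_right _ _) (le_max_left _ _)) hx)
  obtain ⟨hl, hm1, hml, hmJ⟩ := hXc x (le_trans (le_trans (le_max_left _ _) (le_max_right _ _)) hx)
  have hx1 : 1 ≤ x := le_trans (le_trans (le_max_right _ _) (le_max_right _ _)) hx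
  clear hXa hXb hXc hev h1 hx
  rw [Real.rpow_one] at hml
  have hSp := rt_pow k x
  have hxr : (1 : ℝ) ≤ x := by exact_mod_cast hx1
  have hx0 : (0 : ℝ) < x := by linarith
  have hSpos : 0 < rt k x := by
    unfold rt
    exact Real.rpow_pos_of_pos hx0 _
  have hS1 : 1 ≤ rt k x := by
    unfold rt
    exact Real.one_le_rpow hxr (by positivity)
  generalize ⌊Real.log x ^ (1 / (u : ℝ))⌋₊ = w at *
  generalize ⌊Real.log x ^ E⌋₊ = z at *
  generalize Real.log x = l at *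
  obtain ⟨m, hm⟩ : ∃ m, m = Real.log l := ⟨_, rfl⟩
  rw [← hm] at hm1 hml hmJ hfz
  generalize ⌈η0 * rt k x⌉₊ = N0 at *
  generalize ⌈4 * rt k x⌉₊ = M at *
  generalize rt k x = S at *
  obtain ⟨R, hR⟩ : ∃ R, R = S ^ k := ⟨_, rfl⟩
  rw [← hR] at hff hfz ⊢
  have hR0 : 0 < R := by rw [hR]; positivity
  have hR1 : 1 ≤ R := by rw [hR]; exact one_le_pow₀ hS1
  have hSR : S * R = x := by rw [← hSp, hR]; ring
  have hl0 : 0 < l := by linarith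
  have hl1 : 1 ≤ l := by linarith
  have hm0 : 0 < m := by linarith
  obtain ⟨J, hJ⟩ : ∃ J, J = ⌊B / Real.log (1 + δ) * m⌋₊ := ⟨_, rfl⟩
  -- the heights
  have hscale : ∀ j : ℕ, (gh R T0 l δ j : ℝ) ≤ R * l ^ B → 1 ≤ gh R T0 l δ j ∧ R * (T0 * l * (1 + δ) ^ j) ≤ 2 * gh R T0 l δ j ∧
      R ≤ gh R T0 l δ j ∧ j ≤ J := by
    intro j hj
    have hp1 : 1 ≤ (1 + δ) ^ j := one_le_pow₀ (by linarith)
    have h3 : R * (T0 * l * (1 + δ) ^ j) < gh R T0 l δ j + 1 := Nat.lt_floor_add_one _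
    have h4 : l * (1 + δ) ^ j ≤ T0 * l * (1 + δ) ^ j := by
      apply mul_le_mul_of_nonneg_right _ (by linarith)
      nlinarith
    have h5 : l * 1 ≤ l * (1 + δ) ^ j := mul_le_mul_of_nonneg_left hp1 hl0.le
    have h6 : R * 10000 ≤ R * (T0 * l * (1 + δ) ^ j) := mul_le_mul_of_nonneg_left (by linarith) hR0.le
    have h7 : (1 : ℝ) ≤ gh R T0 l δ j := by linarith
    refine ⟨by exact_mod_cast h7, by linarith, by linarith, ?_⟩
    rw [hJ]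
    apply Nat.le_floor
    have h8 : (1 + δ) ^ j ≤ l ^ B := by
      have h9 : 2 * (1 + δ) ^ j ≤ T0 * l * (1 + δ) ^ j := by
        refine le_trans (mul_le_mul_of_nonneg_right (by linarith) (by linarith)) h4
      have h10 : R * (2 * (1 + δ) ^ j) ≤ R * (T0 * l * (1 + δ) ^ j) := mul_le_mul_of_nonneg_left h9 hR0.le
      have h11 : R * (1 + δ) ^ j ≤ R * l ^ B := by
        have h12 : 1 * 1 ≤ R * (1 + δ) ^ j := mul_le_mul hR1 hp1 (by norm_num) hR0.le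
        linarith
      exact le_of_mul_le_mul_left h11 hR0
    have h9 := Real.log_le_log (by positivity) h8
    rw [Real.log_pow, Real.log_pow, ← hm] at h9
    rw [div_mul_eq_mul_div, le_div_iff₀ hlδ]
    exact h9
  obtain ⟨Ks, hKs⟩ : ∃ Ks, Ks = (range (J + 1)).filter (fun j => (gh R T0 l δ j : ℝ) ≤ R * l ^ B) := ⟨_, rfl⟩
  refine ⟨Ks.biUnion (fun j => BY (fun n => P.eval (n : ℤ)) N0 M x w z c l R (gh R T0 l δ j)), ?_, ?_, ?_⟩
  · exact biUnion_subset.2 fun j _ => filter_subset _ _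
  · have h3 : (#(Ks.biUnion (fun j => BY (fun n => P.eval (n : ℤ)) N0 M x w z c l R (gh R T0 l δ j))) : ℝ) ≤
        ∑ j ∈ Ks, x * (6000 / (c ^ 2 * T0) * (1 / (1 + δ)) ^ j + 2 / (c ^ 2 * m ^ 2)) := by
      refine le_trans (Nat.cast_le.2 card_biUnion_le) ?_
      push_cast
      refine sum_le_sum fun j hj => ?_
      rw [hKs, mem_filter] at hj
      obtain ⟨g1, g2, g3, g4⟩ := hscale j hj.2
      refine (BY_card _ N0 M x w z c l R _ hc hl0 hR0 g1 _ _ (hff _ g3 hj.2) (hfz _ g3 hj.2)).trans ?_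
      rw [← hSR]
      exact height_ar T0 l m δ c S R _ j hT01 hl hm1 hml hδ hc hSpos hR0 g2
    refine h3.trans ?_
    rw [← mul_sum, sum_add_distrib, ← mul_sum, sum_const, nsmul_eq_mul]
    have h4 : ∑ j ∈ Ks, (1 / (1 + δ)) ^ j ≤ (1 + δ) / δ := by
      have hx0 : 0 ≤ 1 / (1 + δ) := by positivity
      have hx1 : 1 / (1 + δ) < 1 := by rw [div_lt_one (by linarith)]; linarith
      have h5 := (summable_geometric_of_lt_one hx0 hx1).sum_le_tsum Ks (fun j _ => pow_nonneg hx0 j)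
      rw [tsum_geometric_of_lt_one hx0 hx1] at h5
      refine h5.trans (le_of_eq ?_)
      have h6 : 1 - 1 / (1 + δ) = δ / (1 + δ) := by field_simp; ring
      rw [h6, inv_div]
    have h5 : (#Ks : ℝ) ≤ (B / Real.log (1 + δ) + 1) * m := by
      have h6 : #Ks ≤ J + 1 := by
        rw [hKs]
        exact (card_filter_le _ _).trans (card_range _).le
      have h7 : (J : ℝ) ≤ B / Real.log (1 + δ) * m := by rw [hJ]; exact Nat.floor_le (by positivity)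
      have h8 : (#Ks : ℝ) ≤ J + 1 := by exact_mod_cast h6
      linarith
    have h6 : 6000 / (c ^ 2 * T0) * ∑ j ∈ Ks, (1 / (1 + δ)) ^ j ≤ η / 4 := by
      calc 6000 / (c ^ 2 * T0) * ∑ j ∈ Ks, (1 / (1 + δ)) ^ j ≤ 6000 / (c ^ 2 * T0) * ((1 + δ) / δ) :=
            mul_le_mul_of_nonneg_left h4 (by positivity)
        _ ≤ η / 4 := by
            rw [div_mul_div_comm, div_le_div_iff₀ (by positivity) (by norm_num)]
            rw [div_le_iff₀ (by positivity)] at hT02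
            calc 6000 * (1 + δ) * 4 = 24000 * (1 + δ) := by ring
              _ ≤ T0 * (c ^ 2 * δ * η) := hT02
              _ = η * (c ^ 2 * T0 * δ) := by ring
    have h7 : (#Ks : ℝ) * (2 / (c ^ 2 * m ^ 2)) ≤ η / 4 := by
      calc (#Ks : ℝ) * (2 / (c ^ 2 * m ^ 2)) ≤ ((B / Real.log (1 + δ) + 1) * m) * (2 / (c ^ 2 * m ^ 2)) :=
            mul_le_mul_of_nonneg_right h5 (by positivity)
        _ = (8 / (c ^ 2 * η) * (B / Real.log (1 + δ) + 1)) * (η / (4 * m)) := by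
            field_simp
            norm_num
        _ ≤ m * (η / (4 * m)) := mul_le_mul_of_nonneg_right hmJ (by positivity)
        _ = η / 4 := by field_simp
    calc (x : ℝ) * (6000 / (c ^ 2 * T0) * ∑ j ∈ Ks, (1 / (1 + δ)) ^ j + #Ks * (2 / (c ^ 2 * m ^ 2)))
        ≤ x * (η / 4 + η / 4) := mul_le_mul_of_nonneg_left (add_le_add h6 h7) hx0.le
      _ ≤ η * x := by nlinarith
  · intro t ht htB j hj
    obtain ⟨g1, g2, g3, g4⟩ := hscale j hj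
    have h3 : t ∉ BY (fun n => P.eval (n : ℤ)) N0 M x w z c l R (gh R T0 l δ j) := by
      intro h4
      apply htB
      rw [mem_biUnion]
      refine ⟨j, ?_, h4⟩
      rw [hKs, mem_filter, mem_range]
      exact ⟨by omega, hj⟩
    unfold BY at h3
    rw [mem_filter, not_and] at h3
    have h4 := h3 ht
    push Not at h4
    exact h4

end Pool.Agent.TH892.OP
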