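import Pool.Agent.TH892.OP.C4
import Pool.Agent.TH204.WR.W13

/-!
The product of the local densities at a very small cutoff.
-/

set_option autoImplicit false

namespace Pool.Agent.TH892.OP

open Finset Filter Polynomial
open Pool.Agent.H373R2.T7 (pz Vz lamz mem_pz Vz_ge Vz_inv_le Vz_le_one)
open Pool.Agent.TH204.WR (xp rho hh hh_nonneg hh_close tail_second tail_all V_low evt_log_pow evt_log_ge)
open Pool.Agent.TH892.OW (evt_ll evt_ll_ge one_le_Vz_inv)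

lemma cheb2 (x : ℕ) (T : ℤ → ℝ) (τ M : ℝ) (hτ : 0 < τ) (hM : ∑ t ∈ Icc (-(x : ℤ)) x, T t ^ 2 ≤ M) :
    (#((Icc (-(x : ℤ)) x).filter (fun t : ℤ => τ < |T t|)) : ℝ) ≤ M / τ ^ 2 := by
  rw [le_div_iff₀ (by positivity)]
  refine le_trans ?_ hM
  calc (#((Icc (-(x : ℤ)) x).filter (fun t : ℤ => τ < |T t|)) : ℝ) * τ ^ 2 =
        ∑ _t ∈ (Icc (-(x : ℤ)) x).filter (fun t : ℤ => τ < |T t|), τ ^ 2 := by rw [sum_const, nsmul_eq_mul]
    _ ≤ ∑ t ∈ (Icc (-(x : ℤ)) x).filter (fun t : ℤ => τ < |T t|), T t ^ 2 := by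
        refine sum_le_sum fun t ht => ?_
        rw [mem_filter] at ht
        rw [← sq_abs (T t)]
        exact pow_le_pow_left₀ hτ.le ht.2.le 2
    _ ≤ _ := sum_le_sum_of_subset_of_nonneg (filter_subset _ _) (fun _ _ _ => sq_nonneg _)

theorem h_goodP (F : ℤ[X]) (hd : 1 ≤ F.natDegree) (η : ℝ) (hη : 0 < η) : ∃ δ0 : ℝ, 0 < δ0 ∧ ∀ ε1 : ℝ, 0 < ε1 →
    ∃ E1 : ℕ, ∀ E : ℕ, E1 ≤ E → ∀ u : ℕ, 1 ≤ u →
    ∃ X0 : ℕ, ∀ x : ℕ, X0 ≤ x → ∃ Bad : Finset ℤ, Bad ⊆ Icc (-(x : ℤ)) x ∧ (#Bad : ℝ) ≤ η * x ∧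
    ∀ t ∈ Icc (-(x : ℤ)) x, t ∉ Bad → (∀ p : ℕ, p.Prime → rho F t p < p) →
      δ0 ≤ hh F t ⌊Real.log x ^ (1 / (u : ℝ))⌋₊ ∧
      ∀ z : ℕ, ⌊Real.log x ^ E⌋₊ ≤ z → z ^ 3 ≤ x →
        |hh F t z - hh F t ⌊Real.log x ^ (1 / (u : ℝ))⌋₊| ≤ ε1 * hh F t ⌊Real.log x ^ (1 / (u : ℝ))⌋₊ := by
  classical
  have hF0 : F ≠ 0 := by
    intro h
    rw [h, natDegree_zero] at hd
    omega
  have hl0 : F.leadingCoeff ≠ 0 := leadingCoeff_ne_zero.2 hF0
  obtain ⟨d, hdd⟩ : ∃ d, d = F.natDegree := ⟨_, rfl⟩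
  obtain ⟨w0, hw0⟩ : ∃ w0 : ℕ, w0 = F.leadingCoeff.natAbs + 4 * d + 64 * d ^ 2 + ⌈4096 * (d : ℝ) ^ 2 / η⌉₊ + 2 := ⟨_, rfl⟩
  have hw01 : 4096 * (d : ℝ) ^ 2 / η ≤ w0 := by
    have h1 := Nat.le_ceil (4096 * (d : ℝ) ^ 2 / η)
    have h2 : ((⌈4096 * (d : ℝ) ^ 2 / η⌉₊ : ℕ) : ℝ) ≤ w0 := by exact_mod_cast (by omega : ⌈4096 * (d : ℝ) ^ 2 / η⌉₊ ≤ w0)
    linarith
  have hw02 : F.leadingCoeff.natAbs ≤ w0 := by omega
  have hw03 : 4 * d ≤ w0 := by omega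
  have hw04 : 64 * (d : ℝ) ^ 2 ≤ w0 := by exact_mod_cast (by omega : 64 * d ^ 2 ≤ w0)
  have hw05 : 2 ≤ w0 := by omega
  have hw0r : (0 : ℝ) < w0 := by exact_mod_cast (by omega : 0 < w0)
  have hVw0 := OW.Vz_pos w0
  rw [← hdd] at hd
  have hd0 : (0 : ℝ) < d := by exact_mod_cast hd
  refine ⟨((1 / (2 * (d : ℝ))) ^ (2 * d) * Vz w0 ^ (2 * d)) / 2, by positivity, fun ε1 hε1 => ?_⟩
  obtain ⟨E1, h1⟩ := tail_all F (by omega) 1 1
  refine ⟨E1 + 1, fun E hE u hu => ?_⟩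
  obtain ⟨Xa, hXa⟩ := h1 E (by omega)
  obtain ⟨κ, hκ⟩ : ∃ κ, κ = min ε1 1 / 8 := ⟨_, rfl⟩
  have hmin : 0 < min ε1 1 := lt_min hε1 one_pos
  have hκ0 : 0 < κ := by rw [hκ]; positivity
  have hκ1 : 8 * κ ≤ ε1 := by rw [hκ]; have := min_le_left ε1 1; linarith
  have hκ2 : 8 * κ ≤ 1 := by rw [hκ]; have := min_le_right ε1 1; linarith
  have hur : (0 : ℝ) < u := by exact_mod_cast hu
  obtain ⟨c1, hc1⟩ : ∃ c1 : ℝ, c1 = 64 * (d : ℝ) ^ 2 / (η * κ ^ 2) + 8 * (d : ℝ) ^ 2 / κ + w0 + 2 := ⟨_, rfl⟩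
  have hev : ∀ᶠ X : ℕ in atTop, (10000 : ℝ) ≤ Real.log X ∧
      c1 * Real.log (Real.log X) ^ 0 ≤ Real.log X ^ (1 / (u : ℝ)) ∧
      Real.log X ^ (3 * E) ≤ (X : ℝ) ^ (1 : ℝ) ∧ 1 / κ + 4 / η ≤ Real.log X := by
    filter_upwards [evt_log_ge 10000, evt_ll 0 (1 / (u : ℝ)) c1 (by positivity),
      evt_log_pow (3 * E) 1 (by norm_num), evt_log_ge (1 / κ + 4 / η)] with X a1 a2 a3 a4
    exact ⟨a1, a2, a3, a4⟩
  obtain ⟨Xb, hXb⟩ := eventually_atTop.1 hev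
  refine ⟨max Xa Xb, fun x hx => ?_⟩
  obtain ⟨B, hBs, hB, hBK⟩ := hXa x ((le_max_left _ _).trans hx)
  obtain ⟨hl, hlu, hlX, hlκ⟩ := hXb x ((le_max_right _ _).trans hx)
  clear hXa hXb hev h1 hx
  have hx1 : 1 ≤ x := by
    rcases Nat.eq_zero_or_pos x with h | h
    · rw [h] at hl; norm_num at hl
    · exact h
  rw [pow_zero, mul_one] at hlu
  rw [Real.rpow_one] at hlX
  rw [pow_one] at hB
  simp only [pow_one] at hBK
  generalize Real.log x = l at *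
  have hl0' : 0 < l := by linarith
  have hl1 : 1 ≤ l := by linarith
  have hxr : (1 : ℝ) ≤ x := by exact_mod_cast hx1
  have hx0 : (0 : ℝ) < x := by linarith
  obtain ⟨w, hw⟩ : ∃ w, w = ⌊l ^ (1 / (u : ℝ))⌋₊ := ⟨_, rfl⟩
  obtain ⟨y, hy⟩ : ∃ y, y = ⌊l ^ E⌋₊ := ⟨_, rfl⟩
  rw [← hw]
  rw [← hy] at hBK ⊢
  have p1 : 0 ≤ 64 * (d : ℝ) ^ 2 / (η * κ ^ 2) := by positivity
  have p2 : 0 ≤ 8 * (d : ℝ) ^ 2 / κ := by positivity
  have p3 : 0 < 1 / κ := by positivity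
  have p4 : 0 < 4 / η := by positivity
  have hwc : 64 * (d : ℝ) ^ 2 / (η * κ ^ 2) + 8 * (d : ℝ) ^ 2 / κ + w0 ≤ w := by
    have h3 := Nat.lt_floor_add_one (l ^ (1 / (u : ℝ)))
    rw [← hw] at h3
    linarith
  have hww0 : w0 ≤ w := by
    have : (w0 : ℝ) ≤ w := by linarith
    exact_mod_cast this
  have hw0' : (0 : ℝ) < w := by linarith
  have hlu1 : l ^ (1 / (u : ℝ)) ≤ l ^ E := by
    calc l ^ (1 / (u : ℝ)) ≤ l ^ (1 : ℝ) := by
          apply Real.rpow_le_rpow_of_exponent_le hl1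
          rw [div_le_one hur]; exact_mod_cast hu
      _ = l := Real.rpow_one _
      _ ≤ l ^ E := le_self_pow₀ hl1 (by omega)
  have hwy : w ≤ y := by rw [hw, hy]; exact Nat.floor_le_floor hlu1
  have hyle : (y : ℝ) ≤ l ^ E := by rw [hy]; exact Nat.floor_le (by positivity)
  have hy3 : y ^ 3 ≤ x := by
    have : (y : ℝ) ^ 3 ≤ x := by
      calc (y : ℝ) ^ 3 ≤ (l ^ E) ^ 3 := by gcongr
        _ = l ^ (3 * E) := by rw [← pow_mul]; congr 1; ring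
        _ ≤ x := hlX
    exact_mod_cast this
  have hw3 : w ^ 3 ≤ x := (Nat.pow_le_pow_left hwy 3).trans hy3
  have s1 := tail_second F x w0 w (by omega) hw02 hl0 (by omega) hx1 hw3 hww0
  have s2 := tail_second F x w y (by omega) (hw02.trans hww0) hl0 (by omega) hx1 hy3 hwy
  rw [← hdd] at s1 s2
  obtain ⟨B1, hB1⟩ : ∃ B1, B1 = (Icc (-(x : ℤ)) x).filter (fun t : ℤ => 1 / 8 < |∑ p ∈ (Ioc w0 w).filter Nat.Prime, xp F t p|) := ⟨_, rfl⟩
  obtain ⟨B2, hB2⟩ : ∃ B2, B2 = (Icc (-(x : ℤ)) x).filter (fun t : ℤ => κ < |∑ p ∈ (Ioc w y).filter Nat.Prime, xp F t p|) := ⟨_, rfl⟩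
  have c1' := cheb2 x _ (1 / 8) _ (by norm_num) s1
  have c2' := cheb2 x _ κ _ hκ0 s2
  rw [← hB1] at c1'
  rw [← hB2] at c2'
  have d1 : (#B1 : ℝ) ≤ η * x / 4 := by
    refine c1'.trans ?_
    rw [div_le_iff₀ (by norm_num)]
    rw [div_le_iff₀ hη] at hw01
    calc 16 * (d : ℝ) ^ 2 * (x / w0) = (4096 * (d : ℝ) ^ 2) * (x / (256 * w0)) := by field_simp; norm_num
      _ ≤ (w0 * η) * (x / (256 * w0)) := mul_le_mul_of_nonneg_right hw01 (by positivity)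
      _ = η * x / 4 * (1 / 8) ^ 2 := by field_simp; norm_num
  have d2 : (#B2 : ℝ) ≤ η * x / 4 := by
    refine c2'.trans ?_
    rw [div_le_iff₀ (by positivity)]
    have h3 : 64 * (d : ℝ) ^ 2 / (η * κ ^ 2) ≤ w := by linarith
    rw [div_le_iff₀ (by positivity)] at h3
    calc 16 * (d : ℝ) ^ 2 * (x / w) = (64 * (d : ℝ) ^ 2) * (x / (4 * w)) := by field_simp; norm_num
      _ ≤ (w * (η * κ ^ 2)) * (x / (4 * w)) := mul_le_mul_of_nonneg_right h3 (by positivity)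
      _ = η * x / 4 * κ ^ 2 := by field_simp
  have d3 : (#B : ℝ) ≤ η * x / 4 := by
    refine hB.trans ?_
    rw [div_le_div_iff₀ hl0' (by norm_num)]
    have h3 : 4 / η ≤ l := by linarith
    rw [div_le_iff₀ hη] at h3
    have h4 := mul_le_mul_of_nonneg_right h3 hx0.le
    linarith only [h4]
  refine ⟨B ∪ B1 ∪ B2, ?_, ?_, ?_⟩
  · refine union_subset (union_subset hBs ?_) ?_
    · rw [hB1]; exact filter_subset _ _
    · rw [hB2]; exact filter_subset _ _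
  · have h3 := card_union_le (B ∪ B1) B2
    have h4 := card_union_le B B1
    have h5 : (#(B ∪ B1 ∪ B2) : ℝ) ≤ #B + #B1 + #B2 := by exact_mod_cast (by omega : #(B ∪ B1 ∪ B2) ≤ #B + #B1 + #B2)
    have h6 : 0 < η * x := by positivity
    linarith
  · intro t ht htB hrho
    rw [mem_union, mem_union, not_or, not_or] at htB
    obtain ⟨⟨k1, k2⟩, k3⟩ := htB
    have hN := hBK t ht k1
    have l1 : |∑ p ∈ (Ioc w0 w).filter Nat.Prime, xp F t p| ≤ 1 / 8 := by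
      by_contra hc
      push Not at hc
      exact k2 (by rw [hB1, mem_filter]; exact ⟨ht, hc⟩)
    have l2 : |∑ p ∈ (Ioc w y).filter Nat.Prime, xp F t p| ≤ κ := by
      by_contra hc
      push Not at hc
      exact k3 (by rw [hB2, mem_filter]; exact ⟨ht, hc⟩)
    have hlt : 1 / l ≤ κ := by
      rw [div_le_iff₀ hl0']
      have h3 : 1 / κ ≤ l := by linarith
      rw [div_le_iff₀ hκ0] at h3
      linarith
    constructor
    · have h3 := hh_close F t w0 w (by omega) hw02 hl0 hww0 (1 / 8) (by rw [← hdd]; linarith) (by omega) (by norm_num) l1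
      have h4 := V_low F t w0 d hd hdd.ge (fun p hp => hrho p (mem_pz.1 hp).2)
      have h5 : (1 / (2 * (d : ℝ))) ^ (2 * d) * Vz w0 ^ (2 * d) ≤ hh F t w0 := by
        refine h4.trans ?_
        unfold hh
        exact le_mul_of_one_le_left (Pool.Agent.TH204.WR.prod_nonneg' F t w0) (one_le_Vz_inv w0)
      have h6 := (abs_le.1 h3).1
      linarith
    · intro z hz hz3
      have htail := hN z hz hz3
      have hsplit : ∑ p ∈ (Ioc w z).filter Nat.Prime, xp F t p =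
          ∑ p ∈ (Ioc w y).filter Nat.Prime, xp F t p + ∑ p ∈ (Ioc y z).filter Nat.Prime, xp F t p := by
        have hu : (Ioc w z).filter Nat.Prime = (Ioc w y).filter Nat.Prime ∪ (Ioc y z).filter Nat.Prime := by
          ext p
          rw [mem_union, mem_filter, mem_filter, mem_filter, mem_Ioc, mem_Ioc, mem_Ioc]
          constructor
          · rintro ⟨⟨a1, a2⟩, a3⟩
            rcases Nat.lt_or_ge y p with a4 | a4
            · right; exact ⟨⟨a4, a2⟩, a3⟩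
            · left; exact ⟨⟨a1, a4⟩, a3⟩
          · rintro (⟨⟨a1, a2⟩, a3⟩ | ⟨⟨a1, a2⟩, a3⟩)
            · exact ⟨⟨a1, by omega⟩, a3⟩
            · exact ⟨⟨by omega, a2⟩, a3⟩
        rw [hu, sum_union]
        rw [disjoint_left]
        intro p hp hq
        rw [mem_filter, mem_Ioc] at hp hq
        omega
      have hall : |∑ p ∈ (Ioc w z).filter Nat.Prime, xp F t p| ≤ 2 * κ := by
        rw [hsplit]
        refine (abs_add_le _ _).trans ?_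
        linarith
      have h3 := hh_close F t w z (by omega) (hw02.trans hww0) hl0 (hwy.trans hz) (2 * κ) (by
        rw [← hdd]
        have h4 : 8 * (d : ℝ) ^ 2 / κ ≤ w := by linarith
        rw [div_le_iff₀ hκ0] at h4
        have h5 : 0 ≤ κ * w := by positivity
        linarith) (by omega) (by linarith) hall
      refine h3.trans ?_
      apply mul_le_mul_of_nonneg_right _ (hh_nonneg F t w (by omega))
      linarith

end Pool.Agent.TH892.OP
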