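import Pool.Agent.TH892.OP.C7
import Pool.Agent.TH204.WR.W8

/-!
One height, and interpolation between the heights.
-/

set_option autoImplicit false

namespace Pool.Agent.TH892.OP

open Finset Filter Polynomial
open Pool.Agent.H373R2.T7 (pz Vz lamz mem_pz Vz_ge Vz_inv_le Vz_le_one)
open Pool.Agent.TH892.SW (ff wt wt_nonneg wt_anti wt_le)
open Pool.Agent.TH204.WR (TT TT_zero TT_diff TT_diff_le Gap gap_card gap_mono window_TT vN ff_eq)
open Pool.Agent.TH892.OW (fz lz)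

/-- the arguments with value in `[1,Y]` -/
def AA (G : ℕ → ℤ) (N0 M Y : ℕ) (t : ℤ) : Finset ℕ := (Icc N0 M).filter (fun n => (0 : ℤ) < G n + t ∧ G n + t ≤ Y)

lemma TT_eq (G : ℕ → ℤ) (N0 M Y : ℕ) (f : ℤ → ℝ) (t : ℤ) : TT G N0 M Y f t = ∑ n ∈ AA G N0 M Y t, f (G n + t) := by
  have h := TT_diff G N0 M Y 0 (Nat.zero_le _) f t
  rw [TT_zero, sub_zero] at h
  rw [h]
  rfl

lemma AA_Ioc (G : ℕ → ℤ) (σ : ℤ) (hσ : σ = 1 ∨ σ = -1) (N0 g : ℕ) (hN0 : 1 ≤ N0) (hg : 1 ≤ g) (hG : Gap G σ N0 g) (M Y : ℕ) (t : ℤ) :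
    ∃ a n : ℕ, a ≤ n ∧ AA G N0 M Y t = Ioc a n := by
  rcases (AA G N0 M Y t).eq_empty_or_nonempty with h0 | h0
  · exact ⟨0, 0, le_rfl, by rw [h0]; simp⟩
  · have hxT := (AA G N0 M Y t).min'_mem h0
    have hyT := (AA G N0 M Y t).max'_mem h0
    obtain ⟨a, ha⟩ : ∃ a, a = (AA G N0 M Y t).min' h0 := ⟨_, rfl⟩
    obtain ⟨b, hb⟩ : ∃ b, b = (AA G N0 M Y t).max' h0 := ⟨_, rfl⟩
    have hmin : ∀ i ∈ AA G N0 M Y t, a ≤ i := fun i hi => by rw [ha]; exact min'_le _ _ hi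
    have hmax : ∀ i ∈ AA G N0 M Y t, i ≤ b := fun i hi => by rw [hb]; exact le_max' _ _ hi
    rw [← ha] at hxT
    rw [← hb] at hyT
    unfold AA at hxT hyT
    rw [mem_filter, mem_Icc] at hxT hyT
    have hab : a ≤ b := hmin b (by unfold AA; rw [mem_filter, mem_Icc]; exact hyT)
    refine ⟨a - 1, b, by omega, ?_⟩
    ext i
    rw [mem_Ioc]
    constructor
    · intro hi
      have h1 := hmin i hi
      have h2 := hmax i hi
      omega
    · rintro ⟨h1, h2⟩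
      have h3 : a ≤ i := by omega
      unfold AA
      rw [mem_filter, mem_Icc]
      refine ⟨by omega, ?_⟩
      have e1 : σ * G a ≤ σ * G i := by
        rcases h3.eq_or_lt with h | h
        · rw [h]
        · exact (gap_mono G σ N0 g hg hG a i hxT.1.1 h).le
      have e2 : σ * G i ≤ σ * G b := by
        rcases h2.eq_or_lt with h | h
        · rw [h]
        · exact (gap_mono G σ N0 g hg hG i b (by omega) h).le
      obtain ⟨⟨u1, u2⟩, u3, u4⟩ := hxT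
      obtain ⟨⟨v1, v2⟩, v3, v4⟩ := hyT
      rcases hσ with h | h
      · rw [h, one_mul, one_mul] at e1 e2
        constructor <;> linarith
      · rw [h, neg_one_mul, neg_one_mul] at e1 e2
        constructor <;> linarith

lemma AA_card (G : ℕ → ℤ) (σ : ℤ) (hσ : σ = 1 ∨ σ = -1) (N0 g : ℕ) (hg : 1 ≤ g) (hG : Gap G σ N0 g) (M Y : ℕ) (t : ℤ) :
    (#(AA G N0 M Y t) : ℝ) ≤ (Y : ℝ) / g + 1 := by
  have h := gap_card G σ hσ N0 g hg hG t (AA G N0 M Y t) 0 Y (by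
    intro n hn
    unfold AA at hn
    rw [mem_filter, mem_Icc] at hn
    exact ⟨hn.1.1, hn.2.1, hn.2.2⟩) (by exact_mod_cast Nat.zero_le _)
  simpa using h

/-- the indicator function of the primes -/
noncomputable def ip (v : ℤ) : ℝ := if v.toNat.Prime then 1 else 0

lemma ip_nonneg (v : ℤ) : 0 ≤ ip v := by unfold ip; split_ifs <;> norm_num

lemma ff_vN (P : ℤ[X]) (t : ℤ) (z n : ℕ) (h : 2 ≤ P.eval (n : ℤ) + t) :
    ff z (P.eval (n : ℤ) + t) = ip (P.eval (n : ℤ) + t) - lamz z (vN P t n) * wt (vN P t n) := by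
  rw [ff_eq P t z n h]
  have h1 : (P.eval (n : ℤ) + t).toNat = vN P t n := by
    unfold vN
    omega
  unfold ip
  rw [h1]

lemma fz_vN (P : ℤ[X]) (t : ℤ) (w z n : ℕ) (h : 2 ≤ P.eval (n : ℤ) + t) :
    fz w z (P.eval (n : ℤ) + t) = lamz z (vN P t n) - lamz w (vN P t n) := by
  have h1 : (P.eval (n : ℤ) + t).toNat = vN P t n := by
    unfold vN
    omega
  unfold fz lz
  rw [if_pos (by omega), if_pos (by omega), h1]

/-- one height -/
lemma one_height (P : ℤ[X]) (t : ℤ) (w z N0 M Y g : ℕ) (σ : ℤ) (hσ : σ = 1 ∨ σ = -1) (hg : 1 ≤ g)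
    (hG : Gap (fun n => P.eval (n : ℤ)) σ N0 g) (hN0 : 1 ≤ N0) (l R H δ0 ε lam e : ℝ) (b C1 : ℕ)
    (hl : 0 < l) (hR : 0 < R) (hε : 0 < ε) (hε1 : ε ≤ 1 / 4) (hδ0 : 0 ≤ δ0) (hδH : δ0 ≤ H) (hH : 0 < H) (hlam : 1 / l ≤ lam)
    (he : 1 ≤ e) (hgR : R ≤ e * g) (hρ1 : 1 ≤ (Y : ℝ) / R) (hwρ : 3 * (w : ℝ) ^ (C1 * b) ≤ ε * (Y / R))
    (hb : 2 * (1 / 2 : ℝ) ^ b ≤ ε)
    (hmod : ∀ a n : ℕ, a ≤ n → |∑ i ∈ Ioc a n, (lamz w (vN P t i) - H)| ≤
      2 * (1 / 2 : ℝ) ^ b * H * ((n : ℝ) - a) + 3 * (w : ℝ) ^ (C1 * b) * H)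
    (hval : ∀ n ∈ Icc N0 M, 0 < P.eval (n : ℤ) + t → P.eval (n : ℤ) + t ≤ Y →
      2 ≤ P.eval (n : ℤ) + t ∧ |wt (vN P t n) - lam| ≤ ε * lam)
    (hff : |TT (fun n => P.eval (n : ℤ)) N0 M Y (ff z) t| ≤ (ε * δ0) * (Y / R / l))
    (hfz : |TT (fun n => P.eval (n : ℤ)) N0 M Y (fz w z) t| ≤ (ε * δ0) * (Y / R)) :
    |TT (fun n => P.eval (n : ℤ)) N0 M Y ip t - lam * H * TT (fun n => P.eval (n : ℤ)) N0 M Y (fun _ => 1) t| ≤
      8 * e * ε * (lam * H * (Y / R)) := by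
  obtain ⟨a, n, han, hA⟩ := AA_Ioc (fun n => P.eval (n : ℤ)) σ hσ N0 g hN0 hg hG M Y t
  have hcard := AA_card (fun n => P.eval (n : ℤ)) σ hσ N0 g hg hG M Y t
  have hv : ∀ i ∈ AA (fun n => P.eval (n : ℤ)) N0 M Y t, 2 ≤ P.eval (i : ℤ) + t ∧ |wt (vN P t i) - lam| ≤ ε * lam := by
    intro i hi
    unfold AA at hi
    rw [mem_filter] at hi
    exact hval i hi.1 hi.2.1 hi.2.2
  rw [TT_eq, TT_eq]
  rw [TT_eq] at hff hfz
  generalize AA (fun n => P.eval (n : ℤ)) N0 M Y t = A at *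
  have e1 : ∑ i ∈ A, ff z (P.eval (i : ℤ) + t) = ∑ i ∈ A, ip (P.eval (i : ℤ) + t) - ∑ i ∈ A, lamz z (vN P t i) * wt (vN P t i) := by
    rw [← sum_sub_distrib]
    exact sum_congr rfl fun i hi => ff_vN P t z i (hv i hi).1
  have e2 : ∑ i ∈ A, fz w z (P.eval (i : ℤ) + t) = ∑ i ∈ A, lamz z (vN P t i) - ∑ i ∈ A, lamz w (vN P t i) := by
    rw [← sum_sub_distrib]
    exact sum_congr rfl fun i hi => fz_vN P t w z i (hv i hi).1
  beta_reduce at hff hfz ⊢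
  rw [e1] at hff
  rw [e2] at hfz
  have e3 : ∑ _i ∈ A, (1 : ℝ) = #A := by rw [sum_const, nsmul_eq_mul, mul_one]
  rw [e3]
  have hlam0 : 0 < lam := lt_of_lt_of_le (by positivity) hlam
  have e4 : |∑ i ∈ A, lamz z (vN P t i) * wt (vN P t i) - lam * ∑ i ∈ A, lamz z (vN P t i)| ≤
      ε * lam * ∑ i ∈ A, lamz z (vN P t i) := by
    rw [mul_sum, ← sum_sub_distrib, mul_sum]
    refine (abs_sum_le_sum_abs _ _).trans (sum_le_sum fun i hi => ?_)
    have h1 : lamz z (vN P t i) * wt (vN P t i) - lam * lamz z (vN P t i) = lamz z (vN P t i) * (wt (vN P t i) - lam) := by ring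
    have h2 := Pool.Agent.H373R2.T7.lamz_nonneg z (vN P t i)
    rw [h1, abs_mul, abs_of_nonneg h2, mul_comm (ε * lam)]
    exact mul_le_mul_of_nonneg_left (hv i hi).2 h2
  have e5 : |∑ i ∈ A, lamz w (vN P t i) - #A * H| ≤ 2 * (1 / 2 : ℝ) ^ b * H * #A + 3 * (w : ℝ) ^ (C1 * b) * H := by
    have h1 := hmod a n han
    have h2 : ((#A : ℕ) : ℝ) = (n : ℝ) - a := by rw [hA, Nat.card_Ioc, Nat.cast_sub han]
    rw [← hA, sum_sub_distrib, sum_const, nsmul_eq_mul, ← h2] at h1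
    exact h1
  obtain ⟨ρ, hρ⟩ : ∃ ρ, ρ = (Y : ℝ) / R := ⟨_, rfl⟩
  have hgr : (0 : ℝ) < g := by exact_mod_cast hg
  have hcard2 : (#A : ℝ) ≤ 2 * e * ρ := by
    have h1 : (Y : ℝ) / g ≤ e * ρ := by
      rw [hρ, div_le_iff₀ hgr]
      have h2 : (Y : ℝ) = (Y / R) * R := by field_simp
      calc (Y : ℝ) = (Y / R) * R := h2
        _ ≤ (Y / R) * (e * g) := mul_le_mul_of_nonneg_left hgR (by linarith)
        _ = _ := by ring
    have h3 : 1 ≤ e * ρ := by rw [hρ]; exact one_le_mul_of_one_le_of_one_le he hρ1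
    linarith
  have hcard0 : (0 : ℝ) ≤ #A := Nat.cast_nonneg _
  rw [← hρ] at hρ1 hwρ hff hfz ⊢
  generalize ∑ i ∈ A, ip (P.eval (i : ℤ) + t) = Cn at *
  generalize ∑ i ∈ A, lamz z (vN P t i) * wt (vN P t i) = W at *
  generalize ∑ i ∈ A, lamz w (vN P t i) = Q at *
  generalize ∑ i ∈ A, lamz z (vN P t i) = P1 at *
  generalize (#A : ℝ) = Λ at *
  clear e1 e2 e3 hA hv hval hmod hcard
  have hρ0 : 0 < ρ := by linarith
  have t1 : |P1 - H * Λ| ≤ 4 * e * ε * (H * ρ) := by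
    have a1 : P1 - H * Λ = (P1 - Q) + (Q - Λ * H) := by ring
    rw [a1]
    refine (abs_add_le _ _).trans ?_
    have a2 : ε * δ0 * ρ ≤ ε * H * ρ := by gcongr
    have a3 : 2 * (1 / 2 : ℝ) ^ b * H * Λ ≤ ε * H * (2 * e * ρ) := by gcongr
    have a4 : 3 * (w : ℝ) ^ (C1 * b) * H ≤ ε * ρ * H := by gcongr
    have a5 : ε * H * ρ ≤ e * (ε * (H * ρ)) := by
      have : 1 * (ε * (H * ρ)) ≤ e * (ε * (H * ρ)) := mul_le_mul_of_nonneg_right he (by positivity)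
      linarith
    have a6 : ε * H * (2 * e * ρ) = 2 * (e * (ε * (H * ρ))) := by ring
    have a7 : 4 * e * ε * (H * ρ) = 4 * (e * (ε * (H * ρ))) := by ring
    rw [a6] at a3
    rw [a7]
    linarith
  have hP2 : P1 ≤ 3 * e * (H * ρ) := by
    have a1 := (abs_le.1 t1).2
    have a2 : 4 * e * ε * (H * ρ) ≤ 4 * e * (1 / 4) * (H * ρ) := by gcongr
    have a3 : H * Λ ≤ H * (2 * e * ρ) := by gcongr
    linarith
  have a1 : Cn - lam * H * Λ = (Cn - W) + (W - lam * P1) + lam * (P1 - H * Λ) := by ring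
  rw [a1]
  refine (abs_add_le _ _).trans ?_
  have a2 := abs_add_le (Cn - W) (W - lam * P1)
  have a3 : |lam * (P1 - H * Λ)| ≤ lam * (4 * e * ε * (H * ρ)) := by
    rw [abs_mul, abs_of_pos hlam0]
    exact mul_le_mul_of_nonneg_left t1 hlam0.le
  have a4 : ε * lam * P1 ≤ ε * lam * (3 * e * (H * ρ)) := mul_le_mul_of_nonneg_left hP2 (by positivity)
  have a5 : (ε * δ0) * (ρ / l) ≤ e * (ε * (lam * H * ρ)) := by
    calc (ε * δ0) * (ρ / l) = ε * δ0 * ρ * (1 / l) := by ring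
      _ ≤ ε * H * ρ * lam := by gcongr
      _ = 1 * (ε * (lam * H * ρ)) := by ring
      _ ≤ e * (ε * (lam * H * ρ)) := mul_le_mul_of_nonneg_right he (by positivity)
  have a7 : lam * (4 * e * ε * (H * ρ)) = 4 * (e * (ε * (lam * H * ρ))) := by ring
  have a8 : ε * lam * (3 * e * (H * ρ)) = 3 * (e * (ε * (lam * H * ρ))) := by ring
  have a9 : 8 * e * ε * (lam * H * ρ) = 8 * (e * (ε * (lam * H * ρ))) := by ring
  rw [a9]
  rw [a7] at a3
  rw [a8] at a4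
  linarith

/-- interpolation -/
lemma interpP (G : ℕ → ℤ) (σ : ℤ) (hσ : σ = 1 ∨ σ = -1) (N0 M g : ℕ) (hg : 1 ≤ g) (hG : Gap G σ N0 g) (t : ℤ)
    (R T0 l q ε e Mx : ℝ) (hR : 1 ≤ R) (hT0 : 1 ≤ T0) (hl : 2 ≤ l) (hε : 0 < ε)
    (hε1 : ε ≤ 1 / 8) (hεl : 1 ≤ ε * l) (hq : 0 < q) (he : 1 ≤ e) (hgR : R ≤ e * g)
    (hs : ∀ j : ℕ, (gh R T0 l ε j : ℝ) ≤ R * Mx →
      |TT G N0 M (gh R T0 l ε j) ip t - q * TT G N0 M (gh R T0 l ε j) (fun _ => 1) t| ≤ 8 * e * ε * (q * ((gh R T0 l ε j : ℝ) / R)))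
    (hM : T0 * l ≤ Mx) (Y : ℕ) (hY : 2 * ((Y : ℝ) / R) ≤ Mx) :
    |TT G N0 M Y ip t - q * TT G N0 M Y (fun _ => 1) t| ≤ q * (e * (19 * ε * (Y / R) + 10 * (T0 * l))) := by
  have hR0 : 0 < R := by linarith
  have hTl : 0 < T0 * l := by positivity
  have hTl2 : 2 ≤ T0 * l := by nlinarith
  have hY0 : (0 : ℝ) ≤ Y := Nat.cast_nonneg _
  have hgr : (0 : ℝ) < g := by exact_mod_cast hg
  have he0 : 0 < e := by linarith
  obtain ⟨ρ, hρ⟩ : ∃ ρ, ρ = (Y : ℝ) / R := ⟨_, rfl⟩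
  have hYρ : (Y : ℝ) = R * ρ := by rw [hρ]; field_simp
  rw [← hρ] at hY ⊢
  have hρ0 : 0 ≤ ρ := by rw [hρ]; positivity
  -- monotonicity
  have mono1 : ∀ a b : ℕ, a ≤ b → TT G N0 M a ip t ≤ TT G N0 M b ip t := by
    intro a b hab
    have h := TT_diff G N0 M b a hab ip t
    have h2 : 0 ≤ ∑ n ∈ (Icc N0 M).filter (fun n => (a : ℤ) < G n + t ∧ G n + t ≤ b), ip (G n + t) :=
      sum_nonneg fun _ _ => ip_nonneg _
    linarith
  have mono2 : ∀ a b : ℕ, a ≤ b → TT G N0 M b (fun _ => 1) t - TT G N0 M a (fun _ => 1) t ≤ e * (((b : ℝ) - a) / R) + 1 ∧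
      TT G N0 M a (fun _ => 1) t ≤ TT G N0 M b (fun _ => 1) t := by
    intro a b hab
    have h := TT_diff_le G σ hσ N0 g hg hG M b a hab (fun _ => 1) t 1 (fun _ => by simp)
    have h1 := (abs_le.1 h).2
    have h3 := TT_diff G N0 M b a hab (fun _ => (1 : ℝ)) t
    have h4 : (0 : ℝ) ≤ ∑ n ∈ (Icc N0 M).filter (fun n => (a : ℤ) < G n + t ∧ G n + t ≤ b), (1 : ℝ) :=
      sum_nonneg fun _ _ => zero_le_one
    have h5 : ((b : ℝ) - a) / g ≤ e * (((b : ℝ) - a) / R) := by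
      have h6 : (0 : ℝ) ≤ (b : ℝ) - a := by rw [sub_nonneg]; exact_mod_cast hab
      rw [div_le_iff₀ hgr]
      calc (b : ℝ) - a = (((b : ℝ) - a) / R) * R := by field_simp
        _ ≤ (((b : ℝ) - a) / R) * (e * g) := mul_le_mul_of_nonneg_left hgR (by positivity)
        _ = _ := by ring
    constructor <;> linarith
  have nn1 : ∀ a : ℕ, 0 ≤ TT G N0 M a ip t := by
    intro a
    have := mono1 0 a (Nat.zero_le _)
    rwa [TT_zero] at this
  have nn2 : ∀ a : ℕ, 0 ≤ TT G N0 M a (fun _ => 1) t ∧ TT G N0 M a (fun _ => 1) t ≤ e * ((a : ℝ) / R) + 1 := by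
    intro a
    have := mono2 0 a (Nat.zero_le _)
    rw [TT_zero] at this
    simpa using this.symm
  rcases lt_or_ge ρ (T0 * l) with h1 | h1
  · have h2 : gh R T0 l ε 0 = ⌊R * (T0 * l)⌋₊ := by unfold gh; simp
    have h3 : (gh R T0 l ε 0 : ℝ) ≤ R * (T0 * l) := by rw [h2]; exact Nat.floor_le (by positivity)
    have h3' : (gh R T0 l ε 0 : ℝ) / R ≤ T0 * l := by rw [div_le_iff₀ hR0]; linarith
    have h4 : Y ≤ gh R T0 l ε 0 := by
      rw [h2]
      apply Nat.le_floor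
      rw [hYρ]
      exact mul_le_mul_of_nonneg_left h1.le hR0.le
    have h5 := hs 0 (h3.trans (mul_le_mul_of_nonneg_left hM hR0.le))
    have h6 := mono1 _ _ h4
    have h7 := (abs_le.1 h5).2
    have h8 := (nn2 (gh R T0 l ε 0)).2
    have h8' := (mono2 _ _ h4).2
    have h9 := (nn2 Y).1
    have h13 := nn1 Y
    generalize TT G N0 M (gh R T0 l ε 0) ip t = C0 at *
    generalize TT G N0 M (gh R T0 l ε 0) (fun _ => 1) t = Λ0 at *
    generalize TT G N0 M Y ip t = C at *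
    generalize TT G N0 M Y (fun _ => 1) t = Λ at *
    have b1 : e * ((gh R T0 l ε 0 : ℝ) / R) ≤ e * (T0 * l) := mul_le_mul_of_nonneg_left h3' he0.le
    have b2 : (1 : ℝ) ≤ e * (T0 * l) := one_le_mul_of_one_le_of_one_le he (by linarith)
    have b3 : Λ0 ≤ 2 * (e * (T0 * l)) := by linarith
    have b4 : q * Λ0 ≤ q * (2 * (e * (T0 * l))) := mul_le_mul_of_nonneg_left b3 hq.le
    have b5 : 8 * e * ε * (q * ((gh R T0 l ε 0 : ℝ) / R)) ≤ 8 * e * (1 / 8) * (q * (T0 * l)) := by gcongr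
    have b6 : q * Λ ≤ q * Λ0 := mul_le_mul_of_nonneg_left h8' hq.le
    have b7 : 0 ≤ q * Λ := by positivity
    have b8 : q * (e * (19 * ε * ρ + 10 * (T0 * l))) = q * (e * (19 * ε * ρ)) + 10 * (q * (e * (T0 * l))) := by ring
    have b9 : 0 ≤ q * (e * (19 * ε * ρ)) := by positivity
    have b10 : 0 ≤ q * (e * (T0 * l)) := by positivity
    have b11 : q * (2 * (e * (T0 * l))) = 2 * (q * (e * (T0 * l))) := by ring
    have b12 : 8 * e * (1 / 8) * (q * (T0 * l)) = q * (e * (T0 * l)) := by ring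
    rw [b11] at b4
    rw [b12] at b5
    rw [b8, abs_le]
    constructor <;> linarith
  · obtain ⟨j, hj1, hj2⟩ := exists_nat_pow_near (x := ρ / (T0 * l)) (y := 1 + ε)
      (by rw [one_le_div hTl]; exact h1) (by linarith)
    rw [le_div_iff₀ hTl] at hj1
    rw [div_lt_iff₀ hTl] at hj2
    have hρl : l ≤ ρ := by
      have : 1 * l ≤ T0 * l := mul_le_mul_of_nonneg_right hT0 (by linarith)
      linarith
    have hερ : 1 ≤ ε * ρ := hεl.trans (mul_le_mul_of_nonneg_left hρl hε.le)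
    -- the two heights
    have a1 : (gh R T0 l ε j : ℝ) ≤ Y := by
      have := Nat.floor_le (show 0 ≤ R * (T0 * l * (1 + ε) ^ j) by positivity)
      have h3 : R * (T0 * l * (1 + ε) ^ j) ≤ R * ρ := mul_le_mul_of_nonneg_left (by linarith) hR0.le
      unfold gh
      linarith
    have a2 : Y ≤ gh R T0 l ε (j + 1) := by
      unfold gh
      apply Nat.le_floor
      rw [hYρ]
      exact mul_le_mul_of_nonneg_left (by linarith) hR0.le
    have a3 : (gh R T0 l ε (j + 1) : ℝ) ≤ R * ((1 + ε) * ρ) := by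
      have := Nat.floor_le (show 0 ≤ R * (T0 * l * (1 + ε) ^ (j + 1)) by positivity)
      have e1 : R * (T0 * l * (1 + ε) ^ (j + 1)) = R * ((1 + ε) * ((1 + ε) ^ j * (T0 * l))) := by ring
      unfold gh
      refine this.trans ?_
      rw [e1]
      exact mul_le_mul_of_nonneg_left (mul_le_mul_of_nonneg_left hj1 (by linarith)) hR0.le
    have a3' : (gh R T0 l ε (j + 1) : ℝ) / R ≤ (1 + ε) * ρ := by
      rw [div_le_iff₀ hR0]; linarith
    have a1' : (gh R T0 l ε j : ℝ) / R ≤ ρ := by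
      rw [div_le_iff₀ hR0]; linarith
    have a4 : R * ((1 - 2 * ε) * ρ) ≤ (gh R T0 l ε j : ℝ) := by
      have h3 := Nat.lt_floor_add_one (R * (T0 * l * (1 + ε) ^ j))
      have h4 : ρ < (1 + ε) * (T0 * l * (1 + ε) ^ j) := by
        have : (1 + ε) ^ (j + 1) * (T0 * l) = (1 + ε) * (T0 * l * (1 + ε) ^ j) := by ring
        linarith
      have h5 : (1 - ε) * ρ ≤ T0 * l * (1 + ε) ^ j := by
        have h6 : (1 - ε) * ρ ≤ (1 - ε) * ((1 + ε) * (T0 * l * (1 + ε) ^ j)) :=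
          mul_le_mul_of_nonneg_left h4.le (by linarith)
        have h7 : (1 - ε) * ((1 + ε) * (T0 * l * (1 + ε) ^ j)) = T0 * l * (1 + ε) ^ j - ε ^ 2 * (T0 * l * (1 + ε) ^ j) := by ring
        have h8 : 0 ≤ ε ^ 2 * (T0 * l * (1 + ε) ^ j) := by positivity
        linarith
      have h6 : R * ((1 - ε) * ρ) ≤ R * (T0 * l * (1 + ε) ^ j) := mul_le_mul_of_nonneg_left h5 hR0.le
      have h7 : 1 * 1 ≤ R * (ε * ρ) := mul_le_mul hR hερ (by norm_num) hR0.le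
      have e1 : R * ((1 - 2 * ε) * ρ) = R * ((1 - ε) * ρ) - R * (ε * ρ) := by ring
      unfold gh
      rw [e1]
      linarith
    have a5 : (gh R T0 l ε (j + 1) : ℝ) ≤ R * Mx := by
      refine a3.trans (mul_le_mul_of_nonneg_left ?_ hR0.le)
      have : (1 + ε) * ρ ≤ 2 * ρ := mul_le_mul_of_nonneg_right (by linarith) hρ0
      linarith
    have a6 : gh R T0 l ε j ≤ Y := by exact_mod_cast a1
    have b1 := (abs_le.1 (hs (j + 1) a5)).2
    have b2 := (abs_le.1 (hs j (by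
      refine a1.trans ?_
      rw [hYρ]
      apply mul_le_mul_of_nonneg_left _ hR0.le
      linarith))).1
    have b3 := mono1 _ _ a2
    have b4 := mono1 _ _ a6
    have b5 := (mono2 _ _ a2).1
    have b6 := (mono2 _ _ a6).1
    have c1 : e * ((((gh R T0 l ε (j + 1) : ℕ) : ℝ) - Y) / R) ≤ e * (ε * ρ) := by
      apply mul_le_mul_of_nonneg_left _ he0.le
      rw [div_le_iff₀ hR0, hYρ]
      linarith
    have c2 : e * (((Y : ℝ) - (gh R T0 l ε j : ℕ)) / R) ≤ e * (2 * ε * ρ) := by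
      apply mul_le_mul_of_nonneg_left _ he0.le
      rw [div_le_iff₀ hR0, hYρ]
      linarith
    have c3 : 8 * e * ε * (q * ((gh R T0 l ε (j + 1) : ℝ) / R)) ≤ 8 * e * ε * (q * (2 * ρ)) := by
      have : (gh R T0 l ε (j + 1) : ℝ) / R ≤ 2 * ρ := by
        have h3 : (1 + ε) * ρ ≤ 2 * ρ := mul_le_mul_of_nonneg_right (by linarith) hρ0
        linarith
      gcongr
    have c4 : 8 * e * ε * (q * ((gh R T0 l ε j : ℝ) / R)) ≤ 8 * e * ε * (q * (2 * ρ)) := by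
      have : (gh R T0 l ε j : ℝ) / R ≤ 2 * ρ := by linarith
      gcongr
    have c5 : (1 : ℝ) ≤ e * (ε * ρ) := one_le_mul_of_one_le_of_one_le he hερ
    generalize TT G N0 M (gh R T0 l ε (j + 1)) ip t = C1 at *
    generalize TT G N0 M (gh R T0 l ε (j + 1)) (fun _ => 1) t = Λ1 at *
    generalize TT G N0 M (gh R T0 l ε j) ip t = C0 at *
    generalize TT G N0 M (gh R T0 l ε j) (fun _ => 1) t = Λ0 at *
    generalize TT G N0 M Y ip t = C at *
    generalize TT G N0 M Y (fun _ => 1) t = Λ at *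
    have d1 : q * (Λ1 - Λ) ≤ q * (3 * (e * (ε * ρ))) := mul_le_mul_of_nonneg_left (by linarith) hq.le
    have d2 : q * (Λ - Λ0) ≤ q * (3 * (e * (ε * ρ))) := by
      apply mul_le_mul_of_nonneg_left _ hq.le
      have : e * (2 * ε * ρ) = 2 * (e * (ε * ρ)) := by ring
      linarith
    have d3 : 8 * e * ε * (q * (2 * ρ)) = 16 * (q * (e * (ε * ρ))) := by ring
    have d4 : q * (3 * (e * (ε * ρ))) = 3 * (q * (e * (ε * ρ))) := by ring
    have d5 : q * (e * (19 * ε * ρ + 10 * (T0 * l))) = 19 * (q * (e * (ε * ρ))) + 10 * (q * (e * (T0 * l))) := by ring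
    have d6 : 0 ≤ q * (e * (T0 * l)) := by positivity
    have d7 : 0 ≤ q * (e * (ε * ρ)) := by positivity
    rw [d3] at c3 c4
    rw [d4] at d1 d2
    have d8 : q * (Λ1 - Λ) = q * Λ1 - q * Λ := by ring
    have d9 : q * (Λ - Λ0) = q * Λ - q * Λ0 := by ring
    rw [d8] at d1
    rw [d9] at d2
    rw [d5, abs_le]
    constructor <;> linarith

end Pool.Agent.TH892.OP
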